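import Mathlib
import Pool.Agent.Y883.T3.Vin
import Pool.Agent.W93.TD6

/-!
# Prime tuples with an additive twist, part 1 (helper609)

`∑ Λ(n) e(θ n) ∏ λ_z(n + a_i)` is small if `θ` is badly approximable on the scale `N ^ η`.
-/

set_option autoImplicit false
set_option maxHeartbeats 4000000

namespace Pool.Agent.Run7.h609.BT

open Finset
open Pool.Agent.H807R2.Dav (ee norm_ee ee_add ee_int ee_pow)
open Pool.Agent.H373R2.T7

/-- orthogonality of the additive characters modulo `d` -/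
lemma orth (d : ℕ) (hd : 1 ≤ d) (m : ℤ) :
    ∑ c ∈ range d, ee ((m : ℝ) * ((c : ℝ) / d)) = if (d : ℤ) ∣ m then (d : ℂ) else 0 := by
  have hd0 : (d : ℝ) ≠ 0 := by positivity
  obtain ⟨w, hw⟩ : ∃ w, w = ee ((m : ℝ) / d) := ⟨_, rfl⟩
  have h1 : ∀ c ∈ range d, ee ((m : ℝ) * ((c : ℝ) / d)) = w ^ c := by
    intro c _
    rw [hw, ← ee_pow]
    congr 1
    ring
  rw [sum_congr rfl h1]
  have hwd : w ^ d = 1 := by
    rw [hw, ← ee_pow, mul_div_cancel₀ _ hd0]
    exact ee_int m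
  split_ifs with h
  · obtain ⟨k, rfl⟩ := h
    have h2 : w = 1 := by
      rw [hw]
      push_cast
      rw [mul_div_cancel_left₀ _ hd0]
      exact ee_int k
    rw [h2]
    simp
  · have hne : w ≠ 1 := by
      intro h2
      rw [hw] at h2
      unfold ee at h2
      rw [Complex.exp_eq_one_iff] at h2
      obtain ⟨n, hn⟩ := h2
      apply h
      refine ⟨n, ?_⟩
      have hpi : (2 * (Real.pi : ℂ) * Complex.I) ≠ 0 := Complex.two_pi_I_ne_zero
      have h3 : (((m : ℝ) / d : ℝ) : ℂ) = (n : ℂ) := by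
        apply mul_left_cancel₀ hpi
        rw [hn]
        ring
      have h4 : (m : ℝ) / d = n := by exact_mod_cast h3
      rw [div_eq_iff hd0] at h4
      have h5 : (m : ℝ) = ((d * n : ℤ) : ℝ) := by
        push_cast
        linarith
      exact_mod_cast h5
    rw [geom_sum_eq hne, hwd, sub_self, zero_div]

/-- a residue class -/
lemma cls (d : ℕ) (hd : 1 ≤ d) (G : ℕ → ℂ) (N b : ℕ) (hb : b < d) (B : ℝ)
    (hB : ∀ c : ℕ, ‖∑ n ∈ Icc 1 N, G n * ee ((n : ℝ) * ((c : ℝ) / d))‖ ≤ B) :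
    ‖∑ n ∈ (Icc 1 N).filter (fun n => n % d = b), G n‖ ≤ B := by
  have hd0 : (0 : ℝ) < d := by exact_mod_cast hd
  have hdc : (d : ℂ) ≠ 0 := by exact_mod_cast hd0.ne'
  have h1 : (d : ℂ) * ∑ n ∈ (Icc 1 N).filter (fun n => n % d = b), G n =
      ∑ c ∈ range d, ee (-((b : ℝ) * ((c : ℝ) / d))) * ∑ n ∈ Icc 1 N, G n * ee ((n : ℝ) * ((c : ℝ) / d)) := by
    have h2 : ∀ c ∈ range d, ee (-((b : ℝ) * ((c : ℝ) / d))) * ∑ n ∈ Icc 1 N, G n * ee ((n : ℝ) * ((c : ℝ) / d)) =
        ∑ n ∈ Icc 1 N, G n * ee ((((n : ℤ) - (b : ℤ) : ℤ) : ℝ) * ((c : ℝ) / d)) := by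
      intro c _
      rw [mul_sum]
      apply sum_congr rfl
      intro n _
      have h3 : (((n : ℤ) - (b : ℤ) : ℤ) : ℝ) * ((c : ℝ) / d) = -((b : ℝ) * ((c : ℝ) / d)) + (n : ℝ) * ((c : ℝ) / d) := by
        push_cast
        ring
      rw [h3, ee_add]
      ring
    rw [sum_congr rfl h2, sum_comm, sum_filter, mul_sum]
    apply sum_congr rfl
    intro n _
    rw [← mul_sum, orth d hd]
    have h4 : n % d = b ↔ (d : ℤ) ∣ ((n : ℤ) - (b : ℤ)) := by
      rw [← Nat.modEq_iff_dvd]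
      unfold Nat.ModEq
      rw [Nat.mod_eq_of_lt hb]
      exact eq_comm
    by_cases h5 : n % d = b
    · rw [if_pos h5, if_pos (h4.1 h5)]
      ring
    · rw [if_neg h5, if_neg (fun h => h5 (h4.2 h))]
      ring
  have h2 : ‖(d : ℂ) * ∑ n ∈ (Icc 1 N).filter (fun n => n % d = b), G n‖ ≤ d * B := by
    rw [h1]
    refine (norm_sum_le _ _).trans ?_
    refine (sum_le_sum (g := fun _ => B) fun c _ => ?_).trans ?_
    · rw [norm_mul, norm_ee, one_mul]
      exact hB c
    · rw [sum_const, card_range, nsmul_eq_mul]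
  rw [norm_mul, Complex.norm_natCast] at h2
  exact le_of_mul_le_mul_left h2 hd0

/-- a periodic condition -/
lemma per (d : ℕ) (hd : 1 ≤ d) (P : ℕ → Prop) [DecidablePred P] (hP : ∀ n, P (n % d) ↔ P n) (G : ℕ → ℂ) (N : ℕ) (B : ℝ)
    (hB : ∀ c : ℕ, ‖∑ n ∈ Icc 1 N, G n * ee ((n : ℝ) * ((c : ℝ) / d))‖ ≤ B) :
    ‖∑ n ∈ (Icc 1 N).filter P, G n‖ ≤ d * B := by
  have hB0 : 0 ≤ B := (norm_nonneg _).trans (hB 0)
  have h1 : ∑ n ∈ (Icc 1 N).filter P, G n = ∑ b ∈ range d, ∑ n ∈ ((Icc 1 N).filter P).filter (fun n => n % d = b), G n := by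
    rw [sum_fiberwise_of_maps_to]
    intro n _
    exact mem_range.2 (Nat.mod_lt _ hd)
  rw [h1]
  refine (norm_sum_le _ _).trans ?_
  refine (sum_le_sum (g := fun _ => B) fun b hb => ?_).trans ?_
  · rw [mem_range] at hb
    by_cases h2 : P b
    · have h3 : ((Icc 1 N).filter P).filter (fun n => n % d = b) = (Icc 1 N).filter (fun n => n % d = b) := by
        rw [filter_filter]
        apply filter_congr
        intro n _
        constructor
        · exact fun h => h.2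
        · intro h
          refine ⟨?_, h⟩
          rw [← hP, h]
          exact h2
      rw [h3]
      exact cls d hd G N b hb B hB
    · have h3 : ((Icc 1 N).filter P).filter (fun n => n % d = b) = ∅ := by
        rw [filter_filter, filter_eq_empty_iff]
        rintro n _ ⟨h4, h5⟩
        apply h2
        rw [← h5, hP]
        exact h4
      rw [h3, sum_empty, norm_zero]
      exact hB0
  · rw [sum_const, card_range, nsmul_eq_mul]

/-- counting with a periodic condition -/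
lemma per_card (d : ℕ) (hd : 1 ≤ d) (P : ℕ → Prop) [DecidablePred P] (hP : ∀ n, P (n % d) ↔ P n) (N : ℕ) :
    (((Icc 1 N).filter P).card : ℝ) ≤ (((range d).filter P).card : ℝ) * ((N : ℝ) / d + 1) := by
  have hd0 : (0 : ℝ) < d := by exact_mod_cast hd
  have h1 : ((Icc 1 N).filter P).card = ∑ b ∈ (range d).filter P, (((Icc 1 N).filter P).filter (fun n => n % d = b)).card := by
    apply card_eq_sum_card_fiberwise
    intro n hn
    rw [mem_coe, mem_filter] at hn
    rw [mem_coe, mem_filter, mem_range]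
    exact ⟨Nat.mod_lt _ hd, (hP n).2 hn.2⟩
  rw [h1]
  push_cast
  refine (sum_le_sum (g := fun _ => (N : ℝ) / d + 1) fun b hb => ?_).trans ?_
  · have h2 : (((Icc 1 N).filter P).filter (fun n => n % d = b)).card ≤ N / d + 1 := by
      have h3 : (((Icc 1 N).filter P).filter (fun n => n % d = b)).card ≤ (range (N / d + 1)).card := by
        apply card_le_card_of_injOn (fun n => n / d)
        · intro n hn
          rw [mem_coe, mem_filter, mem_filter, mem_Icc] at hn
          rw [mem_coe, mem_range]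
          exact Nat.lt_succ_of_le (Nat.div_le_div_right hn.1.1.2)
        · intro n hn n' hn' he
          rw [mem_coe, mem_filter] at hn hn'
          have e1 := Nat.div_add_mod n d
          have e2 := Nat.div_add_mod n' d
          simp only at he
          rw [hn.2] at e1
          rw [hn'.2] at e2
          rw [← e1, ← e2, he]
      rwa [card_range] at h3
    have h4 : ((N / d : ℕ) : ℝ) ≤ (N : ℝ) / d := Nat.cast_div_le
    have h5 : ((((Icc 1 N).filter P).filter (fun n => n % d = b)).card : ℝ) ≤ ((N / d : ℕ) : ℝ) + 1 := by exact_mod_cast h2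
    linarith
  · rw [sum_const, nsmul_eq_mul]

/-- the divisibility condition -/
def Cd {k : ℕ} (a : Fin k → ℕ) (p n : ℕ) : Prop := ∃ i, p ∣ n + a i

lemma Cd_mod {k : ℕ} (a : Fin k → ℕ) (p d n : ℕ) (h : p ∣ d) : Cd a p (n % d) ↔ Cd a p n := by
  unfold Cd
  apply exists_congr
  intro i
  have h1 : n % d + a i ≡ n + a i [MOD d] := (Nat.mod_modEq n d).add_right _
  exact (h1.of_dvd h).dvd_iff (dvd_refl p)

open Classical in
lemma Cd_card {k : ℕ} (a : Fin k → ℕ) (p : ℕ) (hp : 1 ≤ p) : ((range p).filter (fun n => Cd a p n)).card ≤ k := by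
  have h1 : (range p).filter (fun n => Cd a p n) ⊆ univ.image (fun i : Fin k => (p - a i % p) % p) := by
    intro n hn
    rw [mem_filter, mem_range] at hn
    obtain ⟨h2, i, h3⟩ := hn
    rw [mem_image]
    refine ⟨i, mem_univ _, ?_⟩
    have h4 : p ∣ n + a i % p := by
      have h5 : n + a i % p ≡ n + a i [MOD p] := Nat.ModEq.add_left n (Nat.mod_modEq (a i) p)
      exact (h5.dvd_iff (dvd_refl p)).2 h3
    have h6 : a i % p < p := Nat.mod_lt _ hp
    obtain ⟨c, hc⟩ := h4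
    have h7 : c < 2 := by
      by_contra h8
      push Not at h8
      have : p * 2 ≤ p * c := Nat.mul_le_mul_left _ h8
      omega
    interval_cases c
    · have : n = 0 := by omega
      have h8 : a i % p = 0 := by omega
      rw [h8, this]
      simp
    · have h8 : p - a i % p = n := by omega
      rw [h8, Nat.mod_eq_of_lt h2]
  refine (card_le_card h1).trans (card_image_le.trans ?_)
  rw [card_univ, Fintype.card_fin]

open Classical in
lemma Cd_count {k : ℕ} (a : Fin k → ℕ) (S : Finset ℕ) (hS : ∀ p ∈ S, p.Prime) (N : ℕ) :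
    (((Icc 1 N).filter (fun n => ∀ p ∈ S, Cd a p n)).card : ℝ) ≤ (k : ℝ) ^ S.card * ((N : ℝ) / (∏ p ∈ S, p : ℕ) + 1) := by
  have hd : 1 ≤ ∏ p ∈ S, p := Nat.pos_of_ne_zero (prod_ne_zero_iff.2 fun p hp => (hS p hp).ne_zero)
  have h1 := per_card (∏ p ∈ S, p) hd (fun n => ∀ p ∈ S, Cd a p n) (fun n => by
    apply forall₂_congr
    intro p hp
    exact Cd_mod a p _ n (dvd_prod_of_mem _ hp)) N
  refine h1.trans ?_
  apply mul_le_mul_of_nonneg_right _ (by positivity)
  have h2 : ((range (∏ p ∈ S, p)).filter (fun n => ∀ p ∈ S, Cd a p n)).card =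
      ∏ p ∈ S, ((range p).filter (fun x => Cd a p x)).card := by
    rw [← crt_card (fun p x => Cd a p x) S hS]
    congr 1
    apply filter_congr
    intro n _
    apply forall₂_congr
    intro p _
    exact (Cd_mod a p p n (dvd_refl p)).symm
  rw [h2]
  push_cast
  calc ∏ p ∈ S, (((range p).filter (fun x => Cd a p x)).card : ℝ) ≤ ∏ _p ∈ S, (k : ℝ) := by
        apply prod_le_prod (fun _ _ => Nat.cast_nonneg _)
        intro p hp
        exact_mod_cast Cd_card a p (hS p hp).one_le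
    _ = (k : ℝ) ^ S.card := by rw [prod_const]

open Classical in
lemma lamz_prod {k : ℕ} (a : Fin k → ℕ) (z n : ℕ) (hn : 1 ≤ n) :
    ∏ i, lamzI z ((n : ℤ) + (a i : ℤ)) = ((Vz z)⁻¹) ^ k * (if ∀ p ∈ pz z, ¬ Cd a p n then (1 : ℝ) else 0) := by
  have h1 : ∀ i : Fin k, lamzI z ((n : ℤ) + (a i : ℤ)) = if ∀ p ∈ pz z, ¬ p ∣ n + a i then (Vz z)⁻¹ else 0 := by
    intro i
    unfold lamzI lamz
    rw [if_pos (by omega)]
    have h2 : ((n : ℤ) + (a i : ℤ)).toNat = n + a i := by omega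
    rw [h2]
  simp only [h1]
  by_cases h : ∀ p ∈ pz z, ¬ Cd a p n
  · rw [if_pos h, mul_one]
    have h2 : ∀ i ∈ (univ : Finset (Fin k)), (if ∀ p ∈ pz z, ¬ p ∣ n + a i then (Vz z)⁻¹ else 0) = (Vz z)⁻¹ := by
      intro i _
      rw [if_pos]
      intro p hp hd
      exact h p hp ⟨i, hd⟩
    rw [prod_congr rfl h2, prod_const, card_univ, Fintype.card_fin]
  · rw [if_neg h, mul_zero]
    push Not at h
    obtain ⟨p, hp, i, hi⟩ := h
    apply prod_eq_zero (mem_univ i)
    rw [if_neg]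
    intro h2
    exact h2 p hp hi

/-- the twisted sum over a sieved sequence -/
lemma tw {k : ℕ} (a : Fin k → ℕ) (N z r : ℕ) (θ B : ℝ)
    (hB : ∀ d : ℕ, 1 ≤ d → d ≤ (z + 1) ^ r → ∀ c : ℕ,
      ‖∑ n ∈ Icc 1 N, ((ArithmeticFunction.vonMangoldt n : ℝ) : ℂ) * ee ((n : ℝ) * (θ + (c : ℝ) / d))‖ ≤ B) :
    ‖∑ n ∈ Icc 1 N, ((ArithmeticFunction.vonMangoldt n * ∏ i, lamzI z ((n : ℤ) + (a i : ℤ)) : ℝ) : ℂ) * ee ((n : ℝ) * θ)‖ ≤
      ((Vz z)⁻¹) ^ k * ((((z : ℝ) + 1) ^ r) ^ 2 * B +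
        Real.log N * (N * Real.exp (3 * (k * (1 + Real.log z)) - r) + (k : ℝ) ^ r * ((z : ℝ) + 1) ^ r)) := by
  classical
  have hV0 : 0 ≤ ((Vz z)⁻¹) ^ k := pow_nonneg (inv_pos.2 (Vz_pos z)).le _
  have hB0 : 0 ≤ B := (norm_nonneg _).trans (hB 1 le_rfl (Nat.one_le_pow _ _ (by omega)) 0)
  obtain ⟨ind, hind⟩ : ∃ ind : ℕ → ℝ, ind = fun n => if ∀ p ∈ pz z, ¬ Cd a p n then (1 : ℝ) else 0 := ⟨_, rfl⟩
  obtain ⟨χ, hχ⟩ : ∃ χ : Finset ℕ → ℕ → ℝ, χ = fun S n => if ∀ p ∈ S, Cd a p n then (1 : ℝ) else 0 := ⟨_, rfl⟩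
  obtain ⟨G, hG⟩ : ∃ G : ℕ → ℂ, G = fun n => ((ArithmeticFunction.vonMangoldt n : ℝ) : ℂ) * ee ((n : ℝ) * θ) := ⟨_, rfl⟩
  have hpt : ∀ n : ℕ, |ind n - ∑ j ∈ range r, (-1 : ℝ) ^ j * ∑ S ∈ (pz z).powersetCard j, χ S n| ≤
      ∑ S ∈ (pz z).powersetCard r, χ S n := by
    intro n
    have := bonf_ind (fun p n => Cd a p n) (pz z) r n
    rw [hind, hχ]
    convert this
  have hprime : ∀ j, ∀ S ∈ (pz z).powersetCard j, ∀ p ∈ S, p.Prime := fun j S hS p hp =>
    (mem_pz.1 ((mem_powersetCard.1 hS).1 hp)).2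
  have hpos : ∀ j, ∀ S ∈ (pz z).powersetCard j, 1 ≤ ∏ p ∈ S, p := fun j S hS =>
    Nat.pos_of_ne_zero (prod_ne_zero_iff.2 fun p hp => (hprime j S hS p hp).ne_zero)
  have hcard : (∑ j ∈ range (r + 1), (((pz z).powersetCard j).card : ℝ)) ≤ ((z : ℝ) + 1) ^ r := by
    have h7 := card_small (pz z) r
    push_cast at h7
    have h8 : (((pz z).card : ℝ) + 1) ^ r ≤ ((z : ℝ) + 1) ^ r := by
      have : ((pz z).card : ℝ) ≤ z := by exact_mod_cast card_pz_le z
      gcongr
    exact h7.trans h8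
  have hcard' : (∑ j ∈ range r, (((pz z).powersetCard j).card : ℝ)) ≤ ((z : ℝ) + 1) ^ r := by
    rw [sum_range_succ] at hcard
    have : (0 : ℝ) ≤ (((pz z).powersetCard r).card : ℝ) := Nat.cast_nonneg _
    linarith
  have hcardr : (((pz z).powersetCard r).card : ℝ) ≤ ((z : ℝ) + 1) ^ r := by
    rw [sum_range_succ] at hcard
    have : (0 : ℝ) ≤ ∑ j ∈ range r, (((pz z).powersetCard j).card : ℝ) := sum_nonneg fun _ _ => Nat.cast_nonneg _
    linarith
  have hlogN : 0 ≤ Real.log N := Real.log_natCast_nonneg N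
  have hGn : ∀ n ∈ Icc 1 N, ‖G n‖ ≤ Real.log N := by
    intro n hn
    rw [mem_Icc] at hn
    rw [hG]
    simp only
    rw [norm_mul, norm_ee, mul_one, Complex.norm_real, Real.norm_of_nonneg ArithmeticFunction.vonMangoldt_nonneg]
    exact ArithmeticFunction.vonMangoldt_le_log.trans (Real.log_le_log (by exact_mod_cast hn.1) (by exact_mod_cast hn.2))
  -- the main part
  have hmain : ‖∑ n ∈ Icc 1 N, (((∑ j ∈ range r, (-1 : ℝ) ^ j * ∑ S ∈ (pz z).powersetCard j, χ S n : ℝ)) : ℂ) * G n‖ ≤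
      (((z : ℝ) + 1) ^ r) ^ 2 * B := by
    have h4 : ∑ n ∈ Icc 1 N, (((∑ j ∈ range r, (-1 : ℝ) ^ j * ∑ S ∈ (pz z).powersetCard j, χ S n : ℝ)) : ℂ) * G n =
        ∑ j ∈ range r, (-1 : ℂ) ^ j * ∑ S ∈ (pz z).powersetCard j, ∑ n ∈ Icc 1 N, ((χ S n : ℝ) : ℂ) * G n := by
      push_cast
      simp only [sum_mul, mul_sum]
      rw [sum_comm]
      apply sum_congr rfl
      intro j _
      rw [sum_comm]
      apply sum_congr rfl
      intro S _
      apply sum_congr rfl
      intro n _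
      ring
    rw [h4]
    refine (norm_sum_le _ _).trans ?_
    have h5 : ∀ j ∈ range r, ‖(-1 : ℂ) ^ j * ∑ S ∈ (pz z).powersetCard j, ∑ n ∈ Icc 1 N, ((χ S n : ℝ) : ℂ) * G n‖ ≤
        (((pz z).powersetCard j).card : ℝ) * (((z : ℝ) + 1) ^ r * B) := by
      intro j hj
      rw [mem_range] at hj
      rw [norm_mul, norm_pow, norm_neg, norm_one, one_pow, one_mul]
      refine (norm_sum_le _ _).trans ?_
      refine (sum_le_sum (g := fun _ => ((z : ℝ) + 1) ^ r * B) fun S hS => ?_).trans ?_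
      · have hSc : S ⊆ pz z ∧ S.card = j := mem_powersetCard.1 hS
        have hdD : ∏ p ∈ S, p ≤ (z + 1) ^ r := prod_le_pow S z r hSc.1 (by omega)
        have hd1 := hpos j S hS
        have h6 : ∑ n ∈ Icc 1 N, ((χ S n : ℝ) : ℂ) * G n = ∑ n ∈ (Icc 1 N).filter (fun n => ∀ p ∈ S, Cd a p n), G n := by
          rw [sum_filter]
          apply sum_congr rfl
          intro n _
          rw [hχ]
          simp only
          split_ifs <;> simp
        rw [h6]
        have h7 := per (∏ p ∈ S, p) hd1 (fun n => ∀ p ∈ S, Cd a p n) (fun n => by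
          apply forall₂_congr
          intro p hp
          exact Cd_mod a p _ n (dvd_prod_of_mem _ hp)) G N B (fun c => by
            have h8 := hB (∏ p ∈ S, p) hd1 hdD c
            refine le_trans (le_of_eq ?_) h8
            congr 1
            apply sum_congr rfl
            intro n _
            rw [hG]
            simp only
            rw [mul_add, ee_add]
            ring)
        refine h7.trans ?_
        apply mul_le_mul_of_nonneg_right _ hB0
        exact_mod_cast hdD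
      · rw [sum_const, nsmul_eq_mul]
    refine (sum_le_sum h5).trans ?_
    rw [← sum_mul]
    calc (∑ j ∈ range r, (((pz z).powersetCard j).card : ℝ)) * (((z : ℝ) + 1) ^ r * B) ≤
          ((z : ℝ) + 1) ^ r * (((z : ℝ) + 1) ^ r * B) := mul_le_mul_of_nonneg_right hcard' (by positivity)
      _ = _ := by ring
  -- the error
  have herr : ∑ n ∈ Icc 1 N, ∑ S ∈ (pz z).powersetCard r, χ S n ≤
      N * Real.exp (3 * (k * (1 + Real.log z)) - r) + (k : ℝ) ^ r * ((z : ℝ) + 1) ^ r := by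
    rw [sum_comm]
    have h4 : ∀ S ∈ (pz z).powersetCard r, ∑ n ∈ Icc 1 N, χ S n ≤ N * ∏ p ∈ S, ((k : ℝ) / (p : ℝ)) + (k : ℝ) ^ r := by
      intro S hS
      have hSc : S.card = r := (mem_powersetCard.1 hS).2
      have h5 : ∑ n ∈ Icc 1 N, χ S n = (((Icc 1 N).filter (fun n => ∀ p ∈ S, Cd a p n)).card : ℝ) := by
        rw [card_eq_sum_ones]
        push_cast
        rw [sum_filter, hχ]
      rw [h5]
      refine (Cd_count a S (hprime r S hS) N).trans (le_of_eq ?_)
      rw [prod_div_distrib, prod_const, hSc]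
      push_cast
      ring
    refine (sum_le_sum h4).trans ?_
    rw [sum_add_distrib, ← mul_sum, sum_const, nsmul_eq_mul]
    apply add_le_add
    · apply mul_le_mul_of_nonneg_left _ (Nat.cast_nonneg _)
      have h5 := es_le (x := fun p => (k : ℝ) / (p : ℝ)) (T := pz z) (fun p _ => by positivity) r
      unfold es at h5
      refine h5.trans ?_
      apply Real.exp_le_exp.2
      have h6 := sum_pz_le z
      have h7 : ∑ p ∈ pz z, (k : ℝ) / (p : ℝ) = k * ∑ p ∈ pz z, 1 / (p : ℝ) := by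
        rw [mul_sum]
        apply sum_congr rfl
        intro p _
        ring
      rw [h7]
      have h8 : (k : ℝ) * ∑ p ∈ pz z, 1 / (p : ℝ) ≤ k * (1 + Real.log z) := mul_le_mul_of_nonneg_left h6 (Nat.cast_nonneg _)
      linarith
    · rw [mul_comm]
      exact mul_le_mul_of_nonneg_left hcardr (by positivity)
  have hχ0 : ∀ n, 0 ≤ ∑ S ∈ (pz z).powersetCard r, χ S n := by
    intro n
    apply sum_nonneg
    intro S _
    rw [hχ]
    simp only
    split_ifs
    · exact zero_le_one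
    · exact le_rfl
  have htot : ‖∑ n ∈ Icc 1 N, ((ind n : ℝ) : ℂ) * G n‖ ≤ (((z : ℝ) + 1) ^ r) ^ 2 * B +
        Real.log N * (N * Real.exp (3 * (k * (1 + Real.log z)) - r) + (k : ℝ) ^ r * ((z : ℝ) + 1) ^ r) := by
    have h4 : ∑ n ∈ Icc 1 N, ((ind n : ℝ) : ℂ) * G n =
        ∑ n ∈ Icc 1 N, (((∑ j ∈ range r, (-1 : ℝ) ^ j * ∑ S ∈ (pz z).powersetCard j, χ S n : ℝ)) : ℂ) * G n +
        ∑ n ∈ Icc 1 N, ((ind n - ∑ j ∈ range r, (-1 : ℝ) ^ j * ∑ S ∈ (pz z).powersetCard j, χ S n : ℝ) : ℂ) * G n := by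
      rw [← sum_add_distrib]
      apply sum_congr rfl
      intro n _
      push_cast
      ring
    rw [h4]
    refine (norm_add_le _ _).trans (add_le_add hmain ?_)
    refine le_trans ?_ (mul_le_mul_of_nonneg_left herr hlogN)
    rw [mul_sum]
    refine (norm_sum_le _ _).trans (sum_le_sum fun n hn => ?_)
    rw [norm_mul, Complex.norm_real, Real.norm_eq_abs, mul_comm]
    exact mul_le_mul (hGn n hn) (hpt n) (abs_nonneg _) hlogN
  have hS : ∑ n ∈ Icc 1 N, ((ArithmeticFunction.vonMangoldt n * ∏ i, lamzI z ((n : ℤ) + (a i : ℤ)) : ℝ) : ℂ) * ee ((n : ℝ) * θ) =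
      ((((Vz z)⁻¹) ^ k : ℝ) : ℂ) * ∑ n ∈ Icc 1 N, ((ind n : ℝ) : ℂ) * G n := by
    rw [mul_sum]
    apply sum_congr rfl
    intro n hn
    rw [mem_Icc] at hn
    rw [lamz_prod a z n hn.1, hind, hG]
    simp only
    push_cast
    ring
  rw [hS, norm_mul, Complex.norm_real, Real.norm_of_nonneg hV0]
  exact mul_le_mul_of_nonneg_left htot hV0

end Pool.Agent.Run7.h609.BT
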