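import Mathlib
import Pool.Agent.Run7.h609.BT.A

/-!
# Prime tuples with an additive twist, part 2 (helper609)
-/

set_option autoImplicit false
set_option maxHeartbeats 4000000

namespace Pool.Agent.Run7.h609.BT

open Finset
open Pool.Agent.H807R2.Dav (ee norm_ee ee_add ee_int ee_pow)
open Pool.Agent.H373R2.T7
open Pool.Agent.Y883.T3 (vin_pow ev_log_rpow)

/-- `θ` is badly approximable on the scale `N ^ η` -/
def Bad (η : ℝ) (N : ℕ) (θ : ℝ) : Prop :=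
  ∀ d : ℕ, 1 ≤ d → (d : ℝ) ≤ (N : ℝ) ^ η → ∀ m : ℤ, (N : ℝ) ^ (η - 1) ≤ |(d : ℝ) * θ - m|

/-- the exponential sum over the primes at a rational translate of a badly approximable number -/
lemma vin_bad (η : ℝ) (hη : 0 < η) (hη1 : η ≤ 1) : ∃ N0 : ℕ, ∀ N : ℕ, N0 ≤ N → ∀ θ : ℝ, Bad η N θ → ∀ d : ℕ, 1 ≤ d →
    (d : ℝ) ≤ (N : ℝ) ^ (η / 8) → ∀ c : ℤ,
    ‖∑ n ∈ Icc 1 N, ((ArithmeticFunction.vonMangoldt n : ℝ) : ℂ) * ee ((n : ℝ) * (θ + (c : ℝ) / d))‖ ≤ N / (N : ℝ) ^ (η / 8) := by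
  obtain ⟨n1, h1⟩ := vin_pow
  obtain ⟨n2, h2⟩ := ev_log_rpow 16 1 (η / 4) (by positivity)
  refine ⟨n1 + n2 + 2, fun N hN θ hθ d hd hdN c => ?_⟩
  have hNn : 2 ≤ N := by omega
  have hN2 : (2 : ℝ) ≤ N := by exact_mod_cast hNn
  have hN0 : (0 : ℝ) < N := by linarith
  have hN1 : (1 : ℝ) < N := by linarith
  have a2 := h2 N (by omega)
  rw [one_mul] at a2
  have hd0 : (0 : ℝ) < d := by exact_mod_cast hd
  obtain ⟨K, hK⟩ : ∃ K, K = (N : ℝ) ^ (η / 8) := ⟨_, rfl⟩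
  have hK1 : 1 ≤ K := by rw [hK]; exact Real.one_le_rpow hN1.le (by positivity)
  have hK0 : 0 < K := by linarith
  -- Dirichlet
  obtain ⟨Q, hQ⟩ : ∃ Q, Q = ⌊(N : ℝ) ^ (1 - η / 2)⌋₊ := ⟨_, rfl⟩
  have hQ1 : 1 ≤ (N : ℝ) ^ (1 - η / 2) := Real.one_le_rpow hN1.le (by linarith)
  have hQn : 1 ≤ Q := by rw [hQ]; exact (Nat.one_le_floor_iff _).2 hQ1
  have hQu : (Q : ℝ) ≤ (N : ℝ) ^ (1 - η / 2) := by rw [hQ]; exact Nat.floor_le (by positivity)
  have hQl : (N : ℝ) ^ (1 - η / 2) ≤ (Q : ℝ) + 1 := by rw [hQ]; exact (Nat.lt_floor_add_one _).le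
  obtain ⟨ρ, hρ1, hρ2⟩ := Real.exists_rat_abs_sub_le_and_den_le (θ + (c : ℝ) / d) (n := Q) (by omega)
  obtain ⟨q, hq⟩ : ∃ q : ℕ, q = ρ.den := ⟨_, rfl⟩
  obtain ⟨b, hb⟩ : ∃ b : ℤ, b = ρ.num := ⟨_, rfl⟩
  have hqn : 1 ≤ q := by rw [hq]; exact ρ.pos
  have hq0 : (0 : ℝ) < q := by exact_mod_cast hqn
  have hρ : (ρ : ℝ) = (b : ℝ) / q := by rw [hq, hb]; exact Rat.cast_def ρ
  have hcop : IsCoprime b (q : ℤ) := by
    rw [hq, hb, Int.isCoprime_iff_gcd_eq_one]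
    exact ρ.reduced
  rw [← hq] at hρ1 hρ2
  rw [hρ] at hρ1
  have hqQ : (q : ℝ) ≤ Q := by exact_mod_cast hρ2
  have hQ0 : (0 : ℝ) < (Q : ℝ) + 1 := by positivity
  have happ : |θ + (c : ℝ) / d - b / q| ≤ 1 / (q : ℝ) ^ 2 := by
    refine hρ1.trans ?_
    apply one_div_le_one_div_of_le (by positivity)
    rw [pow_two]
    apply mul_le_mul_of_nonneg_right _ hq0.le
    linarith
  -- the denominator is large
  have hqbig : (N : ℝ) ^ (η / 2) ≤ q := by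
    by_contra hcon
    push Not at hcon
    have e1 : ((d * q : ℕ) : ℝ) ≤ (N : ℝ) ^ η := by
      push_cast
      calc (d : ℝ) * q ≤ (N : ℝ) ^ (η / 8) * (N : ℝ) ^ (η / 2) := mul_le_mul hdN hcon.le hq0.le (by positivity)
        _ = (N : ℝ) ^ (η / 8 + η / 2) := by rw [← Real.rpow_add hN0]
        _ ≤ (N : ℝ) ^ η := Real.rpow_le_rpow_of_exponent_le hN1.le (by linarith)
    have e2 := hθ (d * q) (Nat.mul_pos hd hqn) e1 (d * b - c * q)
    have e3 : ((d * q : ℕ) : ℝ) * θ - ((d * b - c * q : ℤ) : ℝ) = (d * q) * (θ + (c : ℝ) / d - b / q) := by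
      push_cast
      field_simp
      ring
    rw [e3, abs_mul, abs_of_pos (by positivity)] at e2
    have e4 : (d : ℝ) * q * |θ + (c : ℝ) / d - b / q| ≤ (N : ℝ) ^ (η / 8) * (1 / (N : ℝ) ^ (1 - η / 2)) := by
      calc (d : ℝ) * q * |θ + (c : ℝ) / d - b / q| ≤ (d : ℝ) * q * (1 / (((Q : ℝ) + 1) * q)) :=
            mul_le_mul_of_nonneg_left hρ1 (by positivity)
        _ = d * (1 / ((Q : ℝ) + 1)) := by field_simp
        _ ≤ (N : ℝ) ^ (η / 8) * (1 / (N : ℝ) ^ (1 - η / 2)) := by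
            apply mul_le_mul hdN _ (by positivity) (by positivity)
            exact one_div_le_one_div_of_le (by positivity) hQl
    have e5 : (N : ℝ) ^ (η / 8) * (1 / (N : ℝ) ^ (1 - η / 2)) = (N : ℝ) ^ (η / 8 - (1 - η / 2)) := by
      rw [mul_one_div, ← Real.rpow_sub hN0]
    rw [e5] at e4
    have e6 : (N : ℝ) ^ (η / 8 - (1 - η / 2)) < (N : ℝ) ^ (η - 1) := Real.rpow_lt_rpow_of_exponent_lt hN1 (by linarith)
    linarith
  -- Vinogradov
  have hKK : K ^ 2 = (N : ℝ) ^ (η / 4) := by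
    rw [hK, ← Real.rpow_natCast, ← Real.rpow_mul hN0.le]
    congr 1
    push_cast
    ring
  have hKL : K ^ 2 * Real.log N ^ 16 ≤ (N : ℝ) ^ (η / 2) := by
    rw [hKK]
    calc (N : ℝ) ^ (η / 4) * Real.log N ^ 16 ≤ (N : ℝ) ^ (η / 4) * (N : ℝ) ^ (η / 4) := mul_le_mul_of_nonneg_left a2 (by positivity)
      _ = (N : ℝ) ^ (η / 2) := by
          rw [← Real.rpow_add hN0]
          congr 1
          ring
  have hlog0 : 0 < Real.log N := Real.log_pos hN1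
  have hfin := h1 N (by omega) K hK1 (by
    rw [hK]
    exact Real.rpow_le_rpow_of_exponent_le hN1.le (by linarith)) q (hKL.trans hqbig) (by
    rw [le_div_iff₀ (by positivity)]
    calc (q : ℝ) * (K ^ 2 * Real.log N ^ 16) ≤ (N : ℝ) ^ (1 - η / 2) * (N : ℝ) ^ (η / 2) :=
          mul_le_mul (hqQ.trans hQu) hKL (by positivity) (by positivity)
      _ = N := by
          rw [← Real.rpow_add hN0]
          have : 1 - η / 2 + η / 2 = 1 := by ring
          rw [this, Real.rpow_one]) b hcop (θ + (c : ℝ) / d) happ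
  rw [hK] at hfin
  exact hfin

/-- **the twisted model**: the sum of `Λ(n) e(θ n) ∏ λ_z(n + a_i)` is small for badly approximable `θ` -/
theorem twist (k E U : ℕ) (η : ℝ) (hη : 0 < η) (hη1 : η ≤ 1) : ∃ N0 : ℕ, ∀ N : ℕ, N0 ≤ N → ∀ z : ℕ, 1 ≤ z →
    (z : ℝ) ≤ Real.log N ^ E → ∀ a : Fin k → ℕ, ∀ θ : ℝ, Bad η N θ →
    ‖∑ n ∈ Icc 1 N, ((ArithmeticFunction.vonMangoldt n * ∏ i, lamzI z ((n : ℤ) + (a i : ℤ)) : ℝ) : ℂ) * ee ((n : ℝ) * θ)‖ ≤
      N / Real.log N ^ U := by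
  obtain ⟨M, hM⟩ : ∃ M : ℕ, M = ⌈64 / η⌉₊ := ⟨_, rfl⟩
  have hM1 : 64 / η ≤ M := by rw [hM]; exact Nat.le_ceil _
  have hM0 : (0 : ℝ) < M := lt_of_lt_of_le (by positivity) hM1
  obtain ⟨n0, h0⟩ := choice k E (U + k + 3) M
  obtain ⟨n1, h1⟩ := vin_bad η hη hη1
  obtain ⟨n2, h2⟩ := ev_L' 10
  obtain ⟨n3, h3⟩ := Vz_inv_small E
  obtain ⟨C, hC⟩ : ∃ C, C = (3 * (k * (1 + E)) + (U + k + 3) + 1) * k := ⟨_, rfl⟩
  obtain ⟨n4, h4⟩ := ev_log_rpow (U + k + C + 3) 1 (η / 32) (by positivity)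
  refine ⟨n0 + n1 + n2 + n3 + n4 + 2, fun N hN z hz hzE a θ hθ => ?_⟩
  have hNn : 2 ≤ N := by omega
  have hN2 : (2 : ℝ) ≤ N := by exact_mod_cast hNn
  have hN0 : (0 : ℝ) < N := by linarith
  have hN1 : (1 : ℝ) < N := by linarith
  obtain ⟨r, hr1, hr2, hr3⟩ := h0 N (by omega) z hzE
  have hL := h2 N (by omega)
  have hV := h3 N (by omega) z hz hzE
  have a4 := h4 N (by omega)
  rw [one_mul] at a4
  obtain ⟨L, hLd⟩ : ∃ L, L = Real.log (N : ℝ) := ⟨_, rfl⟩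
  rw [← hLd] at hL hV a4 hr1 hr3 ⊢
  have hL0 : 0 < L := by linarith
  have hL1 : 1 ≤ L := by linarith
  obtain ⟨D, hD⟩ : ∃ D : ℝ, D = ((z : ℝ) + 1) ^ r := ⟨_, rfl⟩
  have hD1 : 1 ≤ D := by
    rw [hD]
    apply one_le_pow₀
    have : (0 : ℝ) ≤ z := Nat.cast_nonneg _
    linarith
  have hD0 : 0 < D := by linarith
  rw [← hD] at hr2
  obtain ⟨T, hT⟩ : ∃ T : ℝ, T = (N : ℝ) ^ (η / 32) := ⟨_, rfl⟩
  rw [← hT] at a4
  have hT1 : 1 ≤ T := by rw [hT]; exact Real.one_le_rpow hN1.le (by positivity)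
  have hT0 : 0 < T := by linarith
  have hDT : D ≤ (N : ℝ) ^ (η / 64) := by
    have e1 : D ≤ (N : ℝ) ^ (1 / (M : ℝ)) := by
      have e2 : D = (D ^ M) ^ (1 / (M : ℝ)) := by
        rw [← Real.rpow_natCast, ← Real.rpow_mul hD0.le, mul_one_div_cancel hM0.ne', Real.rpow_one]
      rw [e2]
      exact Real.rpow_le_rpow (by positivity) hr2 (by positivity)
    refine e1.trans (Real.rpow_le_rpow_of_exponent_le hN1.le ?_)
    rw [div_le_div_iff₀ hM0 (by norm_num)]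
    rw [div_le_iff₀ hη] at hM1
    linarith
  have hDT2 : D ^ 2 ≤ T := by
    calc D ^ 2 ≤ ((N : ℝ) ^ (η / 64)) ^ 2 := pow_le_pow_left₀ hD0.le hDT 2
      _ = T := by
          rw [hT, ← Real.rpow_natCast, ← Real.rpow_mul hN0.le]
          congr 1
          push_cast
          ring
  have hDT1 : D ≤ T := by nlinarith only [hDT2, hD1]
  have hT4 : (N : ℝ) ^ (η / 8) = T ^ 4 := by
    rw [hT, ← Real.rpow_natCast, ← Real.rpow_mul hN0.le]
    congr 1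
    push_cast
    ring
  have hTN : T ^ 4 ≤ N := by
    rw [← hT4]
    calc (N : ℝ) ^ (η / 8) ≤ (N : ℝ) ^ (1 : ℝ) := Real.rpow_le_rpow_of_exponent_le hN1.le (by linarith)
      _ = N := Real.rpow_one _
  have key := tw a N z r θ ((N : ℝ) / (N : ℝ) ^ (η / 8)) (fun d hd hdD c => by
    apply h1 N (by omega) θ hθ d hd
    · have e1 : (d : ℝ) ≤ D := by
        rw [hD]
        exact_mod_cast hdD
      refine (e1.trans hDT1).trans ?_
      rw [hT4]
      exact le_self_pow₀ hT1 (by norm_num))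
  rw [← hD, hT4, ← hLd] at key
  refine key.trans ?_
  have hVk : ((Vz z)⁻¹) ^ k ≤ L ^ k := pow_le_pow_left₀ (inv_pos.2 (Vz_pos z)).le hV k
  have hkr : (k : ℝ) ^ r ≤ L ^ C := by
    rw [hC]
    exact hr3 k
  have b1 : D ^ 2 * (N / T ^ 4) ≤ N / T := by
    rw [mul_div_assoc', div_le_div_iff₀ (by positivity) hT0]
    calc D ^ 2 * N * T ≤ T * N * T := by gcongr
      _ = N * T ^ 2 := by ring
      _ ≤ N * T ^ 4 := mul_le_mul_of_nonneg_left (pow_le_pow_right₀ hT1 (by norm_num)) hN0.le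
  have b2 : (k : ℝ) ^ r * D ≤ L ^ C * (N / T) := by
    apply mul_le_mul hkr _ hD0.le (by positivity)
    rw [le_div_iff₀ hT0]
    calc D * T ≤ T * T := mul_le_mul_of_nonneg_right hDT1 hT0.le
      _ = T ^ 2 := by ring
      _ ≤ T ^ 4 := pow_le_pow_right₀ hT1 (by norm_num)
      _ ≤ N := hTN
  have b3 : (N : ℝ) * Real.exp (3 * (k * (1 + Real.log z)) - r) ≤ N * (1 / L ^ (U + k + 3)) :=
    mul_le_mul_of_nonneg_left hr1 hN0.le
  have b4 : (N : ℝ) / T ≤ N / L ^ (U + k + C + 3) := div_le_div_of_nonneg_left hN0.le (by positivity) a4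
  have hX : 0 ≤ D ^ 2 * ((N : ℝ) / T ^ 4) + L * (N * Real.exp (3 * (k * (1 + Real.log z)) - r) + (k : ℝ) ^ r * D) := by positivity
  calc ((Vz z)⁻¹) ^ k * (D ^ 2 * ((N : ℝ) / T ^ 4) + L * (N * Real.exp (3 * (k * (1 + Real.log z)) - r) + (k : ℝ) ^ r * D)) ≤
        L ^ k * (N / L ^ (U + k + C + 3) + L * (N * (1 / L ^ (U + k + 3)) + L ^ C * (N / L ^ (U + k + C + 3)))) := by
        apply mul_le_mul hVk _ hX (by positivity)
        apply add_le_add (b1.trans b4)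
        apply mul_le_mul_of_nonneg_left _ hL0.le
        apply add_le_add b3
        exact b2.trans (mul_le_mul_of_nonneg_left b4 (by positivity))
    _ = (1 / L ^ (C + 3) + 2 / L ^ 2) * (N / L ^ U) := by
        rw [show U + k + C + 3 = U + k + (C + 3) by ring, pow_add L (U + k), pow_add L (U + k) 3, pow_add L U k, pow_add L C 3]
        field_simp
        ring
    _ ≤ 1 * (N / L ^ U) := by
        apply mul_le_mul_of_nonneg_right _ (by positivity)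
        have c1 : 1 / L ^ (C + 3) ≤ 1 / L := by
          apply one_div_le_one_div_of_le hL0
          exact le_self_pow₀ hL1 (by omega)
        have c2 : 1 / L ≤ 1 / 10 := one_div_le_one_div_of_le (by norm_num) hL
        have c3 : 2 / L ^ 2 ≤ 2 / 10 := by
          apply div_le_div_of_nonneg_left (by norm_num) (by norm_num)
          nlinarith only [hL]
        linarith
    _ = _ := one_mul _

end Pool.Agent.Run7.h609.BT
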