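import Mathlib
import Pool.Agent.Run7.h609.BT.B

/-!
# Prime tuples with an additive twist, part 3 (helper609): from the von Mangoldt function to primes; telescoping
-/

set_option autoImplicit false
set_option maxHeartbeats 4000000

namespace Pool.Agent.Run7.h609.BT

open Finset
open Pool.Agent.H807R2.Dav (ee norm_ee ee_add ee_int ee_pow)
open Pool.Agent.H373R2.T7
open Pool.Agent.H560R3.GB (primeTuples tuple_transfer tupleCount_nat)
open Pool.Agent.W93.TD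

/-- the primes `n ≤ N` such that all `n + a i` are primes -/
def TT {k : ℕ} (a : Fin k → ℕ) (N : ℕ) : Finset ℕ := (Icc 1 N).filter (fun p : ℕ => p.Prime ∧ ∀ i, (p + a i).Prime)

lemma TT_card {k : ℕ} (a : Fin k → ℕ) (N : ℕ) : (TT a N).card = primeTuples a N := rfl

/-- from the von Mangoldt function to primes, with a twist -/
lemma exp_tuples (k A : ℕ) (c δ : ℝ) (hc : 0 < c) (hδ : 0 < δ) (hδ1 : δ ≤ 1) : ∃ n0 : ℕ, ∀ N : ℕ, n0 ≤ N →
    ∀ a : Fin k → ℕ, (∀ i, a i ≤ A * N) → ∀ S : ℝ, c ≤ S →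
    |tupleCount (fun i => (a i : ℤ)) N - S * N| ≤ N / Real.log N → ∀ θ : ℝ,
    ‖∑ n ∈ Icc 1 N, ((ArithmeticFunction.vonMangoldt n * ∏ i, lamI ((n : ℤ) + (a i : ℤ)) : ℝ) : ℂ) * ee ((n : ℝ) * θ)‖ ≤
      N / Real.log N →
    ‖∑ n ∈ TT a N, ee ((n : ℝ) * θ)‖ ≤ δ * (S * (N / Real.log N ^ (k + 1))) := by
  obtain ⟨n1, h1⟩ := tuple_transfer k A c (δ / 8) hc (by positivity)
  obtain ⟨n2, h2⟩ := ev_log' (k + 3) (((k : ℝ) + 1) * 2 ^ (k + 1) * (4 * ((A : ℝ) + 1)))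
  obtain ⟨n3, h3⟩ := ev_L' (2 + 8 / (c * δ) + (Real.log ((A : ℝ) + 1) + 1) * (8 * (k + 1) / δ))
  refine ⟨n1 + n2 + n3 + 3, fun N hN a ha S hS hT θ hθ => ?_⟩
  have a1 := h1 N (by omega) a ha S hS hT
  have a2 := h2 N (by omega)
  have hL := h3 N (by omega)
  have hN1 : 1 ≤ N := by omega
  have hNr : (3 : ℝ) ≤ N := by exact_mod_cast (by omega : 3 ≤ N)
  have hN0 : (0 : ℝ) < N := by linarith
  obtain ⟨L, hLd⟩ : ∃ L, L = Real.log (N : ℝ) := ⟨_, rfl⟩
  rw [← hLd] at a1 a2 hL hT hθ ⊢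
  have hA0 : (0 : ℝ) ≤ A := Nat.cast_nonneg _
  have hA1 : (1 : ℝ) ≤ (A : ℝ) + 1 := by linarith
  have hlA : 0 ≤ Real.log ((A : ℝ) + 1) := Real.log_nonneg hA1
  have q1 : 0 < 8 / (c * δ) := by positivity
  have q2 : 8 ≤ 8 * ((k : ℝ) + 1) / δ := by
    rw [le_div_iff₀ hδ]
    have : (0 : ℝ) ≤ k := Nat.cast_nonneg _
    linarith
  have q3 : 0 ≤ (Real.log ((A : ℝ) + 1) + 1) * (8 * (k + 1) / δ) := by positivity
  have q5 : (Real.log ((A : ℝ) + 1) + 1) * (8 * (k + 1) / δ) = Real.log ((A : ℝ) + 1) * (8 * (k + 1) / δ) + 8 * (k + 1) / δ := by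
    ring
  have q6 : Real.log ((A : ℝ) + 1) * 8 ≤ Real.log ((A : ℝ) + 1) * (8 * (k + 1) / δ) := mul_le_mul_of_nonneg_left q2 hlA
  have q4 : Real.log ((A : ℝ) + 1) ≤ (Real.log ((A : ℝ) + 1) + 1) * (8 * (k + 1) / δ) := by linarith
  have hL2 : 2 ≤ L := by linarith
  have hL1 : 1 ≤ L := by linarith
  have hL0 : 0 < L := by linarith
  have hLA : Real.log ((A : ℝ) + 1) ≤ L := by linarith
  have hLc : 8 / (c * δ) ≤ L := by linarith
  have hLk : Real.log ((A : ℝ) + 1) * (8 * (k + 1) / δ) ≤ L := by linarith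
  -- the larger logarithm
  obtain ⟨X, hX⟩ : ∃ X : ℕ, X = (A + 1) * N := ⟨_, rfl⟩
  have hXr : (X : ℝ) = ((A : ℝ) + 1) * N := by rw [hX]; push_cast; ring
  obtain ⟨Lm, hLm⟩ : ∃ Lm, Lm = Real.log (X : ℝ) := ⟨_, rfl⟩
  have hLmL : Lm = Real.log ((A : ℝ) + 1) + L := by
    rw [hLm, hXr, Real.log_mul (by linarith) hN0.ne', hLd]
  have hLm0 : 0 < Lm := by linarith
  have hLm1 : 1 ≤ Lm := by linarith
  have hLm2 : Lm ≤ 2 * L := by linarith
  have hLLm : L ≤ Lm := by linarith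
  have hNX : N ≤ X := by rw [hX]; exact Nat.le_mul_of_pos_left _ (by omega)
  have hsh : ∀ i, ∀ n ∈ Icc 1 N, (n : ℤ) + (a i : ℤ) ≤ X := by
    intro i n hn
    rw [mem_Icc] at hn
    have h6 := ha i
    have h7 : n + a i ≤ X := by
      rw [hX, add_mul, one_mul]
      omega
    exact_mod_cast h7
  have e1 := toPrimes (fun i => (a i : ℤ)) N X hN1 hNX hsh Lm hLm1 hLm.symm.le
  rw [← hLm] at e1
  -- the weights
  obtain ⟨w, hw⟩ : ∃ w : ℕ → ℝ, w = fun n : ℕ => ArithmeticFunction.vonMangoldt n * ∏ i, lamI ((n : ℤ) + (a i : ℤ)) := ⟨_, rfl⟩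
  obtain ⟨t, ht⟩ : ∃ t : ℕ → ℝ, t = fun n : ℕ => lamP (n : ℤ) * ∏ i, lamP ((n : ℤ) + (a i : ℤ)) := ⟨_, rfl⟩
  obtain ⟨ind, hind⟩ : ∃ ind : ℕ → ℝ, ind = fun n : ℕ => if (n.Prime ∧ ∀ i, (n + a i).Prime) then (1 : ℝ) else 0 := ⟨_, rfl⟩
  have htc : tupleCount (fun i => (a i : ℤ)) N = ∑ n ∈ Icc 1 N, t n := by rw [tupleCount_eq, ht]
  have htw : ∀ n ∈ Icc 1 N, t n ≤ w n := by
    intro n hn
    rw [mem_Icc] at hn
    rw [ht, hw]
    simp only
    have h5 : ArithmeticFunction.vonMangoldt n = lamI (n : ℤ) := by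
      unfold lamI
      rw [if_pos (by exact_mod_cast hn.1), Int.toNat_natCast]
    rw [h5]
    exact mul_le_mul (lamP_le _) (prod_le_prod (fun _ _ => lamP_nonneg _) (fun _ _ => lamP_le _))
      (prod_nonneg fun _ _ => lamP_nonneg _) (lamI_nonneg _)
  have htind : ∀ n ∈ Icc 1 N, 0 ≤ ind n - t n / Lm ^ (k + 1) := by
    intro n hn
    have hn' := mem_Icc.1 hn
    rw [sub_nonneg, div_le_iff₀ (by positivity), hind, ht]
    simp only
    by_cases h5 : n.Prime ∧ ∀ i, (n + a i).Prime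
    · rw [if_pos h5, one_mul, pow_succ']
      have h6 : ∀ m : ℤ, m ≤ X → lamP m ≤ Lm := by
        intro m hm
        refine (lamP_le m).trans ?_
        rw [hLm]
        exact lamI_le _ X (by exact_mod_cast hN1.trans hNX) (by exact_mod_cast hm)
      apply mul_le_mul (h6 _ (by exact_mod_cast hn'.2.trans hNX)) _ (prod_nonneg fun _ _ => lamP_nonneg _) hLm0.le
      calc ∏ i, lamP ((n : ℤ) + (a i : ℤ)) ≤ ∏ _i : Fin k, Lm := prod_le_prod (fun _ _ => lamP_nonneg _)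
            (fun i _ => h6 _ (hsh i n hn))
        _ = Lm ^ k := by rw [prod_const, card_univ, Fintype.card_fin]
    · rw [if_neg h5, zero_mul]
      apply le_of_eq
      rw [not_and_or] at h5
      rcases h5 with h5 | h5
      · have h6 : lamP (n : ℤ) = 0 := by
          unfold lamP
          rw [Int.toNat_natCast, if_neg h5]
        rw [h6, zero_mul]
      · push Not at h5
        obtain ⟨i, hi⟩ := h5
        have h6 : lamP ((n : ℤ) + (a i : ℤ)) = 0 := by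
          unfold lamP
          have h7 : ((n : ℤ) + (a i : ℤ)).toNat = n + a i := by omega
          rw [h7, if_neg hi]
        rw [prod_eq_zero (mem_univ i) h6, mul_zero]
  -- the decomposition
  have hsum : ∑ n ∈ TT a N, ee ((n : ℝ) * θ) = ∑ n ∈ Icc 1 N, ((ind n : ℝ) : ℂ) * ee ((n : ℝ) * θ) := by
    unfold TT
    rw [sum_filter, hind]
    apply sum_congr rfl
    intro n _
    simp only
    split_ifs <;> simp
  have hindc : ∑ n ∈ Icc 1 N, ind n = (primeTuples a N : ℝ) := by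
    unfold primeTuples
    rw [card_eq_sum_ones, sum_filter, hind]
    push_cast
    rfl
  have hdec : ∑ n ∈ Icc 1 N, ((ind n : ℝ) : ℂ) * ee ((n : ℝ) * θ) =
      ∑ n ∈ Icc 1 N, ((ind n - t n / Lm ^ (k + 1) : ℝ) : ℂ) * ee ((n : ℝ) * θ) +
      ((1 / Lm ^ (k + 1) : ℝ) : ℂ) * (∑ n ∈ Icc 1 N, ((w n : ℝ) : ℂ) * ee ((n : ℝ) * θ) -
        ∑ n ∈ Icc 1 N, ((w n - t n : ℝ) : ℂ) * ee ((n : ℝ) * θ)) := by
    rw [← sum_sub_distrib, mul_sum, ← sum_add_distrib]
    apply sum_congr rfl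
    intro n _
    push_cast
    ring
  have hn1 : ‖∑ n ∈ Icc 1 N, ((ind n - t n / Lm ^ (k + 1) : ℝ) : ℂ) * ee ((n : ℝ) * θ)‖ ≤
      (primeTuples a N : ℝ) - tupleCount (fun i => (a i : ℤ)) N / Lm ^ (k + 1) := by
    refine (norm_sum_le _ _).trans ?_
    rw [← hindc, htc, sum_div, ← sum_sub_distrib]
    apply sum_le_sum
    intro n hn
    rw [norm_mul, norm_ee, mul_one, Complex.norm_real, Real.norm_of_nonneg (htind n hn)]
  have hn2 : ‖∑ n ∈ Icc 1 N, ((w n - t n : ℝ) : ℂ) * ee ((n : ℝ) * θ)‖ ≤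
      ((k : ℝ) + 1) * Lm ^ (k + 1) * (2 * √(X : ℝ) * Lm) := by
    refine (norm_sum_le _ _).trans ?_
    have h5 : ∑ n ∈ Icc 1 N, ‖((w n - t n : ℝ) : ℂ) * ee ((n : ℝ) * θ)‖ = ∑ n ∈ Icc 1 N, w n - tupleCount (fun i => (a i : ℤ)) N := by
      rw [htc, ← sum_sub_distrib]
      apply sum_congr rfl
      intro n hn
      rw [norm_mul, norm_ee, mul_one, Complex.norm_real, Real.norm_of_nonneg (sub_nonneg.2 (htw n hn))]
    rw [h5, hw]
    exact (le_abs_self _).trans e1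
  -- sizes
  have hss : √(N : ℝ) * √(N : ℝ) = N := Real.mul_self_sqrt hN0.le
  have hs0 : 0 < √(N : ℝ) := Real.sqrt_pos.2 hN0
  have hsX : √(X : ℝ) ≤ ((A : ℝ) + 1) * √N := by
    rw [hXr, Real.sqrt_mul (by linarith)]
    apply mul_le_mul_of_nonneg_right _ hs0.le
    rw [Real.sqrt_le_left (by linarith)]
    nlinarith only [hA1]
  have hn3 : ((k : ℝ) + 1) * Lm ^ (k + 1) * (2 * √(X : ℝ) * Lm) ≤ N / L := by
    rw [le_div_iff₀ hL0]
    calc ((k : ℝ) + 1) * Lm ^ (k + 1) * (2 * √(X : ℝ) * Lm) * L ≤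
        ((k : ℝ) + 1) * (2 * L) ^ (k + 1) * (2 * (((A : ℝ) + 1) * √N) * (2 * L)) * L := by gcongr
      _ = ((((k : ℝ) + 1) * 2 ^ (k + 1) * (4 * ((A : ℝ) + 1))) * L ^ (k + 3)) * √N := by rw [mul_pow]; ring
      _ ≤ √N * √N := mul_le_mul_of_nonneg_right a2 hs0.le
      _ = N := hss
  obtain ⟨Z, hZ⟩ : ∃ Z, Z = S * ((N : ℝ) / L ^ (k + 1)) := ⟨_, rfl⟩
  rw [← hZ] at a1 ⊢
  have hS0 : 0 < S := by linarith
  have hZ0 : 0 < Z := by rw [hZ]; positivity
  have hNLZ : (N : ℝ) / L ^ (k + 1) ≤ Z / c := by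
    rw [le_div_iff₀ hc, hZ]
    have h5 : 0 ≤ (N : ℝ) / L ^ (k + 1) := by positivity
    have h6 := mul_le_mul_of_nonneg_right hS h5
    linarith
  have hcL : 1 / (c * L) ≤ δ / 8 := by
    rw [div_le_div_iff₀ (by positivity) (by norm_num)]
    rw [div_le_iff₀ (by positivity)] at hLc
    linarith
  -- the count
  have hcnt : (1 - δ / 4) * Z ≤ tupleCount (fun i => (a i : ℤ)) N / Lm ^ (k + 1) := by
    have h5 : (1 - δ / 8) * (S * N) ≤ tupleCount (fun i => (a i : ℤ)) N := by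
      have h6 := (abs_le.1 hT).1
      have h7 : (N : ℝ) / L ≤ δ / 8 * (S * N) := by
        calc (N : ℝ) / L = (1 / (c * L)) * (c * N) := by field_simp
          _ ≤ δ / 8 * (S * N) := mul_le_mul hcL (mul_le_mul_of_nonneg_right hS hN0.le) (by positivity) (by positivity)
      linarith
    have h6 : (1 - δ / 8) * Lm ^ (k + 1) ≤ L ^ (k + 1) := by
      obtain ⟨y, hy⟩ : ∃ y, y = Real.log ((A : ℝ) + 1) / Lm := ⟨_, rfl⟩
      have hy0 : 0 ≤ y := by rw [hy]; positivity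
      have hy1 : ((k : ℝ) + 1) * y ≤ δ / 8 := by
        have h8 : y ≤ Real.log ((A : ℝ) + 1) / L := by
          rw [hy]
          exact div_le_div_of_nonneg_left hlA hL0 hLLm
        have h9 : ((k : ℝ) + 1) * (Real.log ((A : ℝ) + 1) / L) ≤ δ / 8 := by
          rw [mul_div_assoc', div_le_div_iff₀ hL0 (by norm_num)]
          have h10 : Real.log ((A : ℝ) + 1) * (8 * (k + 1)) ≤ L * δ := by
            have h11 : Real.log ((A : ℝ) + 1) * (8 * (k + 1) / δ) * δ ≤ L * δ := mul_le_mul_of_nonneg_right hLk hδ.le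
            have h12 : Real.log ((A : ℝ) + 1) * (8 * (k + 1) / δ) * δ = Real.log ((A : ℝ) + 1) * (8 * (k + 1)) := by
              field_simp
            linarith
          linarith
        exact (mul_le_mul_of_nonneg_left h8 (by positivity)).trans h9
      have hy2 : y ≤ 1 := by
        rw [hy, div_le_one hLm0]
        linarith
      have h8 : L = Lm * (1 - y) := by
        rw [hy, mul_sub, mul_one, mul_div_cancel₀ _ hLm0.ne']
        linarith
      have h9 : 1 - ((k : ℝ) + 1) * y ≤ (1 - y) ^ (k + 1) := by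
        have h10 := one_add_mul_le_pow (a := -y) (by linarith) (k + 1)
        push_cast at h10
        calc 1 - ((k : ℝ) + 1) * y = 1 + ((k : ℝ) + 1) * -y := by ring
          _ ≤ (1 + -y) ^ (k + 1) := h10
          _ = _ := by ring
      rw [h8, mul_pow, mul_comm]
      apply mul_le_mul_of_nonneg_left _ (by positivity)
      linarith
    rw [le_div_iff₀ (by positivity)]
    calc (1 - δ / 4) * Z * Lm ^ (k + 1) ≤ ((1 - δ / 8) * (1 - δ / 8)) * Z * Lm ^ (k + 1) := by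
          have : 1 - δ / 4 ≤ (1 - δ / 8) * (1 - δ / 8) := by nlinarith only [sq_nonneg δ]
          gcongr
      _ = (1 - δ / 8) * Z * ((1 - δ / 8) * Lm ^ (k + 1)) := by ring
      _ ≤ (1 - δ / 8) * Z * L ^ (k + 1) := by
          apply mul_le_mul_of_nonneg_left h6
          have : 0 ≤ 1 - δ / 8 := by linarith
          positivity
      _ = (1 - δ / 8) * (S * N) := by
          rw [hZ]
          field_simp
      _ ≤ _ := h5
  have ha1 := (abs_le.1 a1).2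
  have hinv : 1 / Lm ^ (k + 1) * (N / L + N / L) ≤ δ / 4 * Z := by
    calc 1 / Lm ^ (k + 1) * ((N : ℝ) / L + N / L) ≤ 1 / L ^ (k + 1) * (N / L + N / L) := by
          apply mul_le_mul_of_nonneg_right _ (by positivity)
          exact one_div_le_one_div_of_le (by positivity) (pow_le_pow_left₀ hL0.le hLLm _)
      _ = 2 * (1 / L) * (N / L ^ (k + 1)) := by field_simp; ring
      _ ≤ 2 * (1 / L) * (Z / c) := mul_le_mul_of_nonneg_left hNLZ (by positivity)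
      _ = 2 * (1 / (c * L)) * Z := by field_simp
      _ ≤ 2 * (δ / 8) * Z := by gcongr
      _ = _ := by ring
  rw [hsum, hdec]
  refine (norm_add_le _ _).trans ?_
  have hn4 : ‖((1 / Lm ^ (k + 1) : ℝ) : ℂ) * (∑ n ∈ Icc 1 N, ((w n : ℝ) : ℂ) * ee ((n : ℝ) * θ) -
        ∑ n ∈ Icc 1 N, ((w n - t n : ℝ) : ℂ) * ee ((n : ℝ) * θ))‖ ≤ 1 / Lm ^ (k + 1) * (N / L + N / L) := by
    rw [norm_mul, Complex.norm_real, Real.norm_of_nonneg (by positivity)]
    apply mul_le_mul_of_nonneg_left _ (by positivity)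
    refine (norm_sub_le _ _).trans (add_le_add ?_ (hn2.trans hn3))
    rw [hw]
    exact hθ
  nlinarith only [hn1, hn4, hinv, ha1, hcnt, hδ, hZ0, mul_pos hδ hZ0]

variable {s : ℕ}

/-- replacing the von Mangoldt function by the sieve model, with a bounded weight -/
theorem os_diff_w (N A z : ℕ) (U : ℕ) (κκ c : Fin s → ℕ) (Ω : Fin s → Finset ℕ) (p : Fin s → ℕ → ℝ)
    (hp0 : ∀ i, ∀ v ∈ Ω i, 0 ≤ p i v) (hp1 : ∀ i, ∑ v ∈ Ω i, p i v = 1)
    (hA : ∀ i, ∀ v ∈ Ω i, c i + κκ i * v ≤ A * N)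
    (hone : ∀ i, ∀ K : ℝ, 0 < K → ∀ G : ℕ → ℝ, (∀ n ∈ Icc 1 N, |G n| ≤ K) →
      ∑ v ∈ Ω i, p i v * |∑ n ∈ Icc 1 N, G n * (lamI ((n : ℤ) + ((c i + κκ i * v : ℕ) : ℤ)) - lamzI z ((n : ℤ) + ((c i + κκ i * v : ℕ) : ℤ)))| ≤
          K * (N / Real.log N ^ (U + s + 2)))
    (hN : 1 ≤ N) (hL1 : 1 ≤ Real.log N) (hLA : Real.log ((A + 1 : ℕ) : ℝ) ≤ Real.log N)
    (hbig : (s : ℝ) * 2 ^ s ≤ Real.log N) (hV : (Vz z)⁻¹ ≤ Real.log N) (w : ℕ → ℝ) (hw : ∀ n, |w n| ≤ 1) :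
    ∑ m ∈ Fintype.piFinset Ω, (∏ i, p i (m i)) * |∑ n ∈ Icc 1 N, (ArithmeticFunction.vonMangoldt n * w n) *
        (∏ i, lamI ((n : ℤ) + ((c i + κκ i * m i : ℕ) : ℤ)) - ∏ i, lamzI z ((n : ℤ) + ((c i + κκ i * m i : ℕ) : ℤ)))| ≤
        N / Real.log N ^ U := by
  classical
  obtain ⟨L, hL⟩ : ∃ L, L = Real.log (N : ℝ) := ⟨_, rfl⟩
  rw [← hL] at hL1 hLA hbig hV ⊢
  simp only [← hL] at hone
  have hL0 : 0 < L := by linarith
  have hN0 : (0 : ℝ) < N := by exact_mod_cast hN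
  have hX1 : 1 ≤ (A + 1) * N := Nat.mul_pos (by omega) hN
  have hlogX : Real.log (((A + 1) * N : ℕ) : ℝ) ≤ 2 * L := by
    rw [Nat.cast_mul, Real.log_mul (by positivity) hN0.ne', ← hL]
    linarith
  have hup : ∀ i, ∀ n ∈ Icc 1 N, ∀ v ∈ Ω i, (((n : ℤ) + ((c i + κκ i * v : ℕ) : ℤ) : ℤ) : ℝ) ≤ (((A + 1) * N : ℕ) : ℝ) := by
    intro i n hn v hv
    rw [mem_Icc] at hn
    have h4 := hA i v hv
    have h5 : n + (c i + κκ i * v) ≤ (A + 1) * N := by
      rw [add_mul, one_mul]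
      omega
    exact_mod_cast h5
  have key := tele_w N Ω p hp0 hp1 (fun i n v => lamI ((n : ℤ) + ((c i + κκ i * v : ℕ) : ℤ)))
    (fun i n v => lamzI z ((n : ℤ) + ((c i + κκ i * v : ℕ) : ℤ)))
    (2 * L) ((N : ℝ) / L ^ (U + s + 2)) (by linarith) (by positivity) (by
      intro i n hn v hv
      rw [abs_of_nonneg (lamI_nonneg _)]
      exact (lamI_le _ _ (by exact_mod_cast hX1) (hup i n hn v hv)).trans hlogX) (by
      intro i n hn v hv
      rw [abs_of_nonneg (lamzI_nonneg _ _)]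
      exact (lamzI_le z _).trans (by linarith)) hone
    univ L hL0 (fun n _ => ArithmeticFunction.vonMangoldt n * w n) (by
      intro n hn m _
      rw [mem_Icc] at hn
      rw [abs_mul, abs_of_nonneg ArithmeticFunction.vonMangoldt_nonneg]
      have q1 : Real.log (n : ℝ) ≤ L := by
        rw [hL]
        apply Real.log_le_log (by exact_mod_cast hn.1)
        exact_mod_cast hn.2
      calc ArithmeticFunction.vonMangoldt n * |w n| ≤ L * 1 :=
            mul_le_mul (ArithmeticFunction.vonMangoldt_le_log.trans q1) (hw n) (abs_nonneg _) hL0.le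
        _ = L := mul_one _) (by
      intro n m v i _; rfl)
  rw [card_univ, Fintype.card_fin] at key
  refine key.trans ?_
  calc (s : ℝ) * (L * (2 * L) ^ s * (N / L ^ (U + s + 2))) = ((s : ℝ) * 2 ^ s) * (N / L ^ U * (L ^ (s + 1) / L ^ (s + 2))) := by
        rw [mul_pow, show U + s + 2 = U + (s + 2) by ring, pow_add L U, pow_succ L s]
        field_simp
    _ ≤ L * (N / L ^ U * (L ^ (s + 1) / L ^ (s + 2))) := mul_le_mul_of_nonneg_right hbig (by positivity)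
    _ = N / L ^ U := by
        rw [show s + 2 = (s + 1) + 1 by ring, pow_succ L (s + 1)]
        field_simp

end Pool.Agent.Run7.h609.BT
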