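import Mathlib
import Pool.Agent.Run7.h609.BT.C
import Pool.Agent.Run7.h609.MK.Weyl
import Pool.Agent.N469.PT.Ws

/-!
# Prime tuples in Bohr sets for almost all shifts (helper609)
-/

set_option autoImplicit false
set_option maxHeartbeats 4000000

namespace Pool.Agent.Run7.h609.BT

open Finset
open Pool.Agent.H807R2.Dav (ee norm_ee ee_add ee_int ee_pow)
open Pool.Agent.H373R2.T7
open Pool.Agent.H560R3.GB (primeTuples)
open Pool.Agent.W93.TD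
open Pool.Agent.N469.PT (OneLaw ws_final)

lemma eET (y : ℝ) : Pool.Agent.V11226.ETN.e y = ee y := by
  unfold Pool.Agent.V11226.ETN.e ee
  congr 1
  push_cast
  ring

/-- the prime tuples `n, n + a i` with `n α` in a box modulo one: the expected number for all boxes -/
def Box {r k : ℕ} (ε : ℝ) (N : ℕ) (a : Fin k → ℕ) (α : Fin r → ℝ) : Prop :=
  ∃ S : ℝ, Filter.Tendsto (fun z => singZ (fun i => (a i : ℤ)) z) Filter.atTop (nhds S) ∧
    (Admissible (fun i => (a i : ℤ)) → 0 < S ∧ ∀ u v : Fin r → ℝ, (∀ j, u j ≤ v j) → (∀ j, v j ≤ u j + 1) →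
      |(((TT a N).filter (fun n : ℕ => ∀ j, Int.fract (α j * (n : ℝ) - u j) < v j - u j)).card : ℝ) -
        (∏ j, (v j - u j)) * (S * (N / Real.log N ^ (k + 1)))| ≤ ε * (S * (N / Real.log N ^ (k + 1))))

/-- the real and imaginary parts -/
lemma split_ee (N : ℕ) (g : ℕ → ℝ) (θ : ℝ) :
    ‖∑ n ∈ Icc 1 N, ((g n : ℝ) : ℂ) * ee ((n : ℝ) * θ)‖ ≤ |∑ n ∈ Icc 1 N, g n * Real.cos (2 * Real.pi * (n * θ))| +
      |∑ n ∈ Icc 1 N, g n * Real.sin (2 * Real.pi * (n * θ))| := by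
  have h1 : ∑ n ∈ Icc 1 N, ((g n : ℝ) : ℂ) * ee ((n : ℝ) * θ) =
      ((∑ n ∈ Icc 1 N, g n * Real.cos (2 * Real.pi * (n * θ)) : ℝ) : ℂ) +
      ((∑ n ∈ Icc 1 N, g n * Real.sin (2 * Real.pi * (n * θ)) : ℝ) : ℂ) * Complex.I := by
    push_cast
    rw [sum_mul, ← sum_add_distrib]
    apply sum_congr rfl
    intro n _
    rw [Pool.Agent.H807R2.Dav.ee_eq, Complex.exp_mul_I]
    push_cast
    ring
  rw [h1]
  refine (norm_add_le _ _).trans ?_
  rw [norm_mul, Complex.norm_I, mul_one, Complex.norm_real, Complex.norm_real, Real.norm_eq_abs, Real.norm_eq_abs]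

/-- the deterministic part: from the small twisted sums to the boxes -/
lemma box_det (k A r : ℕ) (hk : 1 ≤ k) (ε : ℝ) (hε : 0 < ε) : ∃ (M : ℕ) (ε₀ : ℝ), 0 < ε₀ ∧ ∃ n0 : ℕ, ∀ N : ℕ, n0 ≤ N →
    ∀ U : ℕ, 1 ≤ U → ∀ a : Fin k → ℕ, (∀ i, a i ≤ A * N) → HLs ε₀ U N a → ∀ α : Fin r → ℝ,
    (∀ h : Fin r → ℤ, h ≠ 0 → (∀ j, |h j| ≤ M) →
      ‖∑ n ∈ Icc 1 N, ((ArithmeticFunction.vonMangoldt n * ∏ i, lamI ((n : ℤ) + (a i : ℤ)) : ℝ) : ℂ) *
        ee ((n : ℝ) * ∑ j, (h j : ℝ) * α j)‖ ≤ N / Real.log N) → Box ε N a α := by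
  obtain ⟨M, δ, hδ, hweyl⟩ := Pool.Agent.Run7.h609.MK.weyl r ε hε
  obtain ⟨c, hc, hlow⟩ := singZ_low k
  have hδ1 : 0 < min δ 1 := lt_min hδ one_pos
  obtain ⟨n1, h1⟩ := exp_tuples k A c (min δ 1) hc hδ1 (min_le_right _ _)
  obtain ⟨n2, h2⟩ := ev_L' 1
  refine ⟨M, min δ 1, hδ1, n1 + n2 + 2, fun N hN U hU a ha hH α hα => ?_⟩
  obtain ⟨S, hS, hS1, hS2⟩ := hH
  refine ⟨S, hS, fun hadm => ?_⟩
  obtain ⟨hS0, hS3⟩ := hS2 hadm
  refine ⟨hS0, ?_⟩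
  have hL := h2 N (by omega)
  have hL0 : 0 < Real.log (N : ℝ) := by linarith
  have hN0 : (0 : ℝ) < N := by exact_mod_cast (by omega : 0 < N)
  have hcS : c ≤ S := ge_of_tendsto' hS (hlow _ hadm)
  have hS4 : |tupleCount (fun i => (a i : ℤ)) N - S * N| ≤ N / Real.log N := by
    refine hS1.trans ?_
    apply div_le_div_of_nonneg_left hN0.le hL0
    exact le_self_pow₀ hL (by omega)
  obtain ⟨Z, hZ⟩ : ∃ Z, Z = S * ((N : ℝ) / Real.log N ^ (k + 1)) := ⟨_, rfl⟩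
  have hZ0 : 0 < Z := by rw [hZ]; positivity
  rw [← hZ] at hS3 ⊢
  have key := hweyl (TT a N) (fun _ => (1 : ℝ)) (fun n j => α j * (n : ℝ)) Z (fun _ _ => zero_le_one) hZ0.le (by
      rw [sum_const, nsmul_eq_mul, mul_one]
      rw [TT_card]
      exact hS3.trans (mul_le_mul_of_nonneg_right (min_le_left _ _) hZ0.le)) (by
      intro h hh0 hhM
      have e1 := h1 N (by omega) a ha S hcS hS4 (∑ j, (h j : ℝ) * α j) (hα h hh0 hhM)
      rw [← hZ] at e1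
      refine le_trans (le_of_eq ?_) (e1.trans (mul_le_mul_of_nonneg_right (min_le_left _ _) hZ0.le))
      congr 1
      apply sum_congr rfl
      intro n _
      have e2 : ∑ j, (h j : ℝ) * (α j * (n : ℝ)) = (n : ℝ) * ∑ j, (h j : ℝ) * α j := by
        rw [mul_sum]
        apply sum_congr rfl
        intro j _
        ring
      rw [e2, eET]
      push_cast
      rw [one_mul])
  intro u v huv hvu
  have h3 := key u v huv hvu
  rw [sum_const, nsmul_eq_mul, mul_one] at h3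
  exact h3

lemma alg1 (x y w n c : ℝ) (hx : 0 < x) (hy : 0 < y) (hw : 0 < w) (hn : 0 < n) :
    c * (1 / (n / x) * (2 * (n / (x * w * y)))) = 2 * c / w * (1 / y) := by
  field_simp

lemma alg2 (a q l : ℝ) (ha : 0 < a) (hl : 0 < l) : 1 / (a * l) + q * (1 / (a * l)) = (1 + q) / l * (1 / a) := by
  field_simp

open Classical in
/-- **prime tuples in Bohr sets, for almost all shifts** (classes of laws with the one shift estimate) -/
theorem main (s : ℕ) (hs : 1 ≤ s) (r : ℕ) (η ε : ℝ) (hη : 0 < η) (hη1 : η ≤ 1) (hε : 0 < ε) (U Bc : ℕ)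
    (L : Fin s → ℕ → Finset ℕ → (ℕ → ℝ) → Prop) (κκ : Fin s → ℕ) (hκ : ∀ i, 1 ≤ κκ i)
    (h : ∀ i, OneLaw (L i) (κκ i) Bc (2 * (U + 1) + 6 + s + 2)) :
    ∃ M N₀ : ℕ, ∀ N, N₀ ≤ N → ∀ (Ω : Fin s → Finset ℕ) (p : Fin s → ℕ → ℝ), (∀ i, L i N (Ω i) (p i)) →
    ∀ c : Fin s → ℕ, (∀ i, c i ≤ Bc * N) → ∀ α : Fin r → ℝ,
    (∀ h : Fin r → ℤ, h ≠ 0 → (∀ j, |h j| ≤ M) → Bad η N (∑ j, (h j : ℝ) * α j)) →
    ∑ m ∈ Fintype.piFinset Ω, (if ¬ Box ε N (fun i => c i + κκ i * m i) α then ∏ i, p i (m i) else 0) ≤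
      1 / Real.log N ^ U := by
  have h' := h
  choose A B0 hE using h'
  obtain ⟨At, hAt⟩ : ∃ At, At = ∑ i, A i := ⟨_, rfl⟩
  obtain ⟨Bt, hBt⟩ : ∃ Bt, Bt = ∑ i, B0 i := ⟨_, rfl⟩
  have hAi : ∀ i, A i ≤ At := fun i => by rw [hAt]; exact single_le_sum (fun _ _ => Nat.zero_le _) (mem_univ i)
  have hBi : ∀ i, B0 i ≤ Bt := fun i => by rw [hBt]; exact single_le_sum (fun _ _ => Nat.zero_le _) (mem_univ i)
  obtain ⟨M, ε₀, hε₀, n1, h1⟩ := box_det s At r hs ε hε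
  obtain ⟨n2, h2⟩ := ws_final s hs L κκ hκ Bc (U + 1) ε₀ hε₀ h
  obtain ⟨E1, hE1⟩ : ∃ E1, E1 = Bt := ⟨_, rfl⟩
  choose N1 hN1 using fun i => hE i (E1 + 1)
  obtain ⟨Nt, hNt⟩ : ∃ Nt, Nt = ∑ i, N1 i := ⟨_, rfl⟩
  have hNi : ∀ i, N1 i ≤ Nt := fun i => by rw [hNt]; exact single_le_sum (fun _ _ => Nat.zero_le _) (mem_univ i)
  obtain ⟨n3, h3⟩ := Vz_inv_small (E1 + 1)
  obtain ⟨n4, h4⟩ := twist s (E1 + 1) 2 η hη hη1
  obtain ⟨Hs, hHs⟩ : ∃ Hs : Finset (Fin r → ℤ), Hs = (Fintype.piFinset fun _ : Fin r => Icc (-(M : ℤ)) M).erase 0 := ⟨_, rfl⟩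
  have hmem : ∀ h : Fin r → ℤ, h ≠ 0 → (∀ j, |h j| ≤ M) → h ∈ Hs := by
    intro h h0 hM'
    rw [hHs, mem_erase, Fintype.mem_piFinset]
    exact ⟨h0, fun j => mem_Icc.2 (abs_le.1 (hM' j))⟩
  have hmem' : ∀ h ∈ Hs, h ≠ 0 ∧ ∀ j, |h j| ≤ M := by
    intro h hh
    rw [hHs, mem_erase, Fintype.mem_piFinset] at hh
    exact ⟨hh.1, fun j => abs_le.2 (mem_Icc.1 (hh.2 j))⟩
  obtain ⟨n5, h5⟩ := ev_L' (4 + (s : ℝ) * 2 ^ s + Real.log ((At + 1 : ℕ) : ℝ) + 2 * (Hs.card : ℝ))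
  refine ⟨M, Nt + n1 + n2 + n3 + n4 + n5 + 1, fun N hN Ω p hL' c hc α hα => ?_⟩
  have hL := h5 N (by omega)
  have b2 := h2 N (by omega) Ω p hL' c hc
  obtain ⟨L, hLdef⟩ : ∃ L, L = Real.log (N : ℝ) := ⟨_, rfl⟩
  have q0 : 0 ≤ Real.log ((At + 1 : ℕ) : ℝ) := Real.log_natCast_nonneg _
  have q1 : 0 ≤ (s : ℝ) * 2 ^ s := by positivity
  have q2 : 0 ≤ 2 * (Hs.card : ℝ) := by positivity
  rw [← hLdef] at hL b2
  have hL4 : 4 ≤ L := by linarith
  have hL1 : 1 ≤ L := by linarith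
  have hL0 : 0 < L := by linarith
  have hN0 : (0 : ℝ) < N := by exact_mod_cast (by omega : 0 < N)
  -- the level
  obtain ⟨z, hz⟩ : ∃ z, z = ⌈L ^ E1⌉₊ := ⟨_, rfl⟩
  have hz1 : L ^ E1 ≤ z := by rw [hz]; exact Nat.le_ceil _
  have hz2 : (z : ℝ) ≤ L ^ (E1 + 1) := by
    have q1 : (z : ℝ) < L ^ E1 + 1 := by rw [hz]; exact Nat.ceil_lt_add_one (by positivity)
    have q2 : 1 ≤ L ^ E1 := one_le_pow₀ hL1
    rw [pow_succ]
    nlinarith only [q1, q2, hL4]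
  have hzn : 1 ≤ z := by
    have : (1 : ℝ) ≤ z := (one_le_pow₀ hL1).trans hz1
    exact_mod_cast this
  have hz3 : ∀ i, L ^ B0 i ≤ z := fun i => (pow_le_pow_right₀ hL1 (by have := hBi i; omega)).trans hz1
  have hall := fun i => hN1 i N (by have := hNi i; omega) (Ω i) (p i) (hL' i) (c i) (hc i)
  have hp0 := fun i => (hall i).1
  have hp1 := fun i => (hall i).2.1
  have hpA := fun i => (hall i).2.2.2.1
  have hone := fun i => (hall i).2.2.2.2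
  have hpA' : ∀ i, ∀ v ∈ Ω i, c i + κκ i * v ≤ At * N := fun i v hv =>
    (hpA i v hv).trans (Nat.mul_le_mul_right _ (hAi i))
  have hV := h3 N (by omega) z hzn (by rw [← hLdef]; exact hz2)
  have hdiff := fun w hw => os_diff_w N At z (2 * (U + 1) + 6) κκ c Ω p hp0 hp1 hpA'
    (fun i K hK G hG => hone i z (by rw [← hLdef]; exact hz3 i)
    (by rw [← hLdef]; exact hz2) K hK G hG) (by omega) (by rw [← hLdef]; exact hL1) (by rw [← hLdef]; linarith)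
    (by rw [← hLdef]; linarith) hV w hw
  simp only [← hLdef] at hdiff
  -- the deviations
  obtain ⟨Dw, hDw⟩ : ∃ Dw : (ℕ → ℝ) → (Fin s → ℕ) → ℝ, Dw = fun w m => |∑ n ∈ Icc 1 N, (ArithmeticFunction.vonMangoldt n * w n) *
        (∏ i, lamI ((n : ℤ) + ((c i + κκ i * m i : ℕ) : ℤ)) - ∏ i, lamzI z ((n : ℤ) + ((c i + κκ i * m i : ℕ) : ℤ)))| := ⟨_, rfl⟩
  have hDr : ∀ w m, |∑ n ∈ Icc 1 N, (ArithmeticFunction.vonMangoldt n * w n) *
        (∏ i, lamI ((n : ℤ) + ((c i + κκ i * m i : ℕ) : ℤ)) - ∏ i, lamzI z ((n : ℤ) + ((c i + κκ i * m i : ℕ) : ℤ)))| = Dw w m :=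
    fun w m => by rw [hDw]
  simp only [hDr] at hdiff
  obtain ⟨cw, hcw⟩ : ∃ cw : (Fin r → ℤ) → ℕ → ℝ, cw = fun (h : Fin r → ℤ) (n : ℕ) => Real.cos (2 * Real.pi * (n * ∑ j, (h j : ℝ) * α j)) := ⟨_, rfl⟩
  obtain ⟨sw, hsw⟩ : ∃ sw : (Fin r → ℤ) → ℕ → ℝ, sw = fun (h : Fin r → ℤ) (n : ℕ) => Real.sin (2 * Real.pi * (n * ∑ j, (h j : ℝ) * α j)) := ⟨_, rfl⟩
  have hcw1 : ∀ h n, |cw h n| ≤ 1 := fun h n => by rw [hcw]; exact Real.abs_cos_le_one _
  have hsw1 : ∀ h n, |sw h n| ≤ 1 := fun h n => by rw [hsw]; exact Real.abs_sin_le_one _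
  obtain ⟨C, hC⟩ : ∃ C : ℝ, C = 1 / (N / L ^ (U + 5)) := ⟨_, rfl⟩
  have hC0 : 0 < C := by rw [hC]; positivity
  have hD0 : ∀ w m, 0 ≤ Dw w m := fun w m => by rw [← hDr]; exact abs_nonneg _
  -- pointwise
  have hpt : ∀ m ∈ Fintype.piFinset Ω, (if ¬ Box ε N (fun i => c i + κκ i * m i) α then ∏ i, p i (m i) else 0) ≤
      (if ¬ HLs ε₀ (U + 1) N (fun i => c i + κκ i * m i) then ∏ i, p i (m i) else 0) +
      ∑ h ∈ Hs, C * ((∏ i, p i (m i)) * Dw (cw h) m + (∏ i, p i (m i)) * Dw (sw h) m) := by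
    intro m hm
    have hm' := Fintype.mem_piFinset.1 hm
    obtain ⟨P, hP⟩ : ∃ P, P = ∏ i, p i (m i) := ⟨_, rfl⟩
    rw [← hP]
    have hP0 : 0 ≤ P := by rw [hP]; exact prod_nonneg fun j _ => hp0 j _ (hm' j)
    have t1 : ∀ h ∈ Hs, 0 ≤ C * (P * Dw (cw h) m + P * Dw (sw h) m) := fun h _ =>
      mul_nonneg hC0.le (add_nonneg (mul_nonneg hP0 (hD0 _ _)) (mul_nonneg hP0 (hD0 _ _)))
    have t2 := sum_nonneg t1
    by_cases hb : Box ε N (fun i => c i + κκ i * m i) α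
    · rw [if_neg (not_not.2 hb)]
      have : 0 ≤ (if ¬ HLs ε₀ (U + 1) N (fun i => c i + κκ i * m i) then P else 0) := by
        split_ifs
        · exact le_rfl
        · exact hP0
      linarith
    rw [if_pos hb]
    by_cases hH : HLs ε₀ (U + 1) N (fun i => c i + κκ i * m i)
    swap
    · rw [if_pos hH]
      linarith
    rw [if_neg (not_not.2 hH), zero_add]
    -- some deviation is large
    by_cases hq : ∃ h ∈ Hs, N / L ^ (U + 5) < Dw (cw h) m ∨ N / L ^ (U + 5) < Dw (sw h) m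
    · obtain ⟨h, hh, hq⟩ := hq
      refine le_trans ?_ (single_le_sum t1 hh)
      have hNL : 0 < (N : ℝ) / L ^ (U + 5) := by positivity
      have q3 : 1 ≤ C * (Dw (cw h) m + Dw (sw h) m) := by
        rw [hC, one_div, ← div_eq_inv_mul, le_div_iff₀ hNL, one_mul]
        have g1 := hD0 (cw h) m
        have g2 := hD0 (sw h) m
        rcases hq with hq | hq <;> linarith
      calc P = P * 1 := (mul_one _).symm
        _ ≤ P * (C * (Dw (cw h) m + Dw (sw h) m)) := mul_le_mul_of_nonneg_left q3 hP0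
        _ = _ := by ring
    exfalso
    push Not at hq
    apply hb
    refine h1 N (by omega) (U + 1) (by omega) _ (fun i => hpA' i _ (hm' i)) hH α ?_
    intro h hh0 hhM
    obtain ⟨g1, g2⟩ := hq h (hmem h hh0 hhM)
    obtain ⟨θ, hθ⟩ : ∃ θ, θ = ∑ j, (h j : ℝ) * α j := ⟨_, rfl⟩
    have g3 := h4 N (by omega) z hzn (by rw [← hLdef]; exact hz2) (fun i => c i + κκ i * m i) θ (by
      rw [hθ]; exact hα h hh0 hhM)
    rw [← hDr, hcw] at g1
    rw [← hDr, hsw] at g2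
    rw [← hθ, ← hLdef]
    rw [← hLdef] at g3
    simp only [← hθ] at g1 g2
    obtain ⟨a, ha⟩ : ∃ a : Fin s → ℕ, a = fun i => c i + κκ i * m i := ⟨_, rfl⟩
    have ha' : ∀ i, ((c i + κκ i * m i : ℕ) : ℤ) = (a i : ℤ) := fun i => by rw [ha]
    simp only [ha'] at g1 g2 g3 ⊢
    have g4 := split_ee N (fun n => ArithmeticFunction.vonMangoldt n *
      (∏ i, lamI ((n : ℤ) + (a i : ℤ)) - ∏ i, lamzI z ((n : ℤ) + (a i : ℤ)))) θ
    have g5 : |∑ n ∈ Icc 1 N, ArithmeticFunction.vonMangoldt n *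
      (∏ i, lamI ((n : ℤ) + (a i : ℤ)) - ∏ i, lamzI z ((n : ℤ) + (a i : ℤ))) * Real.cos (2 * Real.pi * (n * θ))| ≤ N / L ^ (U + 5) := by
      refine le_trans (le_of_eq ?_) g1
      congr 1
      apply sum_congr rfl
      intro n _
      ring
    have g6 : |∑ n ∈ Icc 1 N, ArithmeticFunction.vonMangoldt n *
      (∏ i, lamI ((n : ℤ) + (a i : ℤ)) - ∏ i, lamzI z ((n : ℤ) + (a i : ℤ))) * Real.sin (2 * Real.pi * (n * θ))| ≤ N / L ^ (U + 5) := by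
      refine le_trans (le_of_eq ?_) g2
      congr 1
      apply sum_congr rfl
      intro n _
      ring
    have g7 : ∑ n ∈ Icc 1 N, ((ArithmeticFunction.vonMangoldt n * ∏ i, lamI ((n : ℤ) + (a i : ℤ)) : ℝ) : ℂ) * ee ((n : ℝ) * θ) =
        ∑ n ∈ Icc 1 N, ((ArithmeticFunction.vonMangoldt n *
          (∏ i, lamI ((n : ℤ) + (a i : ℤ)) - ∏ i, lamzI z ((n : ℤ) + (a i : ℤ))) : ℝ) : ℂ) * ee ((n : ℝ) * θ) +
        ∑ n ∈ Icc 1 N, ((ArithmeticFunction.vonMangoldt n * ∏ i, lamzI z ((n : ℤ) + (a i : ℤ)) : ℝ) : ℂ) * ee ((n : ℝ) * θ) := by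
      rw [← sum_add_distrib]
      apply sum_congr rfl
      intro n _
      push_cast
      ring
    rw [g7]
    refine (norm_add_le _ _).trans ?_
    have g8 : (N : ℝ) / L ^ (U + 5) ≤ N / L ^ 2 := by
      apply div_le_div_of_nonneg_left hN0.le (by positivity)
      exact pow_le_pow_right₀ hL1 (by omega)
    have g9 : 3 * ((N : ℝ) / L ^ 2) ≤ N / L := by
      calc 3 * ((N : ℝ) / L ^ 2) = (3 / L) * (N / L) := by field_simp
        _ ≤ 1 * (N / L) := by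
            apply mul_le_mul_of_nonneg_right _ (by positivity)
            rw [div_le_one hL0]
            linarith
        _ = _ := one_mul _
    linarith
  refine (sum_le_sum hpt).trans ?_
  rw [sum_add_distrib]
  have hX : ∑ m ∈ Fintype.piFinset Ω, ∑ h ∈ Hs, C * ((∏ i, p i (m i)) * Dw (cw h) m + (∏ i, p i (m i)) * Dw (sw h) m) ≤
      (Hs.card : ℝ) * (C * (2 * (N / L ^ (2 * (U + 1) + 6)))) := by
    rw [sum_comm]
    refine (sum_le_sum (g := fun _ => C * (2 * (N / L ^ (2 * (U + 1) + 6)))) fun h _ => ?_).trans ?_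
    · rw [← mul_sum, sum_add_distrib]
      apply mul_le_mul_of_nonneg_left _ hC0.le
      have g1 := hdiff (cw h) (hcw1 h)
      have g2 := hdiff (sw h) (hsw1 h)
      linarith
    · rw [sum_const, nsmul_eq_mul]
  rw [← hLdef]
  have hY : (Hs.card : ℝ) * (C * (2 * (N / L ^ (2 * (U + 1) + 6)))) = 2 * (Hs.card : ℝ) / L ^ 2 * (1 / L ^ (U + 1)) := by
    rw [hC, show 2 * (U + 1) + 6 = (U + 5) + 2 + (U + 1) by ring, pow_add L (U + 5 + 2), pow_add L (U + 5) 2]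
    exact alg1 _ _ _ _ _ (by positivity) (by positivity) (by positivity) hN0
  rw [hY] at hX
  calc _ ≤ 1 / L ^ (U + 1) + 2 * (Hs.card : ℝ) / L ^ 2 * (1 / L ^ (U + 1)) := add_le_add b2 hX
    _ = (1 + 2 * (Hs.card : ℝ) / L ^ 2) / L * (1 / L ^ U) := by
        rw [pow_succ L U]
        exact alg2 _ _ _ (by positivity) hL0
    _ ≤ 1 * (1 / L ^ U) := by
        apply mul_le_mul_of_nonneg_right _ (by positivity)
        rw [div_le_one hL0]
        have g1 : 2 * (Hs.card : ℝ) / L ^ 2 ≤ 1 := by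
          rw [div_le_one (by positivity)]
          nlinarith only [hL, hL4, q0, q1, q2]
        linarith
    _ = _ := one_mul _

end Pool.Agent.Run7.h609.BT
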