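import Mathlib
import Pool.Agent.Run7.h609.BT.D
import Pool.Agent.Run7.h794.MK.Stm2
import Pool.Agent.N384.MQ.Flat

/-!
# Prime tuples in Bohr sets (helper609): shifts near the members of short families
-/

set_option autoImplicit false
set_option maxHeartbeats 4000000

namespace Pool.Agent.Run7.h609.BT

open Finset
open Pool.Agent.H807R2.Dav (ee norm_ee ee_add ee_int ee_pow)
open Pool.Agent.N384.MQ (Sm Flat)
open Pool.Agent.Run7.h794.MK (Msh S_FLT)
open Pool.Agent.N469.PT (OneLaw)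

section
variable {ι : Type}

open Classical in
/-- the distribution of the values of a family -/
noncomputable def dis {q : ℕ} (s : Finset ι) (y : ι → ZMod q) (v : ℕ) : ℝ :=
  ((s.filter (fun i => (y i).val = v)).card : ℝ) / s.card

lemma dis_nonneg {q : ℕ} (s : Finset ι) (y : ι → ZMod q) (v : ℕ) : 0 ≤ dis s y v := by
  unfold dis
  positivity

lemma dis_sum {q : ℕ} [NeZero q] (s : Finset ι) (y : ι → ZMod q) (g : ℕ → ℂ) :
    ∑ v ∈ range q, (dis s y v : ℂ) * g v = (1 / (s.card : ℂ)) * ∑ i ∈ s, g (y i).val := by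
  classical
  have hmaps : ∀ i ∈ s, (y i).val ∈ range q := fun i _ => mem_range.2 (ZMod.val_lt _)
  rw [← sum_fiberwise_of_maps_to (g := fun i => (y i).val) hmaps, mul_sum]
  refine sum_congr rfl fun v _ => ?_
  have h1 : ∑ i ∈ s.filter (fun i => (y i).val = v), g (y i).val = ((s.filter (fun i => (y i).val = v)).card : ℂ) * g v := by
    rw [← nsmul_eq_mul, ← sum_const]
    refine sum_congr rfl fun i hi => ?_
    rw [(mem_filter.1 hi).2]
  rw [h1]
  unfold dis
  push_cast
  ring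

lemma dis_one {q : ℕ} [NeZero q] {s : Finset ι} (hs : s.Nonempty) (y : ι → ZMod q) :
    ∑ v ∈ range q, dis s y v = 1 := by
  have hs0 : (s.card : ℂ) ≠ 0 := by exact_mod_cast hs.card_pos.ne'
  have h := dis_sum s y (fun _ => 1)
  simp only [mul_one, sum_const, nsmul_eq_mul] at h
  rw [one_div, inv_mul_cancel₀ hs0] at h
  exact_mod_cast h

lemma std_ee (q : ℕ) [NeZero q] (n : ℤ) :
    (ZMod.stdAddChar ((n : ℤ) : ZMod q) : ℂ) = ee ((n : ℝ) / q) := by
  rw [ZMod.stdAddChar_coe]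
  unfold ee
  congr 1
  push_cast
  ring

/-- the distribution of a flat family -/
lemma sm_dis {q : ℕ} [NeZero q] {η : ℝ} {s : Finset ι} (hs : s.Nonempty) {y : ι → ZMod q} (hf : Flat q η s y) :
    Sm q η (fun v => (dis s y v : ℂ)) := by
  have hq1 : 1 ≤ q := Nat.pos_of_ne_zero (NeZero.ne q)
  have hs0 : (0 : ℝ) < s.card := by exact_mod_cast hs.card_pos
  refine ⟨hq1, ?_, fun h hh => ?_⟩
  · rw [← Complex.ofReal_sum, dis_one hs y]
    simp
  · rw [dis_sum s y (fun v => ee ((h : ℝ) * v / q))]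
    have h1 : ∑ i ∈ s, ee ((h : ℝ) * (((y i).val : ℕ) : ℝ) / q) = ∑ i ∈ s, (ZMod.stdAddChar ((h : ZMod q) * y i) : ℂ) := by
      refine sum_congr rfl fun i _ => ?_
      have e1 : (h : ZMod q) * y i = ((h * ((y i).val : ℤ) : ℤ) : ZMod q) := by
        push_cast
        rw [ZMod.natCast_zmod_val]
      rw [e1, std_ee]
      congr 1
      push_cast
      ring
    have h2 := hf (h : ZMod q) (by
      intro h0
      exact hh ((ZMod.intCast_zmod_eq_zero_iff_dvd h q).1 h0))
    rw [h1, norm_mul, norm_div, norm_one, Complex.norm_natCast]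
    calc 1 / (s.card : ℝ) * ‖∑ i ∈ s, (ZMod.stdAddChar ((h : ZMod q) * y i) : ℂ)‖ ≤
        1 / (s.card : ℝ) * (η * s.card) := mul_le_mul_of_nonneg_left h2 (by positivity)
      _ = η := by field_simp

/-- flat families give short flat distributions -/
lemma msh_dis {V C Bq N q : ℕ} [NeZero q] {s : Finset ι} (hs : s.Nonempty) {y : ι → ZMod q}
    (h1 : (N : ℝ) ^ (1 / 3 : ℝ) * Real.log N ^ C ≤ q) (h2 : q ≤ Bq * N) (hf : Flat q (1 / Real.log N ^ V) s y) :
    Msh V C Bq N q (dis s y) :=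
  ⟨h1, h2, dis_nonneg s y, dis_one hs y, sm_dis hs hf⟩

lemma flat_mono {q : ℕ} [NeZero q] {η η' : ℝ} {s : Finset ι} {y : ι → ZMod q} (hf : Flat q η s y) (h : η ≤ η') :
    Flat q η' s y := fun g hg => (hf g hg).trans (mul_le_mul_of_nonneg_right h (Nat.cast_nonneg _))

end

open Classical in
/-- from probabilities to numbers -/
lemma count_dis {r : ℕ} {ι : Fin r → Type} (q : Fin r → ℕ) [∀ i, NeZero (q i)] (S : ∀ i, Finset (ι i))
    (hS : ∀ i, (S i).Nonempty) (y : ∀ i, ι i → ZMod (q i)) (Q : (Fin r → ℕ) → Prop) (δ : ℝ)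
    (h : ∑ m ∈ Fintype.piFinset (fun i => range (q i)), (if ¬ Q m then ∏ i, dis (S i) (y i) (m i) else 0) ≤ δ) :
    (((Fintype.piFinset S).filter fun n => ¬ Q (fun i => (y i (n i)).val)).card : ℝ) ≤ (∏ i, ((S i).card : ℝ)) * δ := by
  have hX : (0 : ℝ) < ∏ i, ((S i).card : ℝ) := prod_pos fun i _ => by exact_mod_cast (hS i).card_pos
  have hmaps : ∀ n ∈ Fintype.piFinset S, (fun i => (y i (n i)).val) ∈ Fintype.piFinset (fun i => range (q i)) := by
    intro n _
    rw [Fintype.mem_piFinset]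
    exact fun i => mem_range.2 (ZMod.val_lt _)
  have h1 : (((Fintype.piFinset S).filter fun n => ¬ Q (fun i => (y i (n i)).val)).card : ℝ) =
      ∑ m ∈ Fintype.piFinset (fun i => range (q i)), (if ¬ Q m then
        ∏ i, (((S i).filter (fun n => (y i n).val = m i)).card : ℝ) else 0) := by
    rw [card_filter, ← sum_fiberwise_of_maps_to hmaps]
    push_cast
    refine sum_congr rfl fun m _ => ?_
    have h2 : ∀ n ∈ (Fintype.piFinset S).filter (fun n => (fun i => (y i (n i)).val) = m),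
        (if ¬ Q (fun i => (y i (n i)).val) then (1 : ℝ) else 0) = if ¬ Q m then 1 else 0 := by
      intro n hn
      rw [(mem_filter.1 hn).2]
    rw [sum_congr rfl h2, sum_const, nsmul_eq_mul]
    have h3 : (Fintype.piFinset S).filter (fun n => (fun i => (y i (n i)).val) = m) =
        Fintype.piFinset fun i => (S i).filter (fun n => (y i n).val = m i) := by
      ext n
      rw [mem_filter, Fintype.mem_piFinset, Fintype.mem_piFinset]
      constructor
      · rintro ⟨h4, h5⟩ i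
        rw [mem_filter]
        exact ⟨h4 i, congrFun h5 i⟩
      · intro h4
        exact ⟨fun i => (mem_filter.1 (h4 i)).1, funext fun i => (mem_filter.1 (h4 i)).2⟩
    rw [h3, Fintype.card_piFinset]
    push_cast
    split_ifs <;> simp
  rw [h1]
  have h2 : ∑ m ∈ Fintype.piFinset (fun i => range (q i)), (if ¬ Q m then
        ∏ i, (((S i).filter (fun n => (y i n).val = m i)).card : ℝ) else 0) =
      (∏ i, ((S i).card : ℝ)) * ∑ m ∈ Fintype.piFinset (fun i => range (q i)), (if ¬ Q m then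
      ∏ i, dis (S i) (y i) (m i) else 0) := by
    rw [mul_sum]
    refine sum_congr rfl fun m _ => ?_
    split_ifs
    · rw [mul_zero]
    · unfold dis
      rw [prod_div_distrib]
      field_simp
  rw [h2]
  exact mul_le_mul_of_nonneg_left h hX.le

open Classical in
/-- **prime tuples in Bohr sets, with shifts near the members of short families** -/
theorem flat (hF : S_FLT) (k : ℕ) (hk : 1 ≤ k) (r : ℕ) (κ : Fin k → ℕ) (hκ : ∀ i, 1 ≤ κ i) (B W U : ℕ) (η ε : ℝ)
    (hη : 0 < η) (hη1 : η ≤ 1) (hε : 0 < ε) :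
    ∃ M V C N₀ : ℕ, ∀ N : ℕ, N₀ ≤ N → ∀ (q : Fin k → ℕ) [∀ i, NeZero (q i)],
      (∀ i, (N : ℝ) ^ (1 / 3 : ℝ) * Real.log N ^ C ≤ q i) → (∀ i, q i ≤ B * N) →
      ∀ (ι : Fin k → Type) (S : ∀ i, Finset (ι i)) (y : ∀ i, ι i → ZMod (q i)),
      (∀ i, Flat (q i) (1 / Real.log N ^ V) (S i) (y i)) → ∀ c : Fin k → ℕ, (∀ i, c i ≤ B * N) → ∀ α : Fin r → ℝ,
      (∀ h : Fin r → ℤ, h ≠ 0 → (∀ j, |h j| ≤ M) → Bad η N (∑ j, (h j : ℝ) * α j)) →
      (((Fintype.piFinset S).filter fun n => ¬ ∀ t : Fin k → ℕ, (∀ i, (t i : ℝ) ≤ Real.log N ^ W) →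
        Box ε N (fun i => c i + κ i * (y i (n i)).val + t i) α).card : ℝ) ≤
        (∏ i, ((S i).card : ℝ)) / Real.log N ^ U := by
  obtain ⟨U', hU'⟩ : ∃ U', U' = U + (W + 1) * k := ⟨_, rfl⟩
  choose V C hone using fun i => hF (κ i) (B + 1) B (2 * (U' + 1) + 6 + k + 2) (hκ i)
  obtain ⟨M, N₁, h1⟩ := main k hk r η ε hη hη1 hε U' (B + 1) (fun i N Ω p => ∃ q : ℕ, Ω = range q ∧ Msh (V i) (C i) B N q p)
    κ hκ hone
  obtain ⟨Vt, hVt⟩ : ∃ Vt, Vt = ∑ i, V i := ⟨_, rfl⟩
  obtain ⟨Ct, hCt⟩ : ∃ Ct, Ct = ∑ i, C i := ⟨_, rfl⟩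
  have hVi : ∀ i, V i ≤ Vt := fun i => by rw [hVt]; exact single_le_sum (fun _ _ => Nat.zero_le _) (mem_univ i)
  have hCi : ∀ i, C i ≤ Ct := fun i => by rw [hCt]; exact single_le_sum (fun _ _ => Nat.zero_le _) (mem_univ i)
  obtain ⟨N₂, h2⟩ := Pool.Agent.H373R2.T7.ev_L' 2
  obtain ⟨N₃, h3⟩ := Pool.Agent.Y883.T3.ev_log_rpow W 1 1 (by norm_num)
  refine ⟨M, Vt, Ct, N₁ + N₂ + N₃ + 1, fun N hN q _ hq1 hq2 ι S y hf c hc α hα => ?_⟩
  have g2 := h2 N (by omega)
  have g3 := h3 N (by omega)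
  rw [one_mul, Real.rpow_one] at g3
  obtain ⟨L, hLd⟩ : ∃ L, L = Real.log (N : ℝ) := ⟨_, rfl⟩
  have hL0 : 0 < Real.log N := by linarith
  have hL1 : 1 ≤ Real.log N := by linarith
  by_cases hS : ∀ i, (S i).Nonempty
  swap
  · push Not at hS
    obtain ⟨i, hi⟩ := hS
    have he : Fintype.piFinset S = ∅ := by
      rw [eq_empty_iff_forall_notMem]
      intro n hn
      rw [Fintype.mem_piFinset] at hn
      have h9 := hn i
      rw [hi] at h9
      exact absurd h9 (notMem_empty _)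
    rw [he, filter_empty, card_empty, Nat.cast_zero]
    have : 0 ≤ ∏ i, ((S i).card : ℝ) := prod_nonneg fun i _ => Nat.cast_nonneg _
    positivity
  have hMs : ∀ i, Msh (V i) (C i) B N (q i) (dis (S i) (y i)) := fun i => by
    apply msh_dis (hS i)
    · refine le_trans ?_ (hq1 i)
      apply mul_le_mul_of_nonneg_left _ (by positivity)
      exact pow_le_pow_right₀ hL1 (hCi i)
    · exact hq2 i
    · apply flat_mono (hf i)
      exact one_div_le_one_div_of_le (by positivity) (pow_le_pow_right₀ hL1 (hVi i))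
  have hP0 : 0 ≤ ∏ i, ((S i).card : ℝ) := prod_nonneg fun i _ => Nat.cast_nonneg _
  -- one vector `t`
  have hone' : ∀ t : Fin k → ℕ, (∀ i, (t i : ℝ) ≤ Real.log N ^ W) →
      (((Fintype.piFinset S).filter fun n =>
        ¬ Box ε N (fun i => c i + κ i * (y i (n i)).val + t i) α).card : ℝ) ≤
        (∏ i, ((S i).card : ℝ)) * (1 / Real.log N ^ U') := by
    intro t ht
    refine count_dis q S hS y (fun m => Box ε N (fun i => c i + κ i * m i + t i) α) _ ?_
    have h4 := h1 N (by omega) (fun i => range (q i)) (fun i => dis (S i) (y i)) (fun i => ⟨q i, rfl, hMs i⟩)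
      (fun i => c i + t i) (fun i => by
        have h4 := hc i
        have h5 : t i ≤ N := by
          have : (t i : ℝ) ≤ N := (ht i).trans g3
          exact_mod_cast this
        calc c i + t i ≤ B * N + N := by omega
          _ = (B + 1) * N := by ring) α hα
    refine le_trans (le_of_eq ?_) h4
    apply sum_congr rfl
    intro m _
    have h5 : (fun i => c i + κ i * m i + t i) = (fun i => c i + t i + κ i * m i) := by
      funext i
      ring
    rw [h5]
  -- all vectors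
  obtain ⟨R, hR⟩ : ∃ R : ℕ, R = ⌊Real.log (N : ℝ) ^ W⌋₊ := ⟨_, rfl⟩
  obtain ⟨𝒯, h𝒯⟩ : ∃ 𝒯 : Finset (Fin k → ℕ), 𝒯 = Fintype.piFinset fun _ => range (R + 1) := ⟨_, rfl⟩
  have hsub : (Fintype.piFinset S).filter (fun n => ¬ ∀ t : Fin k → ℕ, (∀ i, (t i : ℝ) ≤ Real.log N ^ W) →
        Box ε N (fun i => c i + κ i * (y i (n i)).val + t i) α) ⊆
      𝒯.biUnion fun t => (Fintype.piFinset S).filter fun n =>
        ¬ Box ε N (fun i => c i + κ i * (y i (n i)).val + t i) α := by
    intro n hn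
    rw [mem_filter] at hn
    obtain ⟨hn1, hn2⟩ := hn
    push Not at hn2
    obtain ⟨t, ht1, ht2⟩ := hn2
    rw [mem_biUnion]
    refine ⟨t, ?_, mem_filter.2 ⟨hn1, ht2⟩⟩
    rw [h𝒯, Fintype.mem_piFinset]
    intro i
    rw [mem_range, hR]
    have := Nat.le_floor (ht1 i)
    omega
  have hcard : (𝒯.card : ℝ) ≤ Real.log N ^ ((W + 1) * k) := by
    rw [h𝒯, Fintype.card_piFinset, prod_const, card_range, card_univ, Fintype.card_fin, pow_mul]
    push_cast
    apply pow_le_pow_left₀ (by positivity)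
    have e1 : (R : ℝ) ≤ Real.log N ^ W := by rw [hR]; exact Nat.floor_le (by positivity)
    have e2 : 1 ≤ Real.log (N : ℝ) ^ W := one_le_pow₀ hL1
    rw [pow_succ]
    nlinarith only [e1, e2, g2]
  have hbound : ∀ t ∈ 𝒯, (((Fintype.piFinset S).filter fun n =>
        ¬ Box ε N (fun i => c i + κ i * (y i (n i)).val + t i) α).card : ℝ) ≤
        (∏ i, ((S i).card : ℝ)) * (1 / Real.log N ^ U') := by
    intro t ht
    apply hone'
    intro i
    rw [h𝒯, Fintype.mem_piFinset] at ht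
    have e1 := mem_range.1 (ht i)
    have e2 : t i ≤ R := by omega
    have e3 : (t i : ℝ) ≤ R := by exact_mod_cast e2
    refine e3.trans ?_
    rw [hR]
    exact Nat.floor_le (by positivity)
  calc (((Fintype.piFinset S).filter fun n => ¬ ∀ t : Fin k → ℕ, (∀ i, (t i : ℝ) ≤ Real.log N ^ W) →
        Box ε N (fun i => c i + κ i * (y i (n i)).val + t i) α).card : ℝ) ≤
        ((𝒯.biUnion fun t => (Fintype.piFinset S).filter fun n =>
        ¬ Box ε N (fun i => c i + κ i * (y i (n i)).val + t i) α).card : ℝ) := by exact_mod_cast card_le_card hsub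
    _ ≤ ∑ t ∈ 𝒯, (((Fintype.piFinset S).filter fun n =>
        ¬ Box ε N (fun i => c i + κ i * (y i (n i)).val + t i) α).card : ℝ) := by exact_mod_cast card_biUnion_le
    _ ≤ ∑ _t ∈ 𝒯, (∏ i, ((S i).card : ℝ)) * (1 / Real.log N ^ U') := sum_le_sum hbound
    _ = (𝒯.card : ℝ) * ((∏ i, ((S i).card : ℝ)) * (1 / Real.log N ^ U')) := by rw [sum_const, nsmul_eq_mul]
    _ ≤ Real.log N ^ ((W + 1) * k) * ((∏ i, ((S i).card : ℝ)) * (1 / Real.log N ^ U')) :=
        mul_le_mul_of_nonneg_right hcard (by positivity)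
    _ = _ := by
        rw [hU', pow_add]
        field_simp

end Pool.Agent.Run7.h609.BT
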