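import Mathlib
import Pool.Agent.Run7.h609.BT.D

/-!
# Prime tuples in Bohr sets (helper609): a condition on each member of the tuple
-/

set_option autoImplicit false
set_option maxHeartbeats 4000000

namespace Pool.Agent.Run7.h609.BT

open Finset MeasureTheory
open Pool.Agent.H373R2.T7

/-- an arc contains all or nothing of a cell which does not contain one of its end points -/
lemma arc_const (K : ℕ) (hK : 0 < K) (s l : ℝ) (hl1 : l ≤ 1) (c : ℕ) (hc : c < K)
    (h1 : ⌊(K : ℝ) * Int.fract (-s)⌋₊ ≠ c) (h2 : ⌊(K : ℝ) * Int.fract (l - s)⌋₊ ≠ c) (x y : ℝ)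
    (hx : (c : ℝ) / K ≤ x) (hx' : x < ((c : ℝ) + 1) / K) (hy : (c : ℝ) / K ≤ y) (hy' : y < ((c : ℝ) + 1) / K)
    (h : Int.fract (x + s) < l) : Int.fract (y + s) < l := by
  have hK0 : (0 : ℝ) < K := by exact_mod_cast hK
  have hcK : ((c : ℝ) + 1) / K ≤ 1 := by
    rw [div_le_one hK0]
    exact_mod_cast hc
  have hc0 : 0 ≤ (c : ℝ) / K := by positivity
  -- a point of the cell which is congruent to `t`
  have key : ∀ (t w : ℝ) (m : ℤ), w = t + m → (c : ℝ) / K ≤ w → w < ((c : ℝ) + 1) / K → ⌊(K : ℝ) * Int.fract t⌋₊ = c := by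
    intro t w m hw hw1 hw2
    have e1 : Int.fract t = w := by
      rw [Int.fract_eq_iff]
      refine ⟨by linarith, by linarith, -m, ?_⟩
      rw [hw]
      push_cast
      ring
    rw [e1, Nat.floor_eq_iff (by
      have : 0 ≤ w := by linarith
      positivity)]
    rw [div_le_iff₀ hK0] at hw1
    rw [lt_div_iff₀ hK0] at hw2
    constructor <;> linarith
  by_contra hcon
  push Not at hcon
  have f1 : Int.fract (x + s) = x + s - ⌊x + s⌋ := rfl
  have f2 := Int.fract_nonneg (x + s)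
  rw [f1] at h f2
  obtain ⟨m, hm⟩ : ∃ m : ℤ, m = ⌊x + s⌋ := ⟨_, rfl⟩
  rw [← hm] at h f2
  have hsmall : (m : ℝ) ≤ y + s → y + s < m + l → False := by
    intro g1 g2
    have e1 : Int.fract (y + s) = y + s - m := by
      rw [Int.fract_eq_iff]
      exact ⟨by linarith, by linarith, m, by ring⟩
    rw [e1] at hcon
    linarith
  rcases le_or_gt x y with hxy | hxy
  · apply h2
    have g1 : (m : ℝ) + l ≤ y + s := by
      by_contra g2
      push Not at g2
      exact hsmall (by linarith) g2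
    exact key (l - s) (l - s + m) m rfl (by linarith) (by linarith)
  · apply h1
    have g1 : y + s < m := by
      by_contra g2
      push Not at g2
      exact hsmall g2 (by linarith)
    exact key (-s) (-s + m) m rfl (by linarith) (by linarith)

/-- the cell of a number -/
lemma cell_iff (K : ℕ) (hK : 0 < K) (c : ℕ) (hc : c < K) (x : ℝ) :
    Int.fract (x - (c : ℝ) / K) < ((c : ℝ) + 1) / K - (c : ℝ) / K ↔ ⌊(K : ℝ) * Int.fract x⌋₊ = c := by
  have hK0 : (0 : ℝ) < K := by exact_mod_cast hK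
  have hcK : ((c : ℝ) + 1) / K ≤ 1 := by
    rw [div_le_one hK0]
    exact_mod_cast hc
  have hc0 : 0 ≤ (c : ℝ) / K := by positivity
  have f0 : 0 ≤ (K : ℝ) * Int.fract x := mul_nonneg hK0.le (Int.fract_nonneg _)
  constructor
  · intro h
    have f1 : Int.fract (x - (c : ℝ) / K) = x - c / K - ⌊x - (c : ℝ) / K⌋ := rfl
    have f2 := Int.fract_nonneg (x - (c : ℝ) / K)
    rw [f1] at h f2
    obtain ⟨m, hm⟩ : ∃ m : ℤ, m = ⌊x - (c : ℝ) / K⌋ := ⟨_, rfl⟩
    rw [← hm] at h f2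
    have e1 : Int.fract x = x - m := by
      rw [Int.fract_eq_iff]
      exact ⟨by linarith, by linarith, m, by ring⟩
    rw [e1, Nat.floor_eq_iff (mul_nonneg hK0.le (by linarith))]
    constructor
    · have : (c : ℝ) / K ≤ x - m := by linarith
      rw [div_le_iff₀ hK0] at this
      linarith
    · have : x - m < ((c : ℝ) + 1) / K := by linarith
      rw [lt_div_iff₀ hK0] at this
      linarith
  · intro h
    rw [Nat.floor_eq_iff f0] at h
    have e1 : (c : ℝ) / K ≤ Int.fract x := by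
      rw [div_le_iff₀ hK0]
      linarith [h.1]
    have e2 : Int.fract x < ((c : ℝ) + 1) / K := by
      rw [lt_div_iff₀ hK0]
      linarith [h.2]
    have e3 : Int.fract (x - (c : ℝ) / K) = Int.fract x - c / K := by
      rw [Int.fract_eq_iff]
      refine ⟨by linarith, by linarith, ⌊x⌋, ?_⟩
      have : Int.fract x = x - ⌊x⌋ := rfl
      rw [this]
      ring
    rw [e3]
    linarith

/-- the measure of an intersection of arcs -/
noncomputable def arcs {k : ℕ} (s l : Fin (k + 1) → ℝ) : ℝ :=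
  (volume {x : ℝ | 0 ≤ x ∧ x < 1 ∧ ∀ i, Int.fract (x + s i) < l i}).toReal

/-- full cells and nonempty cells of an intersection of arcs -/
lemma cells (K : ℕ) (hK : 0 < K) {k : ℕ} (s l : Fin (k + 1) → ℝ) (hl1 : ∀ i, l i ≤ 1) :
    ∃ G H : Finset ℕ, G ⊆ H ∧ H ⊆ range K ∧ (H.card : ℝ) ≤ G.card + 2 * (k + 1) ∧
      (G.card : ℝ) / K ≤ arcs s l ∧ arcs s l ≤ (H.card : ℝ) / K ∧
      (∀ x : ℝ, ⌊(K : ℝ) * Int.fract x⌋₊ ∈ G → ∀ i, Int.fract (x + s i) < l i) ∧
      (∀ x : ℝ, (∀ i, Int.fract (x + s i) < l i) → ⌊(K : ℝ) * Int.fract x⌋₊ ∈ H) := by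
  classical
  have hK0 : (0 : ℝ) < K := by exact_mod_cast hK
  obtain ⟨P, hP⟩ : ∃ P : Finset ℕ, P = (univ.image fun i : Fin (k + 1) => ⌊(K : ℝ) * Int.fract (-(s i))⌋₊) ∪
    (univ.image fun i : Fin (k + 1) => ⌊(K : ℝ) * Int.fract (l i - s i)⌋₊) := ⟨_, rfl⟩
  have hcellK : ∀ x : ℝ, ⌊(K : ℝ) * Int.fract x⌋₊ < K := by
    intro x
    rw [Nat.floor_lt (mul_nonneg hK0.le (Int.fract_nonneg _))]
    have := Int.fract_lt_one x
    nlinarith only [this, hK0]
  have hPK : P ⊆ range K := by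
    rw [hP]
    apply union_subset
    · intro c hc
      rw [mem_image] at hc
      obtain ⟨i, _, rfl⟩ := hc
      exact mem_range.2 (hcellK _)
    · intro c hc
      rw [mem_image] at hc
      obtain ⟨i, _, rfl⟩ := hc
      exact mem_range.2 (hcellK _)
  have hPc : P.card ≤ 2 * (k + 1) := by
    rw [hP]
    refine (card_union_le _ _).trans ?_
    have h1 : (univ.image fun i : Fin (k + 1) => ⌊(K : ℝ) * Int.fract (-(s i))⌋₊).card ≤ k + 1 := by
      refine card_image_le.trans ?_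
      rw [card_univ, Fintype.card_fin]
    have h2 : (univ.image fun i : Fin (k + 1) => ⌊(K : ℝ) * Int.fract (l i - s i)⌋₊).card ≤ k + 1 := by
      refine card_image_le.trans ?_
      rw [card_univ, Fintype.card_fin]
    omega
  obtain ⟨G, hG⟩ : ∃ G : Finset ℕ, G = ((range K) \ P).filter (fun c : ℕ => ∀ i, Int.fract ((c : ℝ) / K + s i) < l i) := ⟨_, rfl⟩
  have hGK : G ⊆ range K := by rw [hG]; exact (filter_subset _ _).trans sdiff_subset
  -- the position of a number in its cell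
  have hpos : ∀ x : ℝ, 0 ≤ x → x < 1 → ((⌊(K : ℝ) * x⌋₊ : ℕ) : ℝ) / K ≤ x ∧ x < (((⌊(K : ℝ) * x⌋₊ : ℕ) : ℝ) + 1) / K := by
    intro x hx0 hx1
    have g1 := Nat.floor_le (mul_nonneg hK0.le hx0)
    have g2 := Nat.lt_floor_add_one ((K : ℝ) * x)
    constructor
    · rw [div_le_iff₀ hK0]
      linarith
    · rw [lt_div_iff₀ hK0]
      linarith
  have hnP : ∀ c ∉ P, ∀ i, ⌊(K : ℝ) * Int.fract (-(s i))⌋₊ ≠ c ∧ ⌊(K : ℝ) * Int.fract (l i - s i)⌋₊ ≠ c := by
    intro c hc i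
    rw [hP, mem_union, not_or, mem_image, mem_image] at hc
    exact ⟨fun h => hc.1 ⟨i, mem_univ _, h⟩, fun h => hc.2 ⟨i, mem_univ _, h⟩⟩
  have hfull : ∀ c ∈ G, ∀ x : ℝ, (c : ℝ) / K ≤ x → x < ((c : ℝ) + 1) / K → ∀ i, Int.fract (x + s i) < l i := by
    intro c hc x hx hx' i
    rw [hG, mem_filter, mem_sdiff] at hc
    obtain ⟨⟨g1, g2⟩, g3⟩ := hc
    have g4 := hnP c g2 i
    refine arc_const K hK (s i) (l i) (hl1 i) c (mem_range.1 g1) g4.1 g4.2 ((c : ℝ) / K) x le_rfl ?_ hx hx' (g3 i)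
    apply div_lt_div_of_pos_right _ hK0
    linarith
  have hempty : ∀ x : ℝ, 0 ≤ x → x < 1 → (∀ i, Int.fract (x + s i) < l i) → ⌊(K : ℝ) * x⌋₊ ∈ G ∪ P := by
    intro x hx0 hx1 hx
    rw [mem_union]
    by_cases hxP : ⌊(K : ℝ) * x⌋₊ ∈ P
    · exact Or.inr hxP
    · left
      have hxf : Int.fract x = x := Int.fract_eq_self.2 ⟨hx0, hx1⟩
      have hcK := hcellK x
      rw [hxf] at hcK
      rw [hG, mem_filter, mem_sdiff]
      refine ⟨⟨mem_range.2 hcK, hxP⟩, fun i => ?_⟩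
      have g4 := hnP _ hxP i
      obtain ⟨g5, g6⟩ := hpos x hx0 hx1
      refine arc_const K hK (s i) (l i) (hl1 i) _ hcK g4.1 g4.2 x _ g5 g6 le_rfl ?_ (hx i)
      apply div_lt_div_of_pos_right _ hK0
      linarith
  have hfs : ∀ (x : ℝ) (i : Fin (k + 1)), Int.fract (Int.fract x + s i) = Int.fract (x + s i) := by
    intro x i
    rw [Int.fract_eq_fract]
    refine ⟨-⌊x⌋, ?_⟩
    have : Int.fract x = x - ⌊x⌋ := rfl
    rw [this]
    push_cast
    ring
  have hvol : ∀ c : ℕ, volume (Set.Ico ((c : ℝ) / K) (((c : ℝ) + 1) / K)) = ENNReal.ofReal (1 / K) := by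
    intro c
    rw [Real.volume_Ico]
    congr 1
    ring
  have hfin : volume {x : ℝ | 0 ≤ x ∧ x < 1 ∧ ∀ i, Int.fract (x + s i) < l i} ≤ ENNReal.ofReal 1 := by
    refine (measure_mono (t := Set.Ico (0 : ℝ) 1) ?_).trans ?_
    · rintro x ⟨h1, h2, _⟩
      exact ⟨h1, h2⟩
    · rw [Real.volume_Ico]
      simp
  refine ⟨G, G ∪ P, subset_union_left, union_subset hGK hPK, ?_, ?_, ?_, ?_, ?_⟩
  · have h1 : (G ∪ P).card ≤ G.card + 2 * (k + 1) := (card_union_le _ _).trans (by omega)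
    exact_mod_cast h1
  · -- the lower bound
    have h1 : volume (⋃ c ∈ G, Set.Ico ((c : ℝ) / K) (((c : ℝ) + 1) / K)) = ENNReal.ofReal ((G.card : ℝ) / K) := by
      rw [measure_biUnion_finset]
      · simp only [hvol]
        rw [sum_const, nsmul_eq_mul, ← ENNReal.ofReal_natCast, ← ENNReal.ofReal_mul (Nat.cast_nonneg _)]
        congr 1
        ring
      · intro c _ c' _ hcc
        rw [Function.onFun, Set.disjoint_left]
        rintro x ⟨h1, h2⟩ ⟨h3, h4⟩
        apply hcc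
        rw [div_le_iff₀ hK0] at h1 h3
        rw [lt_div_iff₀ hK0] at h2 h4
        have h5 : (c : ℝ) < (c' : ℝ) + 1 := by linarith
        have h6 : (c' : ℝ) < (c : ℝ) + 1 := by linarith
        have h7 : c < c' + 1 := by exact_mod_cast h5
        have h8 : c' < c + 1 := by exact_mod_cast h6
        omega
      · intro c _
        exact measurableSet_Ico
    have h2 : volume (⋃ c ∈ G, Set.Ico ((c : ℝ) / K) (((c : ℝ) + 1) / K)) ≤
        volume {x : ℝ | 0 ≤ x ∧ x < 1 ∧ ∀ i, Int.fract (x + s i) < l i} := by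
      apply measure_mono
      intro x hx
      simp only [Set.mem_iUnion] at hx
      obtain ⟨c, hc, h3, h4⟩ := hx
      have h5 : ((c : ℝ) + 1) / K ≤ 1 := by
        rw [div_le_one hK0]
        exact_mod_cast mem_range.1 (hGK hc)
      have h6 : 0 ≤ (c : ℝ) / K := by positivity
      exact ⟨by linarith, by linarith, hfull c hc x h3 h4⟩
    rw [h1] at h2
    unfold arcs
    exact (ENNReal.ofReal_le_iff_le_toReal (ne_top_of_le_ne_top ENNReal.ofReal_ne_top hfin)).1 h2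
  · -- the upper bound
    have h2 : volume {x : ℝ | 0 ≤ x ∧ x < 1 ∧ ∀ i, Int.fract (x + s i) < l i} ≤
        ENNReal.ofReal (((G ∪ P).card : ℝ) / K) := by
      calc volume {x : ℝ | 0 ≤ x ∧ x < 1 ∧ ∀ i, Int.fract (x + s i) < l i} ≤
          volume (⋃ c ∈ G ∪ P, Set.Ico ((c : ℝ) / K) (((c : ℝ) + 1) / K)) := by
            apply measure_mono
            rintro x ⟨h3, h4, h5⟩
            simp only [Set.mem_iUnion]
            exact ⟨_, hempty x h3 h4 h5, hpos x h3 h4⟩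
        _ ≤ ∑ c ∈ G ∪ P, volume (Set.Ico ((c : ℝ) / K) (((c : ℝ) + 1) / K)) := measure_biUnion_finset_le _ _
        _ = _ := by
            simp only [hvol]
            rw [sum_const, nsmul_eq_mul, ← ENNReal.ofReal_natCast, ← ENNReal.ofReal_mul (Nat.cast_nonneg _)]
            congr 1
            ring
    unfold arcs
    exact ENNReal.toReal_le_of_le_ofReal (by positivity) h2
  · intro x hx i
    have h1 := hfull _ hx (Int.fract x) (hpos _ (Int.fract_nonneg _) (Int.fract_lt_one _)).1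
      (hpos _ (Int.fract_nonneg _) (Int.fract_lt_one _)).2 i
    rw [hfs] at h1
    exact h1
  · intro x hx
    apply hempty _ (Int.fract_nonneg _) (Int.fract_lt_one _)
    intro i
    rw [hfs]
    exact hx i

/-- the members of the tuple relative to the first one -/
def sh {k : ℕ} (a : Fin k → ℕ) : Fin (k + 1) → ℕ := Fin.cons 0 a

/-- the prime tuples `n, n + a i` with a condition on each member -/
def Joint {r k : ℕ} (ε : ℝ) (N : ℕ) (a : Fin k → ℕ) (α : Fin r → ℝ) : Prop :=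
  ∃ S : ℝ, Filter.Tendsto (fun z => singZ (fun i => (a i : ℤ)) z) Filter.atTop (nhds S) ∧
    (Admissible (fun i => (a i : ℤ)) → 0 < S ∧ ∀ u v : Fin (k + 1) → Fin r → ℝ, (∀ i j, u i j ≤ v i j) →
      (∀ i j, v i j ≤ u i j + 1) →
      |(((TT a N).filter (fun n : ℕ => ∀ i j, Int.fract (α j * ((n : ℝ) + sh a i) - u i j) < v i j - u i j)).card : ℝ) -
        (∏ j, arcs (fun i => α j * sh a i - u i j) (fun i => v i j - u i j)) * (S * (N / Real.log N ^ (k + 1)))| ≤
          ε * (S * (N / Real.log N ^ (k + 1))))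

/-- from boxes to conditions on each member -/
theorem joint (k r : ℕ) (ε : ℝ) (hε : 0 < ε) : ∃ ε' : ℝ, 0 < ε' ∧ ∀ (N : ℕ) (a : Fin k → ℕ) (α : Fin r → ℝ),
    1 < N → Box ε' N a α → Joint ε N a α := by
  classical
  obtain ⟨K, hKε⟩ : ∃ K : ℕ, 4 * (k + 1) * r / ε + 1 ≤ (K : ℝ) := exists_nat_ge _
  have hK0 : (0 : ℝ) < K := lt_of_lt_of_le (by positivity) hKε
  have hK : 0 < K := by exact_mod_cast hK0
  have hKε2 : (r : ℝ) * (2 * (k + 1)) / K ≤ ε / 2 := by
    rw [div_le_div_iff₀ hK0 (by norm_num)]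
    have h1 : 4 * ((k : ℝ) + 1) * r / ε ≤ K := by linarith
    rw [div_le_iff₀ hε] at h1
    linarith
  refine ⟨ε / 2 / (K : ℝ) ^ r, by positivity, fun N a α hN hB => ?_⟩
  obtain ⟨S, hS, hS1⟩ := hB
  refine ⟨S, hS, fun hadm => ?_⟩
  obtain ⟨hS0, hbox⟩ := hS1 hadm
  refine ⟨hS0, fun u v huv hvu => ?_⟩
  have hNr : (1 : ℝ) < N := by exact_mod_cast hN
  have hL0 : 0 < Real.log (N : ℝ) := Real.log_pos hNr
  obtain ⟨Z, hZ⟩ : ∃ Z, Z = S * ((N : ℝ) / Real.log N ^ (k + 1)) := ⟨_, rfl⟩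
  have hZ0 : 0 < Z := by
    rw [hZ]
    have : (0 : ℝ) < N := by linarith
    positivity
  rw [← hZ] at hbox ⊢
  obtain ⟨sg, hsg⟩ : ∃ sg : Fin r → Fin (k + 1) → ℝ, sg = fun j i => α j * sh a i - u i j := ⟨_, rfl⟩
  obtain ⟨l, hl⟩ : ∃ l : Fin r → Fin (k + 1) → ℝ, l = fun j i => v i j - u i j := ⟨_, rfl⟩
  have hl1 : ∀ j i, l j i ≤ 1 := fun j i => by rw [hl]; linarith [hvu i j]
  choose G H hGH hHK hcard harc1 harc2 hG hH using fun j => cells K hK (sg j) (l j) (hl1 j)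
  obtain ⟨A, hA⟩ : ∃ A : Finset ℕ, A = (TT a N).filter (fun n : ℕ => ∀ i j, Int.fract (α j * ((n : ℝ) + sh a i) - u i j) < v i j - u i j) :=
    ⟨_, rfl⟩
  rw [← hA]
  have hmemA : ∀ n : ℕ, n ∈ A ↔ n ∈ TT a N ∧ ∀ j i, Int.fract (α j * (n : ℝ) + sg j i) < l j i := by
    intro n
    rw [hA, mem_filter, hsg, hl]
    apply and_congr_right
    intro _
    constructor
    · intro h j i
      have h1 := h i j
      have e1 : α j * ((n : ℝ) + sh a i) - u i j = α j * (n : ℝ) + (α j * sh a i - u i j) := by ring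
      rw [e1] at h1
      exact h1
    · intro h i j
      have h1 := h j i
      have e1 : α j * ((n : ℝ) + sh a i) - u i j = α j * (n : ℝ) + (α j * sh a i - u i j) := by ring
      rw [e1]
      exact h1
  -- one cell
  obtain ⟨cnt, hcnt⟩ : ∃ cnt : (Fin r → ℕ) → Finset ℕ, cnt = fun c => (TT a N).filter (fun n : ℕ => ∀ j,
    ⌊(K : ℝ) * Int.fract (α j * (n : ℝ))⌋₊ = c j) := ⟨_, rfl⟩
  have hone : ∀ c : Fin r → ℕ, (∀ j, c j < K) → |((cnt c).card : ℝ) - 1 / (K : ℝ) ^ r * Z| ≤ ε / 2 / (K : ℝ) ^ r * Z := by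
    intro c hc
    have h1 := hbox (fun j => (c j : ℝ) / K) (fun j => ((c j : ℝ) + 1) / K) (fun j => by
      apply div_le_div_of_nonneg_right _ hK0.le
      linarith) (fun j => by
      rw [add_div]
      have : (1 : ℝ) / K ≤ 1 := by
        rw [div_le_one hK0]
        exact_mod_cast hK
      linarith)
    have h2 : ∏ j : Fin r, (((c j : ℝ) + 1) / K - (c j : ℝ) / K) = 1 / (K : ℝ) ^ r := by
      have h3 : ∀ j ∈ (univ : Finset (Fin r)), (((c j : ℝ) + 1) / K - (c j : ℝ) / K) = 1 / (K : ℝ) := by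
        intro j _
        ring
      rw [prod_congr rfl h3, prod_const, card_univ, Fintype.card_fin, one_div, one_div, inv_pow]
    rw [h2] at h1
    have h3 : (TT a N).filter (fun n : ℕ => ∀ j, Int.fract (α j * (n : ℝ) - (c j : ℝ) / K) < ((c j : ℝ) + 1) / K - (c j : ℝ) / K) =
        cnt c := by
      rw [hcnt]
      apply filter_congr
      intro n _
      apply forall_congr'
      intro j
      exact cell_iff K hK (c j) (hc j) _
    rw [h3] at h1
    exact h1
  -- unions of cells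
  have hunion : ∀ Q : Fin r → Finset ℕ, (((TT a N).filter (fun n : ℕ => ∀ j, ⌊(K : ℝ) * Int.fract (α j * (n : ℝ))⌋₊ ∈ Q j)).card : ℝ) =
      ∑ c ∈ Fintype.piFinset Q, ((cnt c).card : ℝ) := by
    intro Q
    have h1 : ((TT a N).filter (fun n : ℕ => ∀ j, ⌊(K : ℝ) * Int.fract (α j * (n : ℝ))⌋₊ ∈ Q j)).card =
        ∑ c ∈ Fintype.piFinset Q, (((TT a N).filter (fun n : ℕ => ∀ j, ⌊(K : ℝ) * Int.fract (α j * (n : ℝ))⌋₊ ∈ Q j)).filter
          (fun n : ℕ => (fun j => ⌊(K : ℝ) * Int.fract (α j * (n : ℝ))⌋₊) = c)).card := by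
      apply card_eq_sum_card_fiberwise
      intro n hn
      rw [mem_coe, mem_filter] at hn
      rw [mem_coe, Fintype.mem_piFinset]
      exact hn.2
    rw [h1]
    push_cast
    apply sum_congr rfl
    intro c hc
    rw [Fintype.mem_piFinset] at hc
    congr 2
    rw [hcnt, filter_filter]
    apply filter_congr
    intro n _
    constructor
    · rintro ⟨_, h3⟩ j
      exact congrFun h3 j
    · intro h2
      refine ⟨fun j => ?_, funext h2⟩
      rw [h2 j]
      exact hc j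
  -- the bounds
  have hup : (A.card : ℝ) ≤ ∑ c ∈ Fintype.piFinset H, ((cnt c).card : ℝ) := by
    rw [← hunion]
    have h1 : A ⊆ (TT a N).filter (fun n : ℕ => ∀ j, ⌊(K : ℝ) * Int.fract (α j * (n : ℝ))⌋₊ ∈ H j) := by
      intro n hn
      rw [hmemA] at hn
      rw [mem_filter]
      exact ⟨hn.1, fun j => hH j _ (hn.2 j)⟩
    exact_mod_cast card_le_card h1
  have hlo : ∑ c ∈ Fintype.piFinset G, ((cnt c).card : ℝ) ≤ (A.card : ℝ) := by
    rw [← hunion]
    have h1 : (TT a N).filter (fun n : ℕ => ∀ j, ⌊(K : ℝ) * Int.fract (α j * (n : ℝ))⌋₊ ∈ G j) ⊆ A := by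
      intro n hn
      rw [mem_filter] at hn
      rw [hmemA]
      exact ⟨hn.1, fun j => hG j _ (hn.2 j)⟩
    exact_mod_cast card_le_card h1
  have hbd : ∀ Q : Fin r → Finset ℕ, (∀ j, Q j ⊆ range K) →
      |∑ c ∈ Fintype.piFinset Q, ((cnt c).card : ℝ) - (∏ j, ((Q j).card : ℝ) / K) * Z| ≤ ε / 2 * Z := by
    intro Q hQ
    have h1 : (∏ j, ((Q j).card : ℝ) / K) * Z = ∑ _c ∈ Fintype.piFinset Q, 1 / (K : ℝ) ^ r * Z := by
      rw [sum_const, nsmul_eq_mul, Fintype.card_piFinset, prod_div_distrib, prod_const, card_univ, Fintype.card_fin]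
      push_cast
      ring
    have h2 : ((Fintype.piFinset Q).card : ℝ) ≤ (K : ℝ) ^ r := by
      have h3 : (Fintype.piFinset Q).card ≤ K ^ r := by
        rw [Fintype.card_piFinset]
        calc ∏ j, (Q j).card ≤ ∏ _j : Fin r, K := prod_le_prod' fun j _ => by
              have := card_le_card (hQ j)
              rwa [card_range] at this
          _ = K ^ r := by rw [prod_const, card_univ, Fintype.card_fin]
      exact_mod_cast h3
    rw [h1, ← sum_sub_distrib]
    refine (abs_sum_le_sum_abs _ _).trans ?_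
    refine (sum_le_sum (g := fun _ => ε / 2 / (K : ℝ) ^ r * Z) fun c hc => ?_).trans ?_
    · rw [Fintype.mem_piFinset] at hc
      exact hone c fun j => mem_range.1 (hQ j (hc j))
    · rw [sum_const, nsmul_eq_mul]
      calc ((Fintype.piFinset Q).card : ℝ) * (ε / 2 / (K : ℝ) ^ r * Z) ≤ (K : ℝ) ^ r * (ε / 2 / (K : ℝ) ^ r * Z) :=
            mul_le_mul_of_nonneg_right h2 (by positivity)
        _ = _ := by field_simp
  have hb1 := hbd H hHK
  have hb2 := hbd G (fun j => (hGH j).trans (hHK j))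
  -- the products
  have hle1 : ∀ Q : Finset ℕ, Q ⊆ range K → (Q.card : ℝ) / K ≤ 1 := by
    intro Q hQ
    rw [div_le_one hK0]
    have := card_le_card hQ
    rw [card_range] at this
    exact_mod_cast this
  have hprod : |∏ j, ((H j).card : ℝ) / K - ∏ j, ((G j).card : ℝ) / K| ≤ ε / 2 := by
    refine (Pool.Agent.Run7.h609.MK.prod_diff univ _ _ (fun j _ => ⟨by positivity, hle1 _ (hHK j)⟩)
      (fun j _ => ⟨by positivity, hle1 _ ((hGH j).trans (hHK j))⟩)).trans ?_
    refine le_trans ?_ hKε2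
    refine (sum_le_sum (g := fun _ => (2 * ((k : ℝ) + 1)) / K) fun j _ => ?_).trans ?_
    · have h1 : ((G j).card : ℝ) ≤ (H j).card := by exact_mod_cast card_le_card (hGH j)
      rw [← sub_div, abs_of_nonneg (div_nonneg (by linarith) hK0.le)]
      apply div_le_div_of_nonneg_right _ hK0.le
      linarith [hcard j]
    · rw [sum_const, card_univ, Fintype.card_fin, nsmul_eq_mul]
      apply le_of_eq
      ring
  have hpr1 : ∏ j, ((G j).card : ℝ) / K ≤ ∏ j, arcs (sg j) (l j) :=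
    prod_le_prod (fun j _ => by positivity) (fun j _ => harc1 j)
  have hpr2 : ∏ j, arcs (sg j) (l j) ≤ ∏ j, ((H j).card : ℝ) / K :=
    prod_le_prod (fun j _ => (by positivity : (0 : ℝ) ≤ ((G j).card : ℝ) / K).trans (harc1 j)) (fun j _ => harc2 j)
  have harceq : ∏ j, arcs (fun i => α j * sh a i - u i j) (fun i => v i j - u i j) = ∏ j, arcs (sg j) (l j) := by
    rw [hsg, hl]
  rw [harceq]
  obtain ⟨x1, hx1⟩ : ∃ x1, x1 = ∏ j, ((G j).card : ℝ) / K := ⟨_, rfl⟩
  obtain ⟨x2, hx2⟩ : ∃ x2, x2 = ∏ j, ((H j).card : ℝ) / K := ⟨_, rfl⟩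
  obtain ⟨x3, hx3⟩ : ∃ x3, x3 = ∏ j, arcs (sg j) (l j) := ⟨_, rfl⟩
  rw [← hx1] at hb2 hprod hpr1
  rw [← hx2] at hb1 hprod hpr2
  rw [← hx3] at hpr1 hpr2 ⊢
  obtain ⟨b1, b2⟩ := abs_le.1 hb1
  obtain ⟨b3, b4⟩ := abs_le.1 hb2
  obtain ⟨b5, b6⟩ := abs_le.1 hprod
  have m1 : x2 * Z ≤ x3 * Z + ε / 2 * Z := by
    have := mul_le_mul_of_nonneg_right (show x2 ≤ x3 + ε / 2 by linarith) hZ0.le
    linarith
  have m2 : x3 * Z ≤ x1 * Z + ε / 2 * Z := by
    have := mul_le_mul_of_nonneg_right (show x3 ≤ x1 + ε / 2 by linarith) hZ0.le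
    linarith
  rw [abs_le]
  constructor <;> linarith

end Pool.Agent.Run7.h609.BT
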