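import Mathlib
import Pool.Agent.Run7.h609.BT.E
import Pool.Agent.Run7.h609.BT.F

/-!
# Displaced windows (helper609): all sub-patterns at once
-/

set_option autoImplicit false
set_option maxHeartbeats 4000000

namespace Pool.Agent.Run7.h609.BT

open Finset
open Pool.Agent.H373R2.T7
open Pool.Agent.N384.MQ (Flat)
open Pool.Agent.Run7.h794.MK (S_FLT)

open Classical in
/-- a condition on some of the coordinates -/
lemma sub_count {K : ℕ} {ι : Fin K → Type} (S : ∀ i, Finset (ι i)) {k : ℕ} (e : Fin k → Fin K) (he : Function.Injective e)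
    (Q : (∀ j, ι (e j)) → Prop) (δ : ℝ)
    (h : (((Fintype.piFinset fun j => S (e j)).filter fun m => ¬ Q m).card : ℝ) ≤ (∏ j, ((S (e j)).card : ℝ)) * δ) :
    (((Fintype.piFinset S).filter fun n => ¬ Q (fun j => n (e j))).card : ℝ) ≤ (∏ i, ((S i).card : ℝ)) * δ := by
  have h1 : ((Fintype.piFinset S).filter fun n => ¬ Q (fun j => n (e j))).card ≤
      (((Fintype.piFinset fun j => S (e j)).filter fun m => ¬ Q m) ×ˢ
        (Fintype.piFinset fun i : {i // i ∉ Set.range e} => S i)).card := by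
    apply card_le_card_of_injOn (fun n => (fun j => n (e j), fun i : {i // i ∉ Set.range e} => n i))
    · intro n hn
      rw [mem_coe, mem_filter, Fintype.mem_piFinset] at hn
      rw [mem_coe, mem_product, mem_filter, Fintype.mem_piFinset, Fintype.mem_piFinset]
      exact ⟨⟨fun j => hn.1 (e j), hn.2⟩, fun i => hn.1 i⟩
    · intro n _ n' _ hnn
      simp only [Prod.mk.injEq] at hnn
      funext i
      by_cases hi : i ∈ Set.range e
      · obtain ⟨j, rfl⟩ := hi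
        exact congrFun hnn.1 j
      · exact congrFun hnn.2 ⟨i, hi⟩
  have h2 : ∏ i, ((S i).card : ℝ) = (∏ j, ((S (e j)).card : ℝ)) * ∏ i : {i // i ∉ Set.range e}, ((S i).card : ℝ) := by
    rw [← prod_mul_prod_compl (univ.image e) (fun i => ((S i).card : ℝ)), prod_image (fun j _ j' _ hjj => he hjj)]
    congr 1
    apply prod_subtype
    intro i
    rw [mem_compl, mem_image]
    simp
  have h3 : (((Fintype.piFinset S).filter fun n => ¬ Q (fun j => n (e j))).card : ℝ) ≤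
      (((Fintype.piFinset fun j => S (e j)).filter fun m => ¬ Q m).card : ℝ) *
        ((Fintype.piFinset fun i : {i // i ∉ Set.range e} => S i).card : ℝ) := by
    rw [card_product] at h1
    exact_mod_cast h1
  refine h3.trans ?_
  rw [Fintype.card_piFinset, h2]
  push_cast
  have h4 : 0 ≤ ∏ i : {i // i ∉ Set.range e}, ((S i).card : ℝ) := prod_nonneg fun i _ => Nat.cast_nonneg _
  have h5 := mul_le_mul_of_nonneg_right h h4
  linarith

open Classical in
/-- **displaced windows**: all sub-patterns at once -/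
theorem windows (hF : S_FLT) (K r B W U P : ℕ) (κ : Fin K → ℕ) (hP : 1 ≤ P) (hκ : ∀ i, 1 ≤ κ i) (η ε : ℝ)
    (hη : 0 < η) (hη1 : η ≤ 1) (hε : 0 < ε) :
    ∃ M V C N₀ : ℕ, ∀ N : ℕ, N₀ ≤ N → ∀ (q : Fin K → ℕ) [∀ i, NeZero (q i)],
      (∀ i, (N : ℝ) ^ (1 / 3 : ℝ) * Real.log N ^ C ≤ q i) → (∀ i, q i ≤ B * N) →
      ∀ (ι : Fin K → Type) (S : ∀ i, Finset (ι i)) (y : ∀ i, ι i → ZMod (q i)),
      (∀ i, Flat (q i) (1 / Real.log N ^ V) (S i) (y i)) → ∀ c : Fin K → ℕ, (∀ i, c i ≤ B * N) → ∀ α : Fin r → ℝ,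
      (∀ h : Fin r → ℤ, h ≠ 0 → (∀ j, |h j| ≤ M) → Bad η N (∑ j, (h j : ℝ) * α j)) →
      (((Fintype.piFinset S).filter fun n => ¬ ∀ t : Fin K → ℕ, (∀ i, (t i : ℝ) ≤ Real.log N ^ W) →
        ∀ (k : ℕ) (e : Fin k → Fin K), 1 ≤ k → Function.Injective e →
        Box ε N (fun j => (e j : ℕ) + 1 + P * (c (e j) + κ (e j) * (y (e j) (n (e j))).val + t (e j))) α).card : ℝ) ≤
        (∏ i, ((S i).card : ℝ)) / Real.log N ^ U := by
  -- the finitely many sub-patterns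
  have key : ∀ x : (Σ k : Fin (K + 1), (Fin k → Fin K)), ∃ M V C N₀ : ℕ, 1 ≤ (x.1 : ℕ) → ∀ N : ℕ, N₀ ≤ N →
      ∀ (q : Fin (x.1 : ℕ) → ℕ) [∀ i, NeZero (q i)],
      (∀ i, (N : ℝ) ^ (1 / 3 : ℝ) * Real.log N ^ C ≤ q i) → (∀ i, q i ≤ (P * B + 1) * N) →
      ∀ (ι : Fin (x.1 : ℕ) → Type) (S : ∀ i, Finset (ι i)) (y : ∀ i, ι i → ZMod (q i)),
      (∀ i, Flat (q i) (1 / Real.log N ^ V) (S i) (y i)) → ∀ c : Fin (x.1 : ℕ) → ℕ, (∀ i, c i ≤ (P * B + 1) * N) →
      ∀ α : Fin r → ℝ, (∀ h : Fin r → ℤ, h ≠ 0 → (∀ j, |h j| ≤ M) → Bad η N (∑ j, (h j : ℝ) * α j)) →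
      (((Fintype.piFinset S).filter fun n => ¬ ∀ t : Fin (x.1 : ℕ) → ℕ, (∀ i, (t i : ℝ) ≤ Real.log N ^ (W + 1)) →
        Box ε N (fun i => c i + (P * κ (x.2 i)) * (y i (n i)).val + t i) α).card : ℝ) ≤
        (∏ i, ((S i).card : ℝ)) / Real.log N ^ (U + 1) := by
    intro x
    by_cases hx : 1 ≤ (x.1 : ℕ)
    · obtain ⟨M, V, C, N₀, h⟩ := flat hF (x.1 : ℕ) hx r (fun i => P * κ (x.2 i)) (fun i => Nat.mul_pos hP (hκ _))
        (P * B + 1) (W + 1) (U + 1) η ε hη hη1 hε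
      exact ⟨M, V, C, N₀, fun _ => h⟩
    · exact ⟨0, 0, 0, 0, fun h => absurd h hx⟩
  choose M V C N₀ hkey using key
  obtain ⟨Mt, hMt⟩ : ∃ Mt, Mt = ∑ x, M x := ⟨_, rfl⟩
  obtain ⟨Vt, hVt⟩ : ∃ Vt, Vt = ∑ x, V x := ⟨_, rfl⟩
  obtain ⟨Ct, hCt⟩ : ∃ Ct, Ct = ∑ x, C x := ⟨_, rfl⟩
  obtain ⟨Nt, hNt⟩ : ∃ Nt, Nt = ∑ x, N₀ x := ⟨_, rfl⟩
  have hM : ∀ x, M x ≤ Mt := fun x => by rw [hMt]; exact single_le_sum (fun _ _ => Nat.zero_le _) (mem_univ x)
  have hV : ∀ x, V x ≤ Vt := fun x => by rw [hVt]; exact single_le_sum (fun _ _ => Nat.zero_le _) (mem_univ x)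
  have hC : ∀ x, C x ≤ Ct := fun x => by rw [hCt]; exact single_le_sum (fun _ _ => Nat.zero_le _) (mem_univ x)
  have hN : ∀ x, N₀ x ≤ Nt := fun x => by rw [hNt]; exact single_le_sum (fun _ _ => Nat.zero_le _) (mem_univ x)
  obtain ⟨X, hX⟩ : ∃ X : ℕ, X = Fintype.card (Σ k : Fin (K + 1), (Fin k → Fin K)) := ⟨_, rfl⟩
  obtain ⟨N₂, h2⟩ := Pool.Agent.H373R2.T7.ev_L' (1 + (P : ℝ) + (X : ℝ))
  refine ⟨Mt, Vt, Ct, Nt + N₂ + K + 1, fun N hNN q _ hq1 hq2 ι S y hf c hc α hα => ?_⟩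
  have g2 := h2 N (by omega)
  have hP0 : (0 : ℝ) ≤ P := Nat.cast_nonneg _
  have hX0 : (0 : ℝ) ≤ X := Nat.cast_nonneg _
  have hL1 : 1 ≤ Real.log N := by linarith
  have hL0 : 0 < Real.log N := by linarith
  have hPr : 0 ≤ ∏ i, ((S i).card : ℝ) := prod_nonneg fun i _ => Nat.cast_nonneg _
  -- one sub-pattern
  obtain ⟨G, hG⟩ : ∃ G : (Σ k : Fin (K + 1), (Fin k → Fin K)) → Finset (∀ i, ι i), G =
      fun x : (Σ k : Fin (K + 1), (Fin k → Fin K)) =>
      (Fintype.piFinset S).filter fun n => ¬ ∀ t : Fin K → ℕ, (∀ i, (t i : ℝ) ≤ Real.log N ^ W) →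
        Box ε N (fun j : Fin (x.1 : ℕ) =>
          (x.2 j : ℕ) + 1 + P * (c (x.2 j) + κ (x.2 j) * (y (x.2 j) (n (x.2 j))).val + t (x.2 j))) α := ⟨_, rfl⟩
  have hone : ∀ x : (Σ k : Fin (K + 1), (Fin k → Fin K)), 1 ≤ (x.1 : ℕ) → Function.Injective x.2 →
      ((G x).card : ℝ) ≤ (∏ i, ((S i).card : ℝ)) * (1 / Real.log N ^ (U + 1)) := by
    intro x hx hinj
    have h3 := hkey x hx N (by have := hN x; omega) (fun j => q (x.2 j)) (fun j => by
        refine le_trans ?_ (hq1 (x.2 j))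
        apply mul_le_mul_of_nonneg_left _ (by positivity)
        exact pow_le_pow_right₀ hL1 (hC x)) (fun j => by
        refine (hq2 _).trans (Nat.mul_le_mul_right _ ?_)
        nlinarith only [hP]) (fun j => ι (x.2 j)) (fun j => S (x.2 j)) (fun j => y (x.2 j)) (fun j => by
        apply flat_mono (hf (x.2 j))
        exact one_div_le_one_div_of_le (by positivity) (pow_le_pow_right₀ hL1 (hV x)))
        (fun j => (x.2 j : ℕ) + 1 + P * c (x.2 j)) (fun j => by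
        have e1 := hc (x.2 j)
        have e2 : (x.2 j : ℕ) < K := (x.2 j).2
        have e3 : P * c (x.2 j) ≤ P * (B * N) := Nat.mul_le_mul_left _ e1
        have e4 : (P * B + 1) * N = P * (B * N) + N := by ring
        rw [e4]
        omega) α (fun h h0 hM' => hα h h0 (fun j => (hM' j).trans (by exact_mod_cast hM x)))
    have h4 := sub_count S x.2 hinj (fun m => ∀ t : Fin (x.1 : ℕ) → ℕ, (∀ i, (t i : ℝ) ≤ Real.log N ^ (W + 1)) →
        Box ε N (fun i => (x.2 i : ℕ) + 1 + P * c (x.2 i) + (P * κ (x.2 i)) * (y (x.2 i) (m i)).val + t i) α)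
        (1 / Real.log N ^ (U + 1)) (by
        refine h3.trans (le_of_eq ?_)
        rw [mul_one_div])
    refine le_trans ?_ h4
    have h5 : G x ⊆ (Fintype.piFinset S).filter (fun n => ¬ ∀ t : Fin (x.1 : ℕ) → ℕ, (∀ i, (t i : ℝ) ≤ Real.log N ^ (W + 1)) →
        Box ε N (fun i => (x.2 i : ℕ) + 1 + P * c (x.2 i) + (P * κ (x.2 i)) * (y (x.2 i) (n (x.2 i))).val + t i) α) := by
      intro n hn
      rw [hG, mem_filter] at hn
      rw [mem_filter]
      refine ⟨hn.1, fun hall => hn.2 fun t ht => ?_⟩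
      have h6 := hall (fun j => P * t (x.2 j)) (fun j => by
        push_cast
        rw [pow_succ, mul_comm]
        apply mul_le_mul (ht _) _ hP0 (by positivity)
        linarith)
      have h7 : (fun j => (x.2 j : ℕ) + 1 + P * (c (x.2 j) + κ (x.2 j) * (y (x.2 j) (n (x.2 j))).val + t (x.2 j))) =
          (fun i => (x.2 i : ℕ) + 1 + P * c (x.2 i) + (P * κ (x.2 i)) * (y (x.2 i) (n (x.2 i))).val + P * t (x.2 i)) := by
        funext j
        ring
      rw [h7]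
      exact h6
    exact_mod_cast card_le_card h5
  -- all sub-patterns
  have hsub : ((Fintype.piFinset S).filter fun n => ¬ ∀ t : Fin K → ℕ, (∀ i, (t i : ℝ) ≤ Real.log N ^ W) →
        ∀ (k : ℕ) (e : Fin k → Fin K), 1 ≤ k → Function.Injective e →
        Box ε N (fun j => (e j : ℕ) + 1 + P * (c (e j) + κ (e j) * (y (e j) (n (e j))).val + t (e j))) α) ⊆
      ((univ : Finset (Σ k : Fin (K + 1), (Fin k → Fin K))).filter fun x => 1 ≤ (x.1 : ℕ) ∧ Function.Injective x.2).biUnion G := by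
    intro n hn
    rw [mem_filter] at hn
    obtain ⟨hn1, hn2⟩ := hn
    push Not at hn2
    obtain ⟨t, ht, k, e, hk, he, hb⟩ := hn2
    rw [mem_biUnion]
    have hkK : k < K + 1 := by
      have := Fintype.card_le_of_injective e he
      rw [Fintype.card_fin, Fintype.card_fin] at this
      omega
    refine ⟨⟨⟨k, hkK⟩, e⟩, mem_filter.2 ⟨mem_univ _, hk, he⟩, ?_⟩
    rw [hG, mem_filter]
    exact ⟨hn1, fun hall => hb (hall t ht)⟩
  calc _ ≤ ((((univ : Finset (Σ k : Fin (K + 1), (Fin k → Fin K))).filter fun x => 1 ≤ (x.1 : ℕ) ∧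
        Function.Injective x.2).biUnion G).card : ℝ) := by exact_mod_cast card_le_card hsub
    _ ≤ ∑ x ∈ (univ : Finset (Σ k : Fin (K + 1), (Fin k → Fin K))).filter fun x => 1 ≤ (x.1 : ℕ) ∧ Function.Injective x.2,
        ((G x).card : ℝ) := by exact_mod_cast card_biUnion_le
    _ ≤ ∑ _x ∈ (univ : Finset (Σ k : Fin (K + 1), (Fin k → Fin K))).filter fun x => 1 ≤ (x.1 : ℕ) ∧ Function.Injective x.2,
        (∏ i, ((S i).card : ℝ)) * (1 / Real.log N ^ (U + 1)) := by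
        apply sum_le_sum
        intro x hx
        rw [mem_filter] at hx
        exact hone x hx.2.1 hx.2.2
    _ ≤ (X : ℝ) * ((∏ i, ((S i).card : ℝ)) * (1 / Real.log N ^ (U + 1))) := by
        rw [sum_const, nsmul_eq_mul]
        apply mul_le_mul_of_nonneg_right _ (by positivity)
        rw [hX]
        exact_mod_cast (card_filter_le _ _).trans (le_of_eq card_univ)
    _ ≤ Real.log N * ((∏ i, ((S i).card : ℝ)) * (1 / Real.log N ^ (U + 1))) := by
        apply mul_le_mul_of_nonneg_right _ (by positivity)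
        linarith
    _ = _ := by
        rw [pow_succ]
        field_simp

end Pool.Agent.Run7.h609.BT
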