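import Mathlib
import Pool.Agent.Run7.h609.BT.W1

/-!
# Displaced windows (helper609): the count of Hardy and Littlewood
-/

set_option autoImplicit false
set_option maxHeartbeats 4000000

namespace Pool.Agent.Run7.h609.BT.Win

open Finset
open Pool.Agent.H373R2.T7
open Pool.Agent.Run7.h609.BT
open Pool.Agent.N384.MQ (Flat)
open Pool.Agent.Run7.h794.MK (S_FLT)

/-- the points of the displaced window of length `K + 1` relative to the first one -/
def point {K : ℕ} (P : ℕ) (D : Fin K → ℕ) : Fin (K + 1) → ℕ := Fin.cons 0 fun i => i + 1 + P * D i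

/-- the number of the primes in the displaced window -/
def count {K : ℕ} (P : ℕ) (D : Fin K → ℕ) (x : ℕ) : ℕ := (univ.filter fun j => (x + 1 + point P D j).Prime).card

open scoped Classical in
/-- the number of the integers in `(m, m + k]` without a prime factor `≤ k` -/
noncomputable def h (m k : ℕ) : ℕ := ((Ioc m (m + k)).filter fun n => ∀ p : ℕ, p.Prime → p ≤ k → ¬ p ∣ n).card

/-- the maximum of these numbers -/
noncomputable def H (k : ℕ) : ℕ := ⨆ m, h m k

lemma h_le (m k : ℕ) : h m k ≤ k := by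
  classical
  unfold h
  refine (card_filter_le _ _).trans ?_
  rw [Nat.card_Ioc]
  omega

lemma bdd (k : ℕ) : BddAbove (Set.range fun m => h m k) := ⟨k, by rintro _ ⟨m, rfl⟩; exact h_le m k⟩

lemma h_le_H (m k : ℕ) : h m k ≤ H k := le_ciSup (bdd k) m

lemma exists_H (k : ℕ) : ∃ m, h m k = H k := by
  obtain ⟨m, hm⟩ := Nat.sSup_mem (Set.range_nonempty (fun m => h m k)) (bdd k)
  exact ⟨m, hm⟩

lemma H_le (k : ℕ) : H k ≤ k := by
  obtain ⟨m, hm⟩ := exists_H k
  rw [← hm]
  exact h_le m k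

lemma start (k : ℕ) (hk : 1 ≤ H k) : ∃ m, h m k = H k ∧ ∀ p : ℕ, p.Prime → p ≤ k → ¬ p ∣ m + 1 := by
  classical
  obtain ⟨m, hm⟩ := exists_H k
  obtain ⟨F, hF⟩ : ∃ F, F = (Ioc m (m + k)).filter fun n => ∀ p : ℕ, p.Prime → p ≤ k → ¬ p ∣ n := ⟨_, rfl⟩
  have hFc : F.card = H k := by
    rw [← hm, hF]
    unfold h
    convert rfl
  have hne : F.Nonempty := by
    rw [← card_pos]
    omega
  obtain ⟨j, hj⟩ : ∃ j, j = F.min' hne := ⟨_, rfl⟩
  have hjF : j ∈ F := by rw [hj]; exact F.min'_mem hne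
  have hjF' := hjF
  rw [hF, mem_filter, mem_Ioc] at hjF'
  refine ⟨j - 1, ?_, ?_⟩
  · apply le_antisymm (h_le_H _ _)
    rw [← hFc]
    unfold h
    have hsub : F ⊆ (Ioc (j - 1) (j - 1 + k)).filter fun n => ∀ p : ℕ, p.Prime → p ≤ k → ¬ p ∣ n := by
      intro n hn
      have h1 : j ≤ n := by rw [hj]; exact F.min'_le n hn
      rw [hF, mem_filter, mem_Ioc] at hn
      rw [mem_filter, mem_Ioc]
      exact ⟨by omega, hn.2⟩
    convert card_le_card hsub
  · have : j - 1 + 1 = j := by omega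
    rw [this]
    exact hjF'.2

lemma H_two (k : ℕ) (hk : 3 ≤ k) : 2 ≤ H k := by
  classical
  have hf : 2 ≤ k.factorial := by
    calc 2 ≤ k := by omega
      _ ≤ k.factorial := Nat.self_le_factorial k
  refine le_trans ?_ (h_le_H (k.factorial - 2) k)
  have hd : ∀ p : ℕ, p.Prime → p ≤ k → p ∣ k.factorial := fun p hp hpk => hp.dvd_factorial.2 hpk
  have hsub : ({k.factorial - 1, k.factorial + 1} : Finset ℕ) ⊆
      (Ioc (k.factorial - 2) (k.factorial - 2 + k)).filter fun n => ∀ p : ℕ, p.Prime → p ≤ k → ¬ p ∣ n := by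
    intro n hn
    rw [mem_insert, mem_singleton] at hn
    rw [mem_filter, mem_Ioc]
    refine ⟨by omega, fun p hp hpk hpn => ?_⟩
    have h1 := hd p hp hpk
    rcases hn with hn | hn
    · have h2 : p ∣ k.factorial - n := Nat.dvd_sub h1 hpn
      have h3 : k.factorial - n = 1 := by omega
      rw [h3] at h2
      exact hp.one_lt.ne' (Nat.dvd_one.1 h2)
    · have h2 : p ∣ n - k.factorial := Nat.dvd_sub hpn h1
      have h3 : n - k.factorial = 1 := by omega
      rw [h3] at h2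
      exact hp.one_lt.ne' (Nat.dvd_one.1 h2)
  have h1 : ({k.factorial - 1, k.factorial + 1} : Finset ℕ).card = 2 := card_pair (by omega)
  have h2 := card_le_card hsub
  rw [h1] at h2
  refine h2.trans (le_of_eq ?_)
  unfold h
  convert rfl

lemma dvd_point {K : ℕ} (P : ℕ) (D : Fin K → ℕ) (x p : ℕ) (hp : p ∣ P) (j : Fin (K + 1)) :
    p ∣ x + point P D j ↔ p ∣ x + (j : ℕ) := by
  refine Fin.cases ?_ (fun i => ?_) j
  · unfold point
    rw [Fin.cons_zero, Fin.val_zero]
  · unfold point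
    rw [Fin.cons_succ, Fin.val_succ]
    have h1 : x + ((i : ℕ) + 1 + P * D i) = (x + ((i : ℕ) + 1)) + P * D i := by ring
    rw [h1]
    exact (Nat.dvd_add_iff_left (hp.mul_right _)).symm

lemma le_point {K : ℕ} (P : ℕ) (D : Fin K → ℕ) (j : Fin (K + 1)) : (j : ℕ) ≤ point P D j := by
  refine Fin.cases ?_ (fun i => ?_) j
  · simp
  · unfold point
    rw [Fin.cons_succ, Fin.val_succ]
    omega

lemma count_le {K : ℕ} (P : ℕ) (D : Fin K → ℕ) (hP : ∀ p : ℕ, p.Prime → p ≤ K + 1 → p ∣ P) (x : ℕ) (hx : K + 1 ≤ x) :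
    count P D x ≤ H (K + 1) := by
  classical
  refine le_trans ?_ (h_le_H x (K + 1))
  unfold count h
  apply card_le_card_of_injOn (fun j : Fin (K + 1) => x + 1 + (j : ℕ))
  · intro j hj
    rw [mem_coe, mem_filter] at hj
    rw [mem_coe, mem_filter, mem_Ioc]
    have hj1 := j.isLt
    show (x < x + 1 + (j : ℕ) ∧ x + 1 + (j : ℕ) ≤ x + (K + 1)) ∧ ∀ p : ℕ, p.Prime → p ≤ K + 1 → ¬ p ∣ x + 1 + (j : ℕ)
    refine ⟨⟨by omega, by omega⟩, fun p hp hpK hd => ?_⟩
    have h1 := (dvd_point P D (x + 1) p (hP p hp hpK) j).2 hd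
    have h2 := (Nat.prime_dvd_prime_iff_eq hp hj.2).1 h1
    omega
  · intro j _ j' _ he
    simp only at he
    apply Fin.ext
    omega

/-- the positions which are not sieved out -/
lemma card_J0 (K m : ℕ) [DecidablePred fun j : Fin (K + 1) => ∀ p : ℕ, p.Prime → p ≤ K + 1 → ¬ p ∣ m + 1 + (j : ℕ)] :
    (univ.filter fun j : Fin (K + 1) => ∀ p : ℕ, p.Prime → p ≤ K + 1 → ¬ p ∣ m + 1 + (j : ℕ)).card = h m (K + 1) := by
  classical
  unfold h
  refine card_bij (fun j _ => m + 1 + (j : ℕ)) ?_ ?_ ?_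
  · intro j hj
    rw [mem_filter] at hj
    rw [mem_filter, mem_Ioc]
    exact ⟨⟨by omega, by omega⟩, hj.2⟩
  · intro j _ j' _ he
    apply Fin.ext
    omega
  · intro n hn
    rw [mem_filter, mem_Ioc] at hn
    have h1 : m + 1 + (n - m - 1) = n := by omega
    refine ⟨⟨n - m - 1, by omega⟩, ?_, h1⟩
    rw [mem_filter]
    refine ⟨mem_univ _, fun p hp hpK => ?_⟩
    show ¬ p ∣ m + 1 + (n - m - 1)
    rw [h1]
    exact hn.2 p hp hpK

/-! ### enumeration of a set of positions -/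

section
variable {K : ℕ} (J : Finset (Fin (K + 1)))

/-- the positions different from the first one -/
def I : Finset (Fin K) := univ.filter fun i => i.succ ∈ J

/-- the enumeration -/
noncomputable def en : Fin (I J).card → Fin K := (I J).orderEmbOfFin rfl

lemma en_inj : Function.Injective (en J) := ((I J).orderEmbOfFin rfl).injective

lemma card_I (h0 : 0 ∈ J) : J.card = (I J).card + 1 := by
  have h1 : J = insert 0 ((I J).image Fin.succ) := by
    ext j
    rw [mem_insert, mem_image]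
    constructor
    · intro hj
      rcases Fin.eq_zero_or_eq_succ j with h2 | ⟨i, h2⟩
      · exact Or.inl h2
      · right
        refine ⟨i, ?_, h2.symm⟩
        unfold I
        rw [mem_filter]
        exact ⟨mem_univ _, h2 ▸ hj⟩
    · rintro (h2 | ⟨i, h2, h3⟩)
      · rw [h2]
        exact h0
      · unfold I at h2
        rw [mem_filter] at h2
        rw [← h3]
        exact h2.2
  have h2 : (0 : Fin (K + 1)) ∉ (I J).image Fin.succ := by
    rw [mem_image]
    rintro ⟨i, _, h3⟩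
    exact Fin.succ_ne_zero i h3
  conv_lhs => rw [h1]
  rw [card_insert_of_notMem h2, card_image_of_injective _ (Fin.succ_injective K)]

lemma all_J (h0 : 0 ∈ J) (φ : Fin (K + 1) → Prop) : (∀ j ∈ J, φ j) ↔ φ 0 ∧ ∀ i, φ (en J i).succ := by
  have hr : ∀ i : Fin K, i ∈ I J ↔ ∃ i', en J i' = i := by
    intro i
    have h1 := (I J).range_orderEmbOfFin rfl
    have h2 : i ∈ Set.range ((I J).orderEmbOfFin rfl) ↔ i ∈ (I J : Set (Fin K)) := by rw [h1]
    rw [mem_coe] at h2
    exact h2.symm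
  constructor
  · intro h
    refine ⟨h 0 h0, fun i => h _ ?_⟩
    have h1 := (hr (en J i)).2 ⟨i, rfl⟩
    unfold I at h1
    rw [mem_filter] at h1
    exact h1.2
  · rintro ⟨h1, h2⟩ j hj
    rcases Fin.eq_zero_or_eq_succ j with h3 | ⟨i, h3⟩
    · rw [h3]
      exact h1
    · obtain ⟨i', h4⟩ := (hr i).1 (by
        unfold I
        rw [mem_filter]
        exact ⟨mem_univ _, h3 ▸ hj⟩)
      rw [h3, ← h4]
      exact h2 i'

lemma ex_J (h0 : 0 ∈ J) (φ : Fin (K + 1) → Prop) : (∃ j ∈ J, φ j) ↔ φ 0 ∨ ∃ i, φ (en J i).succ := by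
  have h1 := all_J J h0 (fun j => ¬ φ j)
  constructor
  · intro h2
    by_contra h3
    push Not at h3
    obtain ⟨j, hj, hj'⟩ := h2
    exact h1.2 h3 j hj hj'
  · intro h2
    by_contra h3
    push Not at h3
    obtain ⟨h4, h5⟩ := h1.1 h3
    rcases h2 with h2 | ⟨i, h2⟩
    · exact h4 h2
    · exact h5 i h2

/-- the shifts -/
noncomputable def sft (P : ℕ) (D : Fin K → ℕ) : Fin (I J).card → ℕ := fun i => (en J i : ℕ) + 1 + P * D (en J i)

lemma point_en (P : ℕ) (D : Fin K → ℕ) (i : Fin (I J).card) : point P D (en J i).succ = sft J P D i := by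
  unfold point sft
  rw [Fin.cons_succ]

end

/-- the singular series of the pattern, truncated at `z` -/
noncomputable def series {K : ℕ} (P : ℕ) (D : Fin K → ℕ) (J : Finset (Fin (K + 1))) (z : ℕ) : ℝ :=
  ∏ p ∈ (Icc 1 z).filter Nat.Prime,
    (1 - (((range p).filter fun x => ∃ j ∈ J, p ∣ x + point P D j).card : ℝ) / p) / (1 - 1 / (p : ℝ)) ^ J.card

lemma series_eq {K : ℕ} (P : ℕ) (D : Fin K → ℕ) (J : Finset (Fin (K + 1))) (h0 : 0 ∈ J) :
    series P D J = fun z => singZ (fun i => (sft J P D i : ℤ)) z := by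
  funext z
  unfold series singZ
  rw [← card_I J h0]
  apply prod_congr rfl
  intro p _
  have h1 : ((range p).filter fun x => ∃ j ∈ J, p ∣ x + point P D j).card = nuP (fun i => (sft J P D i : ℤ)) p := by
    unfold nuP
    congr 1
    apply filter_congr
    intro x _
    rw [ex_J J h0]
    apply or_congr
    · unfold point
      rw [Fin.cons_zero, add_zero]
    · apply exists_congr
      intro i
      rw [point_en, ← Int.natCast_dvd_natCast]
      push_cast
      rfl
  rw [h1]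

/-- the measure of the `x` in `[0, 1)` for which `x + s j` is in `[0, l j)` modulo one, for all `j ∈ J` -/
noncomputable def meas {K : ℕ} (J : Finset (Fin (K + 1))) (s l : Fin (K + 1) → ℝ) : ℝ :=
  (MeasureTheory.volume {x : ℝ | 0 ≤ x ∧ x < 1 ∧ ∀ j ∈ J, Int.fract (x + s j) < l j}).toReal

/-- no prime up to `K + 1` divides one of the positions always -/
def Free {K : ℕ} (J : Finset (Fin (K + 1))) : Prop := ∀ p : ℕ, p.Prime → p ≤ K + 1 → ∃ x : ℕ, ∀ j ∈ J, ¬ p ∣ x + (j : ℕ)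

lemma adm {K : ℕ} (P : ℕ) (D : Fin K → ℕ) (hP : ∀ p : ℕ, p.Prime → p ≤ K + 1 → p ∣ P) (J : Finset (Fin (K + 1))) (h0 : 0 ∈ J)
    (hJ : Free J) : Admissible (fun i => (sft J P D i : ℤ)) := by
  have key : ∀ p : ℕ, p.Prime → ∃ x : ℕ, ∀ j ∈ J, ¬ p ∣ x + point P D j := by
    intro p hp
    by_cases hpK : p ≤ K + 1
    · obtain ⟨x, hx⟩ := hJ p hp hpK
      exact ⟨x, fun j hj hd => hx j hj ((dvd_point P D x p (hP p hp hpK) j).1 hd)⟩
    · by_contra hcon
      push Not at hcon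
      have h1 : ∀ x ∈ range p, ∃ j : Fin (K + 1), p ∣ x + point P D j := fun x _ => by
        obtain ⟨j, _, hj⟩ := hcon x
        exact ⟨j, hj⟩
      choose! f hf using h1
      have h2 : (univ : Finset (Fin (K + 1))).card < (range p).card := by
        rw [card_univ, Fintype.card_fin, card_range]
        omega
      obtain ⟨x, hx, x', hx', hne, he⟩ := exists_ne_map_eq_of_card_lt_of_maps_to h2 (f := f) (fun x _ => mem_univ _)
      have h3 := hf x hx
      have h4 := hf x' hx'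
      rw [he] at h3
      rw [mem_range] at hx hx'
      apply hne
      have h5 : x ≡ x' [MOD p] := by
        have h6 : x + point P D (f x') ≡ x' + point P D (f x') [MOD p] :=
          (Nat.modEq_zero_iff_dvd.2 h3).trans (Nat.modEq_zero_iff_dvd.2 h4).symm
        exact Nat.ModEq.add_right_cancel' _ h6
      exact Nat.ModEq.eq_of_lt_of_lt h5 hx hx'
  intro p hp
  obtain ⟨x, hx⟩ := key p hp
  obtain ⟨h1, h2⟩ := (all_J J h0 _).1 hx
  refine ⟨x, ?_, fun i => ?_⟩
  · unfold point at h1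
    rw [Fin.cons_zero, add_zero] at h1
    exact_mod_cast h1
  · have h3 := h2 i
    rw [point_en] at h3
    show ¬ (p : ℤ) ∣ (x : ℤ) + (sft J P D i : ℤ)
    exact_mod_cast h3

/-- the expected number for all patterns and all boxes -/
def Pat {r K : ℕ} (ε : ℝ) (N : ℕ) (α : Fin r → ℝ) (P : ℕ) (D : Fin K → ℕ) : Prop :=
  ∀ J : Finset (Fin (K + 1)), 0 ∈ J → 2 ≤ J.card → Free J →
    ∃ S : ℝ, 0 < S ∧ Filter.Tendsto (series P D J) Filter.atTop (nhds S) ∧
      ∀ u v : Fin (K + 1) → Fin r → ℝ, (∀ j i, u j i ≤ v j i) → (∀ j i, v j i ≤ u j i + 1) →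
        |(((Icc 1 N).filter fun n : ℕ => ∀ j ∈ J, (n + point P D j).Prime ∧
            ∀ i, Int.fract (α i * (n + point P D j : ℕ) - u j i) < v j i - u j i).card : ℝ) -
          (∏ i, meas J (fun j => α i * point P D j - u j i) (fun j => v j i - u j i)) * (S * (N / Real.log N ^ J.card))| ≤
            ε * (S * (N / Real.log N ^ J.card))

lemma pat_of {r K : ℕ} (ε : ℝ) (N : ℕ) (α : Fin r → ℝ) (P : ℕ) (D : Fin K → ℕ) (hP : ∀ p : ℕ, p.Prime → p ≤ K + 1 → p ∣ P)
    (h : ∀ (k : ℕ) (e : Fin k → Fin K), 1 ≤ k → Function.Injective e → Joint ε N (fun j => (e j : ℕ) + 1 + P * D (e j)) α) :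
    Pat ε N α P D := by
  intro J h0 hJ2 hJ
  have hcard := card_I J h0
  obtain ⟨S, hS, hS1⟩ := h (I J).card (en J) (by omega) (en_inj J)
  obtain ⟨hS0, hS2⟩ := hS1 (adm P D hP J h0 hJ)
  refine ⟨S, hS0, ?_, fun u v huv hvu => ?_⟩
  · rw [series_eq P D J h0]
    exact hS
  obtain ⟨g, hg⟩ : ∃ g : Fin ((I J).card + 1) → Fin (K + 1), g = Fin.cons 0 (fun i => (en J i).succ) := ⟨_, rfl⟩
  have hall : ∀ φ : Fin (K + 1) → Prop, (∀ j ∈ J, φ j) ↔ ∀ i, φ (g i) := by
    intro φ
    rw [all_J J h0, Fin.forall_fin_succ, hg]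
    simp only [Fin.cons_zero, Fin.cons_succ]
  have hsh : ∀ i, sh (fun j => (en J j : ℕ) + 1 + P * D (en J j)) i = point P D (g i) := by
    intro i
    rw [hg]
    refine Fin.cases ?_ (fun i' => ?_) i
    · unfold sh point
      rw [Fin.cons_zero, Fin.cons_zero, Fin.cons_zero]
    · unfold sh point
      rw [Fin.cons_succ, Fin.cons_succ, Fin.cons_succ]
  have h1 := hS2 (fun i => u (g i)) (fun i => v (g i)) (fun i j => huv _ _) (fun i j => hvu _ _)
  have hpow : Real.log (N : ℝ) ^ ((I J).card + 1) = Real.log (N : ℝ) ^ J.card := by rw [hcard]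
  rw [hpow] at h1
  have e1 : ((Icc 1 N).filter fun n : ℕ => ∀ j ∈ J, (n + point P D j).Prime ∧
            ∀ i, Int.fract (α i * (n + point P D j : ℕ) - u j i) < v j i - u j i) =
      (TT (fun j => (en J j : ℕ) + 1 + P * D (en J j)) N).filter (fun n : ℕ => ∀ i j,
        Int.fract (α j * ((n : ℝ) + sh (fun j => (en J j : ℕ) + 1 + P * D (en J j)) i) - u (g i) j) < v (g i) j - u (g i) j) := by
    unfold TT
    rw [filter_filter]
    apply filter_congr
    intro n _
    rw [hall]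
    have e2 : (n.Prime ∧ ∀ i, (n + ((en J i : ℕ) + 1 + P * D (en J i))).Prime) ↔ ∀ i, (n + point P D (g i)).Prime := by
      have e3 := hall (fun j => (n + point P D j).Prime)
      rw [← e3, all_J J h0]
      apply and_congr
      · unfold point
        rw [Fin.cons_zero, add_zero]
      · apply forall_congr'
        intro i
        rw [point_en]
        rfl
    rw [e2, ← forall_and]
    apply forall_congr'
    intro i
    apply and_congr_right
    intro _
    apply forall_congr'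
    intro j
    rw [hsh, Nat.cast_add]
  have e4 : ∏ i, meas J (fun j => α i * point P D j - u j i) (fun j => v j i - u j i) =
      ∏ j, arcs (fun i => α j * sh (fun j => (en J j : ℕ) + 1 + P * D (en J j)) i - u (g i) j) (fun i => v (g i) j - u (g i) j) := by
    apply prod_congr rfl
    intro i _
    unfold meas arcs
    congr 2
    ext x
    simp only [Set.mem_setOf_eq]
    apply and_congr_right
    intro _
    apply and_congr_right
    intro _
    rw [hall]
    apply forall_congr'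
    intro j
    rw [hsh]
  rw [e1, e4]
  exact h1

/-- the number of the windows with the maximal number of primes -/
def Many {K : ℕ} (c : ℝ) (N : ℕ) (P : ℕ) (D : Fin K → ℕ) : Prop :=
  (∀ x : ℕ, K + 1 ≤ x → count P D x ≤ H (K + 1)) ∧
  c * (N / Real.log N ^ H (K + 1)) ≤ (((range N).filter fun x => K + 1 ≤ x ∧ count P D x = H (K + 1)).card : ℝ)

lemma many_of (K : ℕ) (hK : 2 ≤ K) : ∃ c : ℝ, 0 < c ∧ ∀ (r : ℕ) (ε : ℝ), ε ≤ 1 / 2 → ∃ N₀ : ℕ, ∀ N : ℕ, N₀ ≤ N → ∀ (α : Fin r → ℝ) (P : ℕ)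
    (D : Fin K → ℕ), (∀ p : ℕ, p.Prime → p ≤ K + 1 → p ∣ P) →
    (∀ (k : ℕ) (e : Fin k → Fin K), 1 ≤ k → Function.Injective e → Box ε N (fun j => (e j : ℕ) + 1 + P * D (e j)) α) →
    Many c N P D := by
  classical
  obtain ⟨c, hc, hlow⟩ := singZ_low (H (K + 1) - 1)
  have hH2 := H_two (K + 1) (by omega)
  refine ⟨c / 4, by positivity, fun r ε hε => ?_⟩
  obtain ⟨n1, h1⟩ := Pool.Agent.Y883.T3.ev_log_rpow (K + 1) (4 * ((K : ℝ) + 1) / c) 1 (by norm_num)
  obtain ⟨n2, h2⟩ := Pool.Agent.H373R2.T7.ev_L' 1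
  refine ⟨n1 + n2 + 2, fun N hN α P D hP hB => ⟨fun x hx => count_le P D hP x hx, ?_⟩⟩
  have g1 := h1 N (by omega)
  have g2 := h2 N (by omega)
  rw [Real.rpow_one] at g1
  have hN0 : (0 : ℝ) < N := by exact_mod_cast (by omega : 0 < N)
  obtain ⟨L, hL⟩ : ∃ L, L = Real.log (N : ℝ) := ⟨_, rfl⟩
  rw [← hL] at g1 g2 ⊢
  have hL0 : 0 < L := by linarith
  -- the optimal pattern
  obtain ⟨m, hm, hm1⟩ := start (K + 1) (by omega)
  obtain ⟨J, hJ⟩ : ∃ J : Finset (Fin (K + 1)), J = univ.filter fun j : Fin (K + 1) =>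
    ∀ p : ℕ, p.Prime → p ≤ K + 1 → ¬ p ∣ m + 1 + (j : ℕ) := ⟨_, rfl⟩
  have hJc : J.card = H (K + 1) := by
    rw [hJ, ← hm]
    exact card_J0 K m
  have h0 : (0 : Fin (K + 1)) ∈ J := by
    rw [hJ, mem_filter]
    refine ⟨mem_univ _, fun p hp hpK => ?_⟩
    rw [Fin.val_zero, add_zero]
    exact hm1 p hp hpK
  have hfree : Free J := fun p hp hpK => ⟨m + 1, fun j hj => by
    rw [hJ, mem_filter] at hj
    exact hj.2 p hp hpK⟩
  have hcard := card_I J h0
  have hIc : (I J).card = H (K + 1) - 1 := by omega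
  obtain ⟨S, hS, hS1⟩ := hB (I J).card (en J) (by omega) (en_inj J)
  have hadm := adm P D hP J h0 hfree
  obtain ⟨hS0, hS2⟩ := hS1 hadm
  have hcS : c ≤ S := by
    have hlow' : ∀ z, c ≤ singZ (fun i => (sft J P D i : ℤ)) z := by
      rw [← hIc] at hlow
      exact fun z => hlow _ hadm z
    exact ge_of_tendsto' hS hlow'
  have h3 := hS2 (fun _ => 0) (fun _ => 1) (fun _ => zero_le_one) (fun _ => by norm_num)
  have h4 : (TT (fun j => (en J j : ℕ) + 1 + P * D (en J j)) N).filter (fun n : ℕ => ∀ j,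
      Int.fract (α j * (n : ℝ) - 0) < 1 - 0) = TT (fun j => (en J j : ℕ) + 1 + P * D (en J j)) N := by
    apply filter_true_of_mem
    intro n _ j
    rw [sub_zero, sub_zero]
    exact Int.fract_lt_one _
  rw [h4] at h3
  have h5 : ∏ _j : Fin r, ((1 : ℝ) - 0) = 1 := by simp
  rw [h5, one_mul, ← hcard, hJc, ← hL] at h3
  obtain ⟨Z, hZ⟩ : ∃ Z : ℝ, Z = (N : ℝ) / L ^ H (K + 1) := ⟨_, rfl⟩
  rw [← hZ] at h3 ⊢
  have hZ0 : 0 < Z := by rw [hZ]; positivity
  have h6 := (abs_le.1 h3).1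
  have h7 : c / 2 * Z ≤ ((TT (fun j => (en J j : ℕ) + 1 + P * D (en J j)) N).card : ℝ) := by
    have h8 : ε * (S * Z) ≤ 1 / 2 * (S * Z) := mul_le_mul_of_nonneg_right hε (by positivity)
    have h9 : c * Z ≤ S * Z := mul_le_mul_of_nonneg_right hcS hZ0.le
    linarith
  -- the windows
  have h8 : (TT (fun j => (en J j : ℕ) + 1 + P * D (en J j)) N).card ≤
      ((range N).filter fun x => K + 1 ≤ x ∧ count P D x = H (K + 1)).card + (K + 1) := by
    have h9 : (TT (fun j => (en J j : ℕ) + 1 + P * D (en J j)) N) ⊆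
        (((range N).filter fun x => K + 1 ≤ x ∧ count P D x = H (K + 1)).image (fun x => x + 1)) ∪ Icc 1 (K + 1) := by
      intro n hn
      unfold TT at hn
      rw [mem_filter, mem_Icc] at hn
      obtain ⟨⟨hn1, hn2⟩, hn3, hn4⟩ := hn
      rw [mem_union]
      by_cases hnK : n ≤ K + 1
      · right
        rw [mem_Icc]
        omega
      left
      rw [mem_image]
      refine ⟨n - 1, ?_, by omega⟩
      rw [mem_filter, mem_range]
      refine ⟨by omega, by omega, ?_⟩
      apply le_antisymm (count_le P D hP _ (by omega))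
      rw [← hJc]
      unfold count
      apply card_le_card
      intro j hj
      rw [mem_filter]
      refine ⟨mem_univ _, ?_⟩
      have h10 : n - 1 + 1 = n := by omega
      rw [h10]
      have h11 : ∀ j ∈ J, (n + point P D j).Prime := by
        rw [all_J J h0]
        refine ⟨?_, fun i => ?_⟩
        · unfold point
          rw [Fin.cons_zero, add_zero]
          exact hn3
        · rw [point_en]
          exact hn4 i
      exact h11 j hj
    refine (card_le_card h9).trans ((card_union_le _ _).trans ?_)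
    have h10 : (Icc 1 (K + 1)).card = K + 1 := by rw [Nat.card_Icc]; omega
    rw [h10]
    exact Nat.add_le_add_right card_image_le _
  have h9 : ((TT (fun j => (en J j : ℕ) + 1 + P * D (en J j)) N).card : ℝ) ≤
      (((range N).filter fun x => K + 1 ≤ x ∧ count P D x = H (K + 1)).card : ℝ) + ((K : ℝ) + 1) := by exact_mod_cast h8
  have h10 : (K : ℝ) + 1 ≤ c / 4 * Z := by
    have h11 : L ^ H (K + 1) ≤ L ^ (K + 1) := pow_le_pow_right₀ g2 (H_le (K + 1))
    have h12 : 4 * ((K : ℝ) + 1) / c * L ^ H (K + 1) ≤ N :=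
      (mul_le_mul_of_nonneg_left h11 (by positivity)).trans g1
    rw [hZ]
    have h13 : 0 < L ^ H (K + 1) := by positivity
    rw [mul_div_assoc', le_div_iff₀ h13]
    have h14 := mul_le_mul_of_nonneg_left h12 (show 0 ≤ c / 4 by positivity)
    have h15 : c / 4 * (4 * ((K : ℝ) + 1) / c * L ^ H (K + 1)) = ((K : ℝ) + 1) * L ^ H (K + 1) := by
      field_simp
    linarith
  linarith

open Classical in
/-- **displaced windows** -/
theorem displaced (hF : S_FLT) (K : ℕ) (hK : 2 ≤ K) : ∃ c : ℝ, 0 < c ∧ ∀ (r B W U P : ℕ) (κ : Fin K → ℕ), 1 ≤ P →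
    (∀ p : ℕ, p.Prime → p ≤ K + 1 → p ∣ P) → (∀ i, 1 ≤ κ i) → ∀ η ε : ℝ, 0 < η → η ≤ 1 → 0 < ε →
    ∃ M V C N₀ : ℕ, ∀ N : ℕ, N₀ ≤ N → ∀ (q : Fin K → ℕ) [∀ i, NeZero (q i)],
      (∀ i, (N : ℝ) ^ (1 / 3 : ℝ) * Real.log N ^ C ≤ q i) → (∀ i, q i ≤ B * N) →
      ∀ (ι : Fin K → Type) (S : ∀ i, Finset (ι i)) (y : ∀ i, ι i → ZMod (q i)),
      (∀ i, Flat (q i) (1 / Real.log N ^ V) (S i) (y i)) → ∀ c' : Fin K → ℕ, (∀ i, c' i ≤ B * N) → ∀ α : Fin r → ℝ,
      (∀ h : Fin r → ℤ, h ≠ 0 → (∀ j, |h j| ≤ M) → Bad η N (∑ j, (h j : ℝ) * α j)) →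
      (((Fintype.piFinset S).filter fun n => ¬ ∀ t : Fin K → ℕ, (∀ i, (t i : ℝ) ≤ Real.log N ^ W) →
        Pat ε N α P (fun i => c' i + κ i * (y i (n i)).val + t i) ∧
        Many c N P (fun i => c' i + κ i * (y i (n i)).val + t i)).card : ℝ) ≤
        (∏ i, ((S i).card : ℝ)) / Real.log N ^ U := by
  obtain ⟨c, hc, hmany⟩ := many_of K hK
  refine ⟨c, hc, fun r B W U P κ hP hP2 hκ η ε hη hη1 hε => ?_⟩
  -- the small parameter
  have hj : ∀ k : Fin (K + 1), ∃ ε' : ℝ, 0 < ε' ∧ ∀ (N : ℕ) (a : Fin k → ℕ) (α : Fin r → ℝ),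
      1 < N → Box ε' N a α → Joint ε N a α := fun k => joint k r ε hε
  choose ε' hε' hj using hj
  obtain ⟨δ, hδ0, hδ1, hδ2⟩ : ∃ δ : ℝ, 0 < δ ∧ δ ≤ 1 / 2 ∧ ∀ k, δ ≤ ε' k := by
    have hne : (univ : Finset (Fin (K + 1))).Nonempty := univ_nonempty
    refine ⟨min (1 / 2) (univ.inf' hne ε'), ?_, min_le_left _ _, fun k => (min_le_right _ _).trans (inf'_le _ (mem_univ k))⟩
    apply lt_min (by norm_num)
    rw [lt_inf'_iff]
    exact fun k _ => hε' k
  obtain ⟨n1, h1⟩ := hmany r δ hδ1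
  obtain ⟨M, V, C, n2, h2⟩ := windows hF K r B W U P κ hP hκ η δ hη hη1 hδ0
  refine ⟨M, V, C, n1 + n2 + 2, fun N hN q _ hq1 hq2 ι S y hf c' hc' α hα => ?_⟩
  refine le_trans ?_ (h2 N (by omega) q hq1 hq2 ι S y hf c' hc' α hα)
  have hsub : ((Fintype.piFinset S).filter fun n => ¬ ∀ t : Fin K → ℕ, (∀ i, (t i : ℝ) ≤ Real.log N ^ W) →
        Pat ε N α P (fun i => c' i + κ i * (y i (n i)).val + t i) ∧
        Many c N P (fun i => c' i + κ i * (y i (n i)).val + t i)) ⊆
      ((Fintype.piFinset S).filter fun n => ¬ ∀ t : Fin K → ℕ, (∀ i, (t i : ℝ) ≤ Real.log N ^ W) →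
        ∀ (k : ℕ) (e : Fin k → Fin K), 1 ≤ k → Function.Injective e →
        Box δ N (fun j => (e j : ℕ) + 1 + P * (c' (e j) + κ (e j) * (y (e j) (n (e j))).val + t (e j))) α) := by
    intro n hn
    rw [mem_filter] at hn ⊢
    refine ⟨hn.1, fun hall => hn.2 fun t ht => ?_⟩
    have h3 := hall t ht
    refine ⟨pat_of ε N α P _ hP2 fun k e hk he => ?_, h1 N (by omega) α P _ hP2 h3⟩
    have hkK : k < K + 1 := by
      have := Fintype.card_le_of_injective e he
      rw [Fintype.card_fin, Fintype.card_fin] at this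
      omega
    refine hj ⟨k, hkK⟩ N _ α (by omega) ?_
    obtain ⟨S', hS', hS1⟩ := h3 k e hk he
    refine ⟨S', hS', fun ha => ?_⟩
    obtain ⟨hS0, hS2⟩ := hS1 ha
    refine ⟨hS0, fun u v huv hvu => (hS2 u v huv hvu).trans ?_⟩
    apply mul_le_mul_of_nonneg_right (hδ2 _)
    have : 0 ≤ (N : ℝ) / Real.log N ^ (k + 1) := div_nonneg (Nat.cast_nonneg _) (pow_nonneg (Real.log_natCast_nonneg _) _)
    positivity
  exact_mod_cast card_le_card hsub

end Pool.Agent.Run7.h609.BT.Win
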