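import Mathlib
import Pool.Agent.Run7.h609.BT.W2
import Pool.Agent.H381R2.HR.Main

/-!
# Displaced windows (helper609): comparison with the number of primes up to `k`
-/

set_option autoImplicit false
set_option maxHeartbeats 4000000

namespace Pool.Agent.Run7.h609.BT.Win

open Finset

/-- an admissible set in `[0, k)` gives a window with as many unsieved integers -/
lemma card_le_H (k : ℕ) (S : Finset ℤ) (hS : ∀ s ∈ S, 0 ≤ s ∧ s < (k : ℤ))
    (hadm : ∀ q : ℕ, q.Prime → ∃ r : ℤ, ∀ s ∈ S, ¬ ((q : ℤ) ∣ s - r)) : S.card ≤ H k := by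
  classical
  choose! r hr using hadm
  obtain ⟨T, hT⟩ : ∃ T : Finset ℕ, T = (range (k + 1)).filter Nat.Prime := ⟨_, rfl⟩
  have hTp : ∀ p ∈ T, p.Prime := fun p hp => by
    rw [hT, mem_filter] at hp
    exact hp.2
  obtain ⟨m, hm⟩ := Nat.chineseRemainderOfFinset (fun p : ℕ => ((-(r p) - 1) % (p : ℤ)).toNat) (fun p : ℕ => p) T
    (fun p hp => (hTp p hp).ne_zero) (fun p hp p' hp' hne =>
      (Nat.coprime_primes (hTp p (mem_coe.1 hp)) (hTp p' (mem_coe.1 hp'))).2 hne)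
  have hm' : ∀ p ∈ T, (p : ℤ) ∣ (m : ℤ) + 1 + r p := by
    intro p hp
    have h1 := hm p hp
    have hp0 : (0 : ℤ) < p := by exact_mod_cast (hTp p hp).pos
    have h2 : (m : ℤ) ≡ ((((-(r p) - 1) % (p : ℤ)).toNat : ℕ) : ℤ) [ZMOD (p : ℤ)] := (Int.natCast_modEq_iff).2 h1
    rw [Int.toNat_of_nonneg (Int.emod_nonneg _ hp0.ne')] at h2
    have h3 : (m : ℤ) ≡ -(r p) - 1 [ZMOD (p : ℤ)] := h2.trans (Int.mod_modEq _ _)
    have h4 := h3.symm.dvd
    have h5 : (m : ℤ) - (-(r p) - 1) = (m : ℤ) + 1 + r p := by ring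
    rwa [h5] at h4
  refine le_trans ?_ (h_le_H m k)
  unfold h
  apply card_le_card_of_injOn (fun s : ℤ => m + 1 + s.toNat)
  · intro s hs
    rw [mem_coe] at hs
    obtain ⟨h1, h2⟩ := hS s hs
    rw [mem_coe, mem_filter, mem_Ioc]
    show (m < m + 1 + s.toNat ∧ m + 1 + s.toNat ≤ m + k) ∧ ∀ p : ℕ, p.Prime → p ≤ k → ¬ p ∣ m + 1 + s.toNat
    refine ⟨⟨by omega, by omega⟩, fun p hp hpk hd => ?_⟩
    have hpT : p ∈ T := by
      rw [hT, mem_filter, mem_range]
      exact ⟨by omega, hp⟩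
    have h3 := hm' p hpT
    have h4 : (p : ℤ) ∣ (m : ℤ) + 1 + s := by
      have h5 : ((m + 1 + s.toNat : ℕ) : ℤ) = (m : ℤ) + 1 + s := by
        push_cast
        rw [Int.toNat_of_nonneg h1]
      rw [← h5]
      exact_mod_cast hd
    apply hr p hp s hs
    have h6 : s - r p = ((m : ℤ) + 1 + s) - ((m : ℤ) + 1 + r p) := by ring
    rw [h6]
    exact dvd_sub h4 h3
  · intro s hs s' hs' he
    rw [mem_coe] at hs hs'
    have h1 := hS s hs
    have h2 := hS s' hs'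
    simp only at he
    omega

/-- **the maximal count exceeds the number of primes up to `k`** -/
theorem H_big (a : ℝ) (ha : a < 1 / 2) : ∃ k₀ : ℕ, ∀ k : ℕ, k₀ ≤ k →
    (Nat.primeCounting k : ℝ) + a * (k * Real.log (Real.log (Real.log k)) / Real.log k ^ 2) ≤ (H k : ℝ) := by
  obtain ⟨x0, h0⟩ := Pool.Agent.H381R2.HR.final ha
  refine ⟨⌈x0⌉₊, fun k hk => ?_⟩
  have h1 : x0 ≤ (k : ℝ) := (Nat.le_ceil _).trans (by exact_mod_cast hk)
  obtain ⟨S, _, hS, hadm, hc⟩ := h0 k h1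
  rw [Nat.floor_natCast] at hc
  refine hc.trans ?_
  have h2 := card_le_H k S (fun s hs => ⟨(hS s hs).1, by
    have := (hS s hs).2
    exact_mod_cast this⟩) hadm
  exact_mod_cast h2

end Pool.Agent.Run7.h609.BT.Win
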